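import Mathlib

/-!
The algebra `P(α)/Fin` as a partial order, the action of permutations on it, transport of
automorphisms along an isomorphism `P(ω)/Fin ≃ P(κ)/Fin`, and automorphisms of `P(ω)/Fin` that are
induced by a self-map of `ω`.
-/

namespace Pool.Agent.Work.MP_16b18c_lc

open Set

variable {α : Type*}

/-- Two subsets of `α` are identified if their symmetric difference is finite. -/
def finSetoid (α : Type*) : Setoid (Set α) where
  r := fun A B => (symmDiff A B).Finite
  iseqv :=
    { refl := fun A => by simp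
      symm := fun {A B} h => by rwa [symmDiff_comm]
      trans := fun {A B C} h h' => (h.union h').subset (symmDiff_triangle A B C) }

/-- `P(α)/Fin`: the subsets of `α` modulo finite sets. -/
def PFin (α : Type*) : Type _ := Quotient (finSetoid α)

/-- The class of a set `A` in `P(α)/Fin`. -/
def PFin.mk (A : Set α) : PFin α := Quotient.mk (finSetoid α) A

theorem PFin.mk_eq {A B : Set α} : PFin.mk A = PFin.mk B ↔ (symmDiff A B).Finite :=
  Quotient.eq (r := finSetoid α)

theorem PFin.ind {p : PFin α → Prop} (h : ∀ A : Set α, p (PFin.mk A)) (x : PFin α) : p x :=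
  Quotient.ind (s := finSetoid α) h x

theorem PFin.exists_rep (x : PFin α) : ∃ A : Set α, PFin.mk A = x :=
  PFin.ind (p := fun x => ∃ A : Set α, PFin.mk A = x) (fun A => ⟨A, rfl⟩) x

/-- The order of `P(α)/Fin`: `[A] ≤ [B]` if and only if `A ∖ B` is finite. -/
def PFin.le (x y : PFin α) : Prop :=
  Quotient.liftOn₂ x y (s₁ := finSetoid α) (s₂ := finSetoid α) (fun A B => (A \ B).Finite)
    (by
      intro A B A' B' hA hB
      have hA' : (symmDiff A A').Finite := hA
      have hB' : (symmDiff B B').Finite := hB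
      refine propext ⟨fun h => ?_, fun h => ?_⟩
      · refine ((h.union hA').union hB').subset ?_
        intro x hx
        simp only [Set.mem_union, Set.mem_sdiff, Set.mem_symmDiff] at hx ⊢
        tauto
      · refine ((h.union hA').union hB').subset ?_
        intro x hx
        simp only [Set.mem_union, Set.mem_sdiff, Set.mem_symmDiff] at hx ⊢
        tauto)

instance : PartialOrder (PFin α) where
  le := PFin.le
  le_refl := by
    intro x
    induction x using PFin.ind with
    | h A => change (A \ A).Finite; simp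
  le_trans := by
    intro x y z
    induction x using PFin.ind with
    | h A =>
      induction y using PFin.ind with
      | h B =>
        induction z using PFin.ind with
        | h C =>
          intro h h'
          change (A \ B).Finite at h
          change (B \ C).Finite at h'
          change (A \ C).Finite
          refine (h.union h').subset ?_
          intro x hx
          simp only [Set.mem_union, Set.mem_sdiff] at hx ⊢
          tauto
  le_antisymm := by
    intro x y
    induction x using PFin.ind with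
    | h A =>
      induction y using PFin.ind with
      | h B =>
        intro h h'
        change (A \ B).Finite at h
        change (B \ A).Finite at h'
        rw [PFin.mk_eq]
        exact h.union h'

theorem PFin.mk_le {A B : Set α} : PFin.mk A ≤ PFin.mk B ↔ (A \ B).Finite := Iff.rfl

/-- The automorphism `[A] ↦ [π[A]]` of `P(α)/Fin` given by a permutation `π` of `α`. -/
def permIso (π : Equiv.Perm α) : PFin α ≃o PFin α where
  toFun := Quotient.map (sa := finSetoid α) (sb := finSetoid α) (fun A => π '' A) (by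
    intro A B h
    have h' : (symmDiff A B).Finite := h
    change (symmDiff (π '' A) (π '' B)).Finite
    rw [← Set.image_symmDiff π.injective]
    exact h'.image _)
  invFun := Quotient.map (sa := finSetoid α) (sb := finSetoid α) (fun A => π.symm '' A) (by
    intro A B h
    have h' : (symmDiff A B).Finite := h
    change (symmDiff (π.symm '' A) (π.symm '' B)).Finite
    rw [← Set.image_symmDiff π.symm.injective]
    exact h'.image _)
  left_inv := by
    intro x
    induction x using PFin.ind with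
    | h A =>
      change PFin.mk (π.symm '' (π '' A)) = PFin.mk A
      rw [← Set.image_comp]
      simp
  right_inv := by
    intro x
    induction x using PFin.ind with
    | h A =>
      change PFin.mk (π '' (π.symm '' A)) = PFin.mk A
      rw [← Set.image_comp]
      simp
  map_rel_iff' := by
    intro x y
    induction x using PFin.ind with
    | h A =>
      induction y using PFin.ind with
      | h B =>
        change ((π '' A) \ (π '' B)).Finite ↔ (A \ B).Finite
        rw [← Set.image_sdiff π.injective]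
        exact Set.finite_image_iff π.injective.injOn

theorem permIso_mk (π : Equiv.Perm α) (A : Set α) : permIso π (PFin.mk A) = PFin.mk (π '' A) := rfl

/-- For an isomorphism `Φ : P(ω)/Fin → P(κ)/Fin` and a permutation `π` of `κ`, the automorphism
`Φ⁻¹ ∘ π ∘ Φ` of `P(ω)/Fin`, as a group homomorphism in `π`. -/
def transport {κ : Type*} (Φ : PFin ℕ ≃o PFin κ) : Equiv.Perm κ →* (PFin ℕ ≃o PFin ℕ) where
  toFun := fun π => (Φ.trans (permIso π)).trans Φ.symm
  map_one' := by
    ext x
    change Φ.symm (permIso 1 (Φ x)) = x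
    obtain ⟨A, hA⟩ := PFin.exists_rep (Φ x)
    rw [← hA, permIso_mk]
    simp [hA]
  map_mul' := by
    intro π ρ
    ext x
    change Φ.symm (permIso (π * ρ) (Φ x)) =
      Φ.symm (permIso π (Φ (Φ.symm (permIso ρ (Φ x)))))
    obtain ⟨A, hA⟩ := PFin.exists_rep (Φ x)
    rw [← hA, permIso_mk, permIso_mk, OrderIso.apply_symm_apply, permIso_mk, ← Set.image_comp]
    rfl

theorem transport_apply {κ : Type*} (Φ : PFin ℕ ≃o PFin κ) (π : Equiv.Perm κ) (x : PFin ℕ) :
    transport Φ π x = Φ.symm (permIso π (Φ x)) := rfl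

/-- An automorphism `θ` of `P(ω)/Fin` is induced by a map if there is `f : ω → ω` with
`θ[A] = [f⁻¹[A]]` for all `A ⊆ ω`. The trivial automorphisms, given by bijections between
cofinite subsets of `ω`, are all induced by a map. -/
def IsInduced (θ : PFin ℕ ≃o PFin ℕ) : Prop :=
  ∃ f : ℕ → ℕ, ∀ A : Set ℕ, θ (PFin.mk A) = PFin.mk (f ⁻¹' A)

/-! ### Boundaries -/

/-- The boundary of `Y` for the self-map `g`. -/
def bd {X : Type*} (g : X → X) (Y : Set X) : Set X := {x | ¬ (x ∈ Y ↔ g x ∈ Y)}

theorem bd_eq {X : Type*} (g : X → X) (Y : Set X) : bd g Y = symmDiff (g ⁻¹' Y) Y := by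
  ext x
  simp only [bd, Set.mem_ofPred_eq, Set.mem_symmDiff, Set.mem_preimage]
  tauto

/-- The component of `x` in the graph on `X` that joins each `y` to `g i y` for all `i`. -/
def comp {X ι : Type*} (g : ι → X → X) (x : X) : Set X :=
  {y | Relation.EqvGen (fun a b => ∃ i, b = g i a) x y}

/-- The union of the infinite components of the graph on `X` that joins `y` to `g i y`. -/
def infPart {X ι : Type*} (g : ι → X → X) : Set X := {x | (comp g x).Infinite}

/-- One step of the graph of the family `g`. -/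
def Step {X ι : Type*} (g : ι → X → X) (x y : X) : Prop := ∃ i, y = g i x

theorem countable_of_base {X ι : Type*} [Finite ι] (g : ι → X → X) (C B : Set X)
    (hC : C.Countable) (hinv : ∀ i x, g i x ∈ C → x ∈ C)
    (hconn : ∀ x ∈ C, ∃ b ∈ B, Relation.EqvGen (Step g) b x) (hB : B.Finite) :
    {Y : Set X | Y ⊆ C ∧ ∀ i, (bd (g i) Y).Finite}.Countable := by
  classical
  have h1 : {t : Set X | t.Finite ∧ t ⊆ C}.Countable := Set.countable_ofPred_finite_subset hC
  have h2 : {F : ι → Set X | ∀ i, F i ∈ {t : Set X | t.Finite ∧ t ⊆ C}}.Countable :=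
    Set.countable_pi fun _ => h1
  have h3 := h2.prod h1
  refine Set.MapsTo.countable_of_injOn (f := fun Y => ((fun i => bd (g i) Y), Y ∩ B)) ?_ ?_ h3
  · rintro Y ⟨hY, hbd⟩
    refine ⟨fun i => ⟨hbd i, ?_⟩, hB.subset Set.inter_subset_right,
      Set.inter_subset_left.trans hY⟩
    intro x hx
    by_cases hxY : x ∈ Y
    · exact hY hxY
    · have : g i x ∈ Y := by
        by_contra h
        exact hx ⟨fun h' => absurd h' hxY, fun h' => absurd h' h⟩
      exact hinv i x (hY this)
  · rintro Y ⟨hY, hbd⟩ Y' ⟨hY', hbd'⟩ heq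
    have e1 : ∀ i x, x ∈ bd (g i) Y ↔ x ∈ bd (g i) Y' := by
      intro i x
      have := congrFun (congrArg Prod.fst heq) i
      simp only at this
      rw [this]
    have e2 : ∀ b ∈ B, (b ∈ Y ↔ b ∈ Y') := by
      intro b hb
      have := congrArg Prod.snd heq
      simp only at this
      have h4 : b ∈ Y ∩ B ↔ b ∈ Y' ∩ B := by rw [this]
      simpa [hb] using h4
    have key : ∀ u v, Relation.EqvGen (Step g) u v → ((u ∈ Y ↔ u ∈ Y') ↔ (v ∈ Y ↔ v ∈ Y')) := by
      intro u v h
      induction h with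
      | rel u v h =>
        obtain ⟨i, rfl⟩ := h
        have := e1 i u
        simp only [bd, Set.mem_ofPred_eq] at this
        tauto
      | refl u => exact Iff.rfl
      | symm u v _ ih => exact ih.symm
      | trans u v w _ _ ih ih' => exact ih.trans ih'
    ext x
    by_cases hx : x ∈ C
    · obtain ⟨b, hb, hbx⟩ := hconn x hx
      exact (key b x hbx).1 (e2 b hb)
    · exact ⟨fun h => absurd (hY h) hx, fun h => absurd (hY' h) hx⟩

/-! ### Classes of the graph of a family of maps -/

/-- The equivalence relation generated by `x ∼ g i x`. -/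
def cls {X ι : Type*} (g : ι → X → X) : Setoid X := Relation.EqvGen.setoid (Step g)

/-- The class of a point. -/
def pr {X ι : Type*} (g : ι → X → X) (x : X) : Quotient (cls g) := Quotient.mk (cls g) x

theorem pr_eq {X ι : Type*} {g : ι → X → X} {x y : X} :
    pr g x = pr g y ↔ Relation.EqvGen (Step g) x y := Quotient.eq (r := cls g)

theorem mem_comp {X ι : Type*} {g : ι → X → X} {x y : X} : y ∈ comp g x ↔ pr g x = pr g y :=
  pr_eq.symm

theorem pr_step {X ι : Type*} (g : ι → X → X) (i : ι) (x : X) : pr g (g i x) = pr g x :=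
  (pr_eq.2 (Relation.EqvGen.rel _ _ ⟨i, rfl⟩)).symm

/-- Sets with finite boundaries meeting only finitely many classes: there are countably many. -/
theorem countable_few {X ι : Type*} [Countable X] [Finite ι] (g : ι → X → X) :
    {Y : Set X | (∀ i, (bd (g i) Y).Finite) ∧ (pr g '' Y).Finite}.Countable := by
  classical
  have h1 : {B : Set X | B.Finite ∧ B ⊆ Set.univ}.Countable :=
    Set.countable_ofPred_finite_subset Set.countable_univ
  have h2 : (⋃ B ∈ {B : Set X | B.Finite ∧ B ⊆ Set.univ},
      {Y : Set X | Y ⊆ pr g ⁻¹' (pr g '' B) ∧ ∀ i, (bd (g i) Y).Finite}).Countable := by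
    refine h1.biUnion ?_
    rintro B ⟨hB, -⟩
    refine countable_of_base g _ B (Set.to_countable _) ?_ ?_ hB
    · intro i x hx
      rwa [Set.mem_preimage, pr_step] at hx
    · rintro x ⟨b, hb, hbx⟩
      exact ⟨b, hb, pr_eq.1 hbx⟩
  refine h2.mono ?_
  rintro Y ⟨hY, hfin⟩
  obtain ⟨B, hB, hBfin, hBY⟩ : ∃ B ⊆ Y, B.Finite ∧ pr g '' B = pr g '' Y := by
    obtain ⟨B, hB1, hB2, hB3⟩ := Set.exists_subset_image_finite_and (f := pr g) (s := Y)
      (p := fun t => t = pr g '' Y) |>.1 ⟨pr g '' Y, subset_rfl, hfin, rfl⟩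
    exact ⟨B, hB1, hB2, hB3⟩
  refine Set.mem_biUnion (x := B) ⟨hBfin, Set.subset_univ _⟩ ⟨?_, hY⟩
  intro y hy
  rw [Set.mem_preimage, hBY]
  exact ⟨y, hy, rfl⟩

/-- If a set with finite boundaries meets infinitely many classes, it contains infinitely many. -/
theorem exists_classes {X ι : Type*} [Finite ι] (g : ι → X → X) (Y : Set X)
    (hY : ∀ i, (bd (g i) Y).Finite) (hinf : (pr g '' Y).Infinite) :
    {q ∈ pr g '' Y | ∀ x, pr g x = q → x ∈ Y}.Infinite := by
  have hfin : (pr g '' (⋃ i, bd (g i) Y)).Finite := (Set.finite_iUnion hY).image _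
  refine (hinf.sdiff hfin).mono ?_
  rintro q ⟨⟨y, hy, rfl⟩, hq⟩
  refine ⟨⟨y, hy, rfl⟩, ?_⟩
  have key : ∀ u v, Relation.EqvGen (Step g) u v → pr g u = pr g y → (u ∈ Y ↔ v ∈ Y) := by
    intro u v h
    induction h with
    | rel u v h =>
      obtain ⟨i, rfl⟩ := h
      intro hu
      by_contra hne
      exact hq ⟨u, Set.mem_iUnion.2 ⟨i, hne⟩, hu⟩
    | refl u => exact fun _ => Iff.rfl
    | symm u v h ih => exact fun hv => (ih ((pr_eq.2 h).trans hv)).symm
    | trans u v w h _ ih ih' =>
      exact fun hu => (ih hu).trans (ih' ((pr_eq.2 h).symm.trans hu))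
  intro x hx
  exact (key x y (pr_eq.1 hx) hx).2 hy

/-- The unions of subfamilies of an infinite family of classes take uncountably many values
modulo finite sets. -/
theorem uncountable_unions {X Q : Type*} (p : X → Q) (W : Set Q) (hW : W.Infinite)
    (hne : ∀ q ∈ W, ∃ x, p x = q) :
    ¬ {z : PFin X | ∃ V ⊆ W, z = PFin.mk (p ⁻¹' V)}.Countable := by
  classical
  intro hc
  let e : ℕ ↪ W := hW.natEmbedding W
  have hx : ∀ j, ∃ x, p x = e j := fun j => hne _ (e j).2
  choose x hx using hx
  let F : Set ℕ → PFin X := fun J => PFin.mk (p ⁻¹' ((fun j => (e j : Q)) '' J))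
  have hmem : ∀ (J : Set ℕ) (j : ℕ), x j ∈ p ⁻¹' ((fun j => (e j : Q)) '' J) ↔ j ∈ J := by
    intro J j
    rw [Set.mem_preimage, hx]
    constructor
    · rintro ⟨i, hi, hij⟩
      have : i = j := e.injective (Subtype.ext hij)
      rwa [← this]
    · intro hj
      exact ⟨j, hj, rfl⟩
  have hxinj : Function.Injective x := by
    intro i j hij
    have : (e i : Q) = e j := by rw [← hx, ← hx, hij]
    exact e.injective (Subtype.ext this)
  have hfib : ∀ J J', F J = F J' → (symmDiff J J').Finite := by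
    intro J J' h
    have h' := PFin.mk_eq.1 h
    have : symmDiff J J' ⊆ x ⁻¹' (symmDiff (p ⁻¹' ((fun j => (e j : Q)) '' J))
        (p ⁻¹' ((fun j => (e j : Q)) '' J'))) := by
      intro j hj
      rw [Set.mem_preimage, Set.mem_symmDiff, hmem, hmem]
      exact hj
    exact (h'.preimage hxinj.injOn).subset this
  have hfinc : {B : Set ℕ | B.Finite ∧ B ⊆ Set.univ}.Countable :=
    Set.countable_ofPred_finite_subset Set.countable_univ
  have huniv : (Set.univ : Set (Set ℕ)).Countable := by
    have h1 : (⋃ z ∈ {z : PFin X | ∃ V ⊆ W, z = PFin.mk (p ⁻¹' V)},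
        {J : Set ℕ | F J = z}).Countable := by
      refine hc.biUnion ?_
      intro z _
      by_cases hz : ∃ J₀, F J₀ = z
      · obtain ⟨J₀, hJ₀⟩ := hz
        refine (hfinc.image (fun B => symmDiff J₀ B)).mono ?_
        intro J hJ
        refine ⟨symmDiff J₀ J, ⟨hfib J₀ J (hJ₀.trans (Eq.symm hJ)), Set.subset_univ _⟩, ?_⟩
        exact symmDiff_symmDiff_cancel_left J₀ J
      · refine Set.countable_empty.mono ?_
        intro J hJ
        exact absurd ⟨J, hJ⟩ hz
    refine h1.mono ?_
    intro J _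
    refine Set.mem_biUnion (x := F J) ⟨_, ?_, rfl⟩ rfl
    rintro q ⟨j, _, rfl⟩
    exact (e j).2
  have : Countable (Set ℕ) := Set.countable_univ_iff.1 huniv
  have h2 := Cardinal.mk_le_aleph0_iff.2 this
  rw [Cardinal.mk_set, Cardinal.mk_nat] at h2
  exact absurd h2 (not_le.2 (Cardinal.cantor _))

/-- Components are countable if the maps have countable fibres. -/
theorem comp_countable {X ι : Type*} [Finite ι] (g : ι → X → X)
    (hg : ∀ i x, (g i ⁻¹' {x}).Countable) (x : X) : (comp g x).Countable := by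
  classical
  let R : ℕ → Set X := fun n => Nat.rec {x}
    (fun _ T => T ∪ ((⋃ i, g i '' T) ∪ ⋃ i, g i ⁻¹' T)) n
  have hR0 : R 0 = {x} := rfl
  have hRs : ∀ n, R (n + 1) = R n ∪ ((⋃ i, g i '' R n) ∪ ⋃ i, g i ⁻¹' R n) := fun n => rfl
  have hc : ∀ n, (R n).Countable := by
    intro n
    induction n with
    | zero => rw [hR0]; exact Set.countable_singleton x
    | succ n ih =>
      rw [hRs]
      refine ih.union ((Set.countable_iUnion fun i => ih.image _).union
        (Set.countable_iUnion fun i => ?_))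
      have : g i ⁻¹' R n = ⋃ y ∈ R n, g i ⁻¹' {y} := by
        ext z; simp
      rw [this]
      exact ih.biUnion fun y _ => hg i y
  refine (Set.countable_iUnion hc).mono ?_
  have key : ∀ u v, Relation.EqvGen (Step g) u v → (u ∈ ⋃ n, R n ↔ v ∈ ⋃ n, R n) := by
    intro u v h
    induction h with
    | rel u v h =>
      obtain ⟨i, rfl⟩ := h
      simp only [Set.mem_iUnion]
      constructor
      · rintro ⟨n, hn⟩
        refine ⟨n + 1, ?_⟩
        rw [hRs]
        exact Or.inr (Or.inl (Set.mem_iUnion.2 ⟨i, u, hn, rfl⟩))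
      · rintro ⟨n, hn⟩
        refine ⟨n + 1, ?_⟩
        rw [hRs]
        exact Or.inr (Or.inr (Set.mem_iUnion.2 ⟨i, hn⟩))
    | refl u => exact Iff.rfl
    | symm u v _ ih => exact ih.symm
    | trans u v w _ _ ih ih' => exact ih.trans ih'
  intro y hy
  exact (key x y hy).1 (Set.mem_iUnion.2 ⟨0, rfl⟩)

/-! ### Fixed elements -/

/-- `z` is the class of a set with finite boundaries. -/
def Fixed {X ι : Type*} (g : ι → X → X) (z : PFin X) : Prop :=
  ∃ A : Set X, PFin.mk A = z ∧ ∀ i, (bd (g i) A).Finite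

theorem bd_inter {X : Type*} (g : X → X) (A B : Set X) : bd g (A ∩ B) ⊆ bd g A ∪ bd g B := by
  intro x hx
  simp only [bd, Set.mem_union, Set.mem_ofPred_eq, Set.mem_inter_iff] at hx ⊢
  tauto

theorem bd_compl {X : Type*} (g : X → X) (A : Set X) : bd g Aᶜ = bd g A := by
  ext x
  simp only [bd, Set.mem_ofPred_eq, Set.mem_compl_iff]
  tauto

theorem bd_preimage_pr {X ι : Type*} (g : ι → X → X) (i : ι) (V : Set (Quotient (cls g))) :
    bd (g i) (pr g ⁻¹' V) = ∅ := by
  ext x
  simp only [bd, Set.mem_ofPred_eq, Set.mem_preimage, pr_step, Set.mem_empty_iff_false]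
  tauto

theorem comp_eq_preimage {X ι : Type*} (g : ι → X → X) (x : X) :
    comp g x = pr g ⁻¹' {pr g x} := by
  ext y
  rw [mem_comp, Set.mem_preimage, Set.mem_singleton_iff, eq_comm]

theorem comp_congr {X ι : Type*} {g : ι → X → X} {x y : X} (h : pr g x = pr g y) :
    comp g x = comp g y := by
  rw [comp_eq_preimage, comp_eq_preimage, h]

theorem infPart_eq {X ι : Type*} (g : ι → X → X) :
    infPart g = pr g ⁻¹' {q | (pr g ⁻¹' {q}).Infinite} := by
  ext x
  simp only [infPart, Set.mem_ofPred_eq, Set.mem_preimage, comp_eq_preimage]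

theorem mk_inter_of_le {X : Type*} {A B : Set X} (h : PFin.mk A ≤ PFin.mk B) :
    PFin.mk (A ∩ B) = PFin.mk A := by
  rw [PFin.mk_eq]
  refine (PFin.mk_le.1 h).subset ?_
  intro x hx
  simp only [Set.mem_symmDiff, Set.mem_inter_iff, Set.mem_sdiff] at hx ⊢
  tauto

theorem mk_finite_iff {X : Type*} {A : Set X} : PFin.mk A = PFin.mk ∅ ↔ A.Finite := by
  rw [PFin.mk_eq]
  have : symmDiff A ∅ = A := by
    ext x; simp [Set.mem_symmDiff]
  rw [this]

/-- Below the class of a component there are only countably many fixed elements. -/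
theorem countable_fixed {X ι : Type*} [Finite ι] (g : ι → X → X) (x : X)
    (hx : (comp g x).Countable) (z : PFin X) (hz : z ≤ PFin.mk (comp g x)) :
    {w : PFin X | w ≤ z ∧ Fixed g w}.Countable := by
  have h1 := countable_of_base g (comp g x) {x} hx
    (by
      intro i y hy
      rw [mem_comp, pr_step] at hy
      rw [mem_comp]
      exact hy)
    (by
      intro y hy
      exact ⟨x, rfl, hy⟩) (Set.finite_singleton x)
  refine (h1.image PFin.mk).mono ?_
  rintro w ⟨hw, A, rfl, hA⟩
  refine ⟨A ∩ comp g x, ⟨Set.inter_subset_right, ?_⟩, mk_inter_of_le (hw.trans hz)⟩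
  intro i
  refine ((hA i).union ?_).subset (bd_inter (g i) A (comp g x))
  rw [comp_eq_preimage, bd_preimage_pr]
  exact Set.finite_empty

/-- If a set with finite boundaries meets infinitely many components, then there are uncountably
many fixed elements below its class. -/
theorem not_countable_of_infinite_classes {X ι : Type*} [Finite ι] (g : ι → X → X) (Z : Set X)
    (hZ : ∀ i, (bd (g i) Z).Finite) (hinf : (pr g '' Z).Infinite) :
    ¬ {w : PFin X | w ≤ PFin.mk Z ∧ Fixed g w}.Countable := by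
  intro hc
  refine uncountable_unions (pr g) _ (exists_classes g Z hZ hinf) ?_ (hc.mono ?_)
  · rintro q ⟨⟨y, _, hy⟩, _⟩
    exact ⟨y, hy⟩
  · rintro w ⟨V, hV, rfl⟩
    refine ⟨?_, _, rfl, ?_⟩
    · rw [PFin.mk_le]
      have : pr g ⁻¹' V ⊆ Z := by
        intro x hx
        exact (hV hx).2 x rfl
      rw [Set.sdiff_eq_empty.2 this]
      exact Set.finite_empty
    · intro i
      rw [bd_preimage_pr]
      exact Set.finite_empty

/-- An infinite set that meets every component in a finite set meets infinitely many. -/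
theorem infinite_classes {X ι : Type*} (g : ι → X → X) (Z : Set X) (hinf : Z.Infinite)
    (h : ∀ x ∈ Z, (Z ∩ comp g x).Finite) : (pr g '' Z).Infinite := by
  intro hfin
  refine hinf ?_
  refine (hfin.biUnion (t := fun q => Z ∩ pr g ⁻¹' {q}) ?_).subset ?_
  · rintro q ⟨x, hx, rfl⟩
    rw [← comp_eq_preimage]
    exact h x hx
  · intro x hx
    exact Set.mem_biUnion (x := pr g x) ⟨x, hx, rfl⟩ ⟨hx, rfl⟩

/-- An infinite set with finite boundaries inside the union of the infinite components meets some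
component in an infinite set. -/
theorem exists_infinite_inter {X ι : Type*} [Finite ι] (g : ι → X → X) (Z : Set X)
    (hZ : ∀ i, (bd (g i) Z).Finite) (hinf : Z.Infinite) (hsub : Z ⊆ infPart g) :
    ∃ x, (Z ∩ comp g x).Infinite := by
  by_contra hne
  push Not at hne
  have h1 := infinite_classes g Z hinf fun x _ => hne x
  obtain ⟨q, ⟨x, hx, rfl⟩, hq⟩ := (exists_classes g Z hZ h1).nonempty
  have h2 : comp g x ⊆ Z := by
    intro y hy
    exact hq y (mem_comp.1 hy).symm
  have h3 : (comp g x).Infinite := hsub hx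
  exact h3 ((hne x).subset fun y hy => ⟨h2 hy, hy⟩)

/-! ### Two systems that correspond under an isomorphism -/

section

variable {X X' ι : Type*} {g : ι → X → X} {g' : ι → X' → X'}

theorem transfer_aux (Φ : PFin X ≃o PFin X')
    (h : ∀ i A B, Φ (PFin.mk A) = PFin.mk B → Φ (PFin.mk (g i ⁻¹' A)) = PFin.mk (g' i ⁻¹' B))
    {A : Set X} {B : Set X'} (hAB : Φ (PFin.mk A) = PFin.mk B) :
    (∀ i, (bd (g i) A).Finite) ↔ ∀ i, (bd (g' i) B).Finite := by
  refine forall_congr' fun i => ?_
  rw [bd_eq, bd_eq, ← PFin.mk_eq, ← PFin.mk_eq, ← h i A B hAB, ← hAB]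
  exact Φ.injective.eq_iff.symm

theorem fixed_iff (Φ : PFin X ≃o PFin X')
    (h : ∀ i A B, Φ (PFin.mk A) = PFin.mk B → Φ (PFin.mk (g i ⁻¹' A)) = PFin.mk (g' i ⁻¹' B))
    (z : PFin X) : Fixed g z ↔ Fixed g' (Φ z) := by
  constructor
  · rintro ⟨A, rfl, hA⟩
    obtain ⟨B, hB⟩ := PFin.exists_rep (Φ (PFin.mk A))
    exact ⟨B, hB, (transfer_aux Φ h hB.symm).1 hA⟩
  · rintro ⟨B, hB, hbd⟩
    obtain ⟨A, rfl⟩ := PFin.exists_rep z
    exact ⟨A, rfl, (transfer_aux Φ h hB.symm).2 hbd⟩

theorem countable_transfer (Φ : PFin X ≃o PFin X')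
    (h : ∀ i A B, Φ (PFin.mk A) = PFin.mk B → Φ (PFin.mk (g i ⁻¹' A)) = PFin.mk (g' i ⁻¹' B))
    (z : PFin X) : {w : PFin X | w ≤ z ∧ Fixed g w}.Countable ↔
      {w : PFin X' | w ≤ Φ z ∧ Fixed g' w}.Countable := by
  have : {w : PFin X' | w ≤ Φ z ∧ Fixed g' w} = Φ '' {w : PFin X | w ≤ z ∧ Fixed g w} := by
    ext w
    constructor
    · rintro ⟨hw, hf⟩
      refine ⟨Φ.symm w, ⟨?_, ?_⟩, Φ.apply_symm_apply w⟩
      · rw [← Φ.le_iff_le, Φ.apply_symm_apply]
        exact hw
      · rw [fixed_iff Φ h, Φ.apply_symm_apply]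
        exact hf
    · rintro ⟨w, ⟨hw, hf⟩, rfl⟩
      exact ⟨Φ.le_iff_le.2 hw, (fixed_iff Φ h w).1 hf⟩
  rw [this]
  exact ⟨fun h => h.image _, fun h => Set.countable_of_injective_of_countable_image
    Φ.injective.injOn h⟩

theorem symm_hyp (Φ : PFin X ≃o PFin X')
    (h : ∀ i A B, Φ (PFin.mk A) = PFin.mk B → Φ (PFin.mk (g i ⁻¹' A)) = PFin.mk (g' i ⁻¹' B)) :
    ∀ i A B, Φ.symm (PFin.mk A) = PFin.mk B →
      Φ.symm (PFin.mk (g' i ⁻¹' A)) = PFin.mk (g i ⁻¹' B) := by
  intro i A B hAB
  rw [OrderIso.symm_apply_eq] at hAB ⊢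
  exact (h i B A hAB.symm).symm

theorem fibre_finite (Φ : PFin X ≃o PFin X')
    (h : ∀ i A B, Φ (PFin.mk A) = PFin.mk B → Φ (PFin.mk (g i ⁻¹' A)) = PFin.mk (g' i ⁻¹' B))
    (i : ι) (x : X) : (g i ⁻¹' {x}).Finite := by
  obtain ⟨B, hB⟩ := PFin.exists_rep (Φ (PFin.mk ∅))
  have h1 := h i ∅ B hB.symm
  have h2 := h i {x} B (by
    rw [hB]
    congr 1
    exact mk_finite_iff.2 (Set.finite_singleton x))
  rw [← h1, Φ.injective.eq_iff, Set.preimage_empty] at h2
  exact mk_finite_iff.1 h2

/-- One half of the correspondence of the unions of the infinite components. -/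
theorem infPart_le [Finite ι] (Φ : PFin X ≃o PFin X')
    (h : ∀ i A B, Φ (PFin.mk A) = PFin.mk B → Φ (PFin.mk (g i ⁻¹' A)) = PFin.mk (g' i ⁻¹' B)) :
    Φ (PFin.mk (infPart g)) ≤ PFin.mk (infPart g') := by
  obtain ⟨B, hB⟩ := PFin.exists_rep (Φ (PFin.mk (infPart g)))
  rw [← hB, PFin.mk_le]
  by_contra hinf
  have hinfbd : ∀ i, (bd (g i) (infPart g)).Finite := by
    intro i
    rw [infPart_eq, bd_preimage_pr]
    exact Set.finite_empty
  have hBbd := (transfer_aux Φ h hB.symm).1 hinfbd
  have hZ'bd : ∀ i, (bd (g' i) (B \ infPart g')).Finite := by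
    intro i
    refine ((hBbd i).union ?_).subset (bd_inter (g' i) B (infPart g')ᶜ)
    rw [bd_compl, infPart_eq, bd_preimage_pr]
    exact Set.finite_empty
  obtain ⟨Z0, hZ0⟩ := PFin.exists_rep (Φ.symm (PFin.mk (B \ infPart g')))
  have hle : PFin.mk Z0 ≤ PFin.mk (infPart g) := by
    rw [hZ0, ← Φ.le_iff_le, Φ.apply_symm_apply, ← hB, PFin.mk_le]
    have : (B \ infPart g') \ B = ∅ := by
      ext x; simp only [Set.mem_sdiff, Set.mem_empty_iff_false]; tauto
    rw [this]
    exact Set.finite_empty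
  have hZ : PFin.mk (Z0 ∩ infPart g) = Φ.symm (PFin.mk (B \ infPart g')) := by
    rw [mk_inter_of_le hle, hZ0]
  have hZΦ : Φ (PFin.mk (Z0 ∩ infPart g)) = PFin.mk (B \ infPart g') := by
    rw [hZ, Φ.apply_symm_apply]
  have hZbd := (transfer_aux Φ h hZΦ).2 hZ'bd
  have hZinf : (Z0 ∩ infPart g).Infinite := by
    intro hfin
    have h1 := mk_finite_iff.2 hfin
    have h2 : Φ (PFin.mk (∅ : Set X)) ≤ Φ (Φ.symm (PFin.mk ∅)) := by
      rw [Φ.le_iff_le]
      obtain ⟨E, hE⟩ := PFin.exists_rep (Φ.symm (PFin.mk (∅ : Set X')))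
      rw [← hE, PFin.mk_le]
      simp
    rw [Φ.apply_symm_apply, ← h1, hZΦ, PFin.mk_le] at h2
    refine hinf (h2.subset ?_)
    intro x hx
    exact ⟨hx, fun h => h⟩
  obtain ⟨x, hx⟩ := exists_infinite_inter g _ hZbd hZinf Set.inter_subset_right
  have hWbd : ∀ i, (bd (g i) ((Z0 ∩ infPart g) ∩ comp g x)).Finite := by
    intro i
    refine ((hZbd i).union ?_).subset (bd_inter (g i) _ (comp g x))
    rw [comp_eq_preimage, bd_preimage_pr]
    exact Set.finite_empty
  have hc := countable_fixed g x (comp_countable g (fun i y => (fibre_finite Φ h i y).countable) x)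
    (PFin.mk ((Z0 ∩ infPart g) ∩ comp g x)) (by
      rw [PFin.mk_le]
      have : ((Z0 ∩ infPart g) ∩ comp g x) \ comp g x = ∅ := by
        ext y; simp only [Set.mem_sdiff, Set.mem_inter_iff, Set.mem_empty_iff_false]; tauto
      rw [this]
      exact Set.finite_empty)
  rw [countable_transfer Φ h] at hc
  obtain ⟨W0, hW0⟩ := PFin.exists_rep (Φ (PFin.mk ((Z0 ∩ infPart g) ∩ comp g x)))
  have hWle : PFin.mk W0 ≤ PFin.mk (B \ infPart g') := by
    rw [hW0, ← hZΦ, Φ.le_iff_le, PFin.mk_le]
    have : ((Z0 ∩ infPart g) ∩ comp g x) \ (Z0 ∩ infPart g) = ∅ := by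
      ext y; simp only [Set.mem_sdiff, Set.mem_inter_iff, Set.mem_empty_iff_false]; tauto
    rw [this]
    exact Set.finite_empty
  have hW1 : PFin.mk (W0 ∩ (B \ infPart g')) = Φ (PFin.mk ((Z0 ∩ infPart g) ∩ comp g x)) := by
    rw [mk_inter_of_le hWle, hW0]
  have hW1bd := (transfer_aux Φ h hW1.symm).1 hWbd
  have hW1inf : (W0 ∩ (B \ infPart g')).Infinite := by
    intro hfin
    have h1 := mk_finite_iff.2 hfin
    rw [hW1] at h1
    have h2 : Φ (PFin.mk ((Z0 ∩ infPart g) ∩ comp g x)) ≤ Φ (PFin.mk (∅ : Set X)) := by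
      rw [h1]
      obtain ⟨E, hE⟩ := PFin.exists_rep (Φ (PFin.mk (∅ : Set X)))
      rw [← hE, PFin.mk_le]
      simp
    rw [Φ.le_iff_le, PFin.mk_le] at h2
    refine hx (h2.subset ?_)
    intro y hy
    exact ⟨hy, fun h => h⟩
  rw [← hW1] at hc
  refine not_countable_of_infinite_classes g' _ hW1bd (infinite_classes g' _ hW1inf ?_) hc
  rintro y ⟨_, _, hy⟩
  have : (comp g' y).Finite := by
    by_contra hne
    exact hy hne
  exact this.subset Set.inter_subset_right

/-- The unions of the infinite components correspond. -/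
theorem infPart_eq_of_corr [Finite ι] (Φ : PFin X ≃o PFin X')
    (h : ∀ i A B, Φ (PFin.mk A) = PFin.mk B → Φ (PFin.mk (g i ⁻¹' A)) = PFin.mk (g' i ⁻¹' B)) :
    Φ (PFin.mk (infPart g)) = PFin.mk (infPart g') := by
  refine le_antisymm (infPart_le Φ h) ?_
  have := infPart_le Φ.symm (symm_hyp Φ h)
  rw [OrderIso.symm_apply_le] at this
  exact this

/-- If `X` is countable, then only countably many points of `X'` are in infinite components. -/
theorem infPart_countable [Finite ι] [Countable X] (Φ : PFin X ≃o PFin X')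
    (h : ∀ i A B, Φ (PFin.mk A) = PFin.mk B → Φ (PFin.mk (g i ⁻¹' A)) = PFin.mk (g' i ⁻¹' B)) :
    (infPart g').Countable := by
  have hcc : ∀ x, (comp g' x).Countable := fun x =>
    comp_countable g' (fun i y => (fibre_finite Φ.symm (symm_hyp Φ h) i y).countable) x
  have h1 : {C : Set X' | C.Infinite ∧ ∃ x, C = comp g' x}.Countable := by
    refine Set.MapsTo.countable_of_injOn (f := fun C => Φ.symm (PFin.mk C))
      (t := PFin.mk '' {Y : Set X | (∀ i, (bd (g i) Y).Finite) ∧ (pr g '' Y).Finite}) ?_ ?_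
      ((countable_few g).image _)
    · rintro C ⟨hinf, x, rfl⟩
      obtain ⟨Y, hY⟩ := PFin.exists_rep (Φ.symm (PFin.mk (comp g' x)))
      have hYΦ : Φ (PFin.mk Y) = PFin.mk (comp g' x) := by rw [hY, Φ.apply_symm_apply]
      have hYbd : ∀ i, (bd (g i) Y).Finite := by
        refine (transfer_aux Φ h hYΦ).2 ?_
        intro i
        rw [comp_eq_preimage, bd_preimage_pr]
        exact Set.finite_empty
      refine ⟨Y, ⟨hYbd, ?_⟩, hY⟩
      by_contra hne
      refine not_countable_of_infinite_classes g Y hYbd hne ?_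
      rw [countable_transfer Φ h, hYΦ]
      exact countable_fixed g' x (hcc x) _ le_rfl
    · rintro C ⟨hinf, x, rfl⟩ C' ⟨hinf', x', rfl⟩ heq
      have h2 := PFin.mk_eq.1 (Φ.symm.injective heq)
      by_contra hne
      refine hinf (h2.subset ?_)
      intro y hy
      refine Or.inl ⟨hy, fun hy' => hne ?_⟩
      exact comp_congr ((mem_comp.1 hy).trans (mem_comp.1 hy').symm)
  refine (h1.biUnion (t := fun C _ => C) ?_).mono ?_
  · rintro C ⟨_, x, rfl⟩
    exact hcc x
  · intro x hx
    exact Set.mem_biUnion (x := comp g' x) ⟨hx, x, rfl⟩ (mem_comp.2 rfl)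

end

end Pool.Agent.Work.MP_16b18c_lc
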