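import Pool.Agent.Work.MP_16b18c_lc.ColDefs

/-!
Basic facts on subsets of `ω × κ` modulo finite sets, described by their columns.
-/

namespace Pool.Agent.Work.MP_16b18c_lc

open Set Filter

theorem colSet_sdiff_finite {κ : Type*} {x y : ℕ → Set κ} :
    (colSet x \ colSet y).Finite ↔ (∀ n, (x n \ y n).Finite) ∧ ∀ᶠ n in atTop, x n ⊆ y n := by
  constructor
  · intro h
    refine ⟨fun n => ?_, ?_⟩
    · have h' := h.preimage (f := fun k : κ => (n, k))
        (by intro a _ b _ hab; simpa using hab)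
      exact h'
    · obtain ⟨N, hN⟩ := (h.image Prod.fst).bddAbove
      filter_upwards [eventually_gt_atTop N] with n hn k hk
      by_contra hk'
      exact absurd (hN ⟨(n, k), ⟨hk, hk'⟩, rfl⟩) (not_le.2 hn)
  · rintro ⟨h1, h2⟩
    obtain ⟨N, hN⟩ := eventually_atTop.1 h2
    refine ((finite_lt_nat N).biUnion (t := fun n => (fun k => (n, k)) '' (x n \ y n))
      (fun n _ => (h1 n).image _)).subset ?_
    rintro ⟨n, k⟩ ⟨hk, hk'⟩
    have hn : n < N := by
      by_contra hn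
      exact hk' (hN n (not_lt.1 hn) hk)
    exact mem_biUnion hn ⟨k, ⟨hk, hk'⟩, rfl⟩

theorem mk_colSet_le {κ : Type*} {x y : ℕ → Set κ} :
    PFin.mk (colSet x) ≤ PFin.mk (colSet y) ↔
      (∀ n, (x n \ y n).Finite) ∧ ∀ᶠ n in atTop, x n ⊆ y n :=
  PFin.mk_le.trans colSet_sdiff_finite

/-- A relation between two partial orders that is total on both sides and respects the orders
contains the graph of an isomorphism. -/
theorem orderIso_of_rel {P Q : Type*} [PartialOrder P] [PartialOrder Q] (ρ : P → Q → Prop)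
    (h1 : ∀ p, ∃ q, ρ p q) (h2 : ∀ q, ∃ p, ρ p q)
    (h : ∀ p q p' q', ρ p q → ρ p' q' → (p ≤ p' ↔ q ≤ q')) :
    ∃ e : P ≃o Q, ∀ p, ρ p (e p) := by
  choose f hf using h1
  choose g hg using h2
  refine ⟨{ toFun := f, invFun := g, left_inv := fun p => ?_, right_inv := fun q => ?_,
            map_rel_iff' := fun {a b} => ?_ }, hf⟩
  · exact le_antisymm ((h _ _ _ _ (hg _) (hf _)).2 le_rfl) ((h _ _ _ _ (hf _) (hg _)).2 le_rfl)
  · exact le_antisymm ((h _ _ _ _ (hf _) (hg _)).1 le_rfl) ((h _ _ _ _ (hg _) (hf _)).1 le_rfl)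
  · exact (h _ _ _ _ (hf a) (hf b)).symm

/-- Every class has a representative given by columns. -/
theorem exists_colSet {κ : Type*} (a : PFin (ℕ × κ)) :
    ∃ x : ℕ → Set κ, PFin.mk (colSet x) = a := by
  obtain ⟨A, rfl⟩ := a.exists_rep
  exact ⟨fun n => {k | (n, k) ∈ A}, rfl⟩

/-- Membership in `Cols 𝓑` does not depend on the representative. -/
theorem mk_colSet_mem_Cols {κ : Type*} {𝓑 : Set (Set κ)} {x : ℕ → Set κ} :
    PFin.mk (colSet x) ∈ Cols 𝓑 ↔ ∀ n, ∃ B ∈ 𝓑, (symmDiff (x n) B).Finite := by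
  constructor
  · rintro ⟨y, hy, hyx⟩ n
    obtain ⟨B, hB, hyB⟩ := hy n
    refine ⟨B, hB, ?_⟩
    have h1 := (mk_colSet_le.1 hyx.le).1 n
    have h2 := (mk_colSet_le.1 hyx.ge).1 n
    have h3 : (symmDiff (x n) (y n)).Finite := by
      rw [symmDiff_def]
      exact h2.union h1
    exact (h3.union hyB).subset (symmDiff_triangle _ _ _)
  · intro h
    exact ⟨x, h, rfl⟩

end Pool.Agent.Work.MP_16b18c_lc
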