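import Pool.Agent.Work.MP_16b18c_lc.ColState

/-!
Chains of sequences of states along a well-order with countable initial segments.
-/

namespace Pool.Agent.Work.MP_16b18c_lc

open Set Filter

variable {κ lam I : Type*}

/-- An increasing sequence for an order given by eventual domination has an upper bound. -/
theorem exists_bound_seq {T : Type*} {le : T → T → Prop} (hrefl : ∀ a, le a a)
    (htrans : ∀ a b c, le a b → le b c → le a c) (p : T → Prop) (m : ℕ → ℕ → T)
    (hp : ∀ j n, p (m j n)) (hm : ∀ j, ∀ᶠ n in atTop, le (m j n) (m (j + 1) n)) :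
    ∃ Q : ℕ → T, (∀ n, p (Q n)) ∧ ∀ j, ∀ᶠ n in atTop, le (m j n) (Q n) := by
  classical
  choose N hN using fun j => eventually_atTop.1 (hm j)
  let J : ℕ → ℕ := fun n => Nat.findGreatest (fun j => ∀ i < j, N i ≤ n) n
  refine ⟨fun n => m (J n) n, fun n => hp _ _, fun j => ?_⟩
  have h1 : ∀ᶠ n in atTop, ∀ i < j, N i ≤ n := by
    have h2 : ∀ i ∈ Finset.range j, ∀ᶠ n in atTop, N i ≤ n := fun i _ => eventually_ge_atTop _
    filter_upwards [(Filter.eventually_all_finset _).2 h2] with n hn i hi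
    exact hn i (Finset.mem_range.2 hi)
  filter_upwards [h1, eventually_ge_atTop j] with n hn hjn
  have h3 : j ≤ J n := Nat.le_findGreatest hjn hn
  have h4 : ∀ i < J n, N i ≤ n :=
    Nat.findGreatest_spec (P := fun j => ∀ i < j, N i ≤ n) (Nat.zero_le n)
      (fun i hi => absurd hi (Nat.not_lt_zero i))
  have h5 : ∀ l, j ≤ l → l ≤ J n → le (m j n) (m l n) := by
    intro l hl
    induction l, hl using Nat.le_induction with
    | base => intro _; exact hrefl _
    | succ l hl ih =>
      intro hlJ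
      exact htrans _ _ _ (ih (Nat.le_of_succ_le hlJ)) (hN l n (h4 l hlJ))
  exact h5 _ h3 le_rfl

/-- The base state. -/
theorem St.ok_empty [Infinite κ] [Infinite lam] (B : I → Set κ) (A : I → Set lam) :
    (⟨∅, ∅⟩ : St κ lam I).Ok B A := by
  refine ⟨finite_empty, fun k m k' m' h => absurd h (notMem_empty _), fun v hv => ?_,
    fun v hv => ?_⟩
  · refine absurd hv ?_
    have : atom B ∅ v = univ := by
      ext k
      simp [atom]
    change ¬ (atom B ∅ v).Finite
    rw [this]
    exact infinite_univ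
  · refine absurd hv ?_
    have : atom A ∅ v = univ := by
      ext k
      simp [atom]
    change ¬ (atom A ∅ v).Finite
    rw [this]
    exact infinite_univ

/-- A chain of sequences of states meeting prescribed demands. -/
theorem exists_chain [Infinite κ] [Infinite lam] {W : Type*} [LinearOrder W] [WellFoundedLT W]
    (hW : ∀ c : W, (Iio c).Countable) {B : I → Set κ} {A : I → Set lam} (h : SimOn univ B A)
    (K : W → ℕ → Set κ) (hK : ∀ c n, (K c n).Finite) (L : W → ℕ → Set lam)
    (hL : ∀ c n, (L c n).Finite) (t : W → ℕ → Set I) (ht : ∀ c n, (t c n).Finite) :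
    ∃ φ : W → ℕ → St κ lam I, (∀ c n, (φ c n).Ok B A) ∧
      (∀ i c, i < c → ∀ᶠ n in atTop, (φ i n).Le B A (φ c n)) ∧
      ∀ c n, K c n ⊆ dm (φ c n).R ∧ L c n ⊆ rn (φ c n).R ∧ t c n ⊆ ↑(φ c n).s := by
  classical
  let S := {Q : ℕ → St κ lam I // ∀ n, (Q n).Ok B A}
  have : Nonempty S := ⟨⟨fun _ => ⟨∅, ∅⟩, fun _ => St.ok_empty B A⟩⟩
  let Q : W → (W → S) → S → Prop := fun c f q =>
    (∀ i, i < c → ∀ᶠ n in atTop, ((f i).1 n).Le B A (q.1 n)) ∧
      ∀ n, K c n ⊆ dm (q.1 n).R ∧ L c n ⊆ rn (q.1 n).R ∧ t c n ⊆ ↑(q.1 n).s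
  have h1 : ∀ c f g, (∀ i, i < c → f i = g i) → ∀ q, Q c f q → Q c g q := by
    intro c f g hfg q hq
    exact ⟨fun i hi => hfg i hi ▸ hq.1 i hi, hq.2⟩
  have hdem : ∀ (c : W) (q : S), ∃ q' : S, (∀ n, (q.1 n).Le B A (q'.1 n)) ∧
      ∀ n, K c n ⊆ dm (q'.1 n).R ∧ L c n ⊆ rn (q'.1 n).R ∧ t c n ⊆ ↑(q'.1 n).s := by
    intro c q
    choose q' h1 h2 h3 h4 h5 using fun n => St.exists_ext h (q.2 n) (hK c n) (hL c n) (ht c n)
    exact ⟨⟨q', h1⟩, h2, fun n => ⟨h3 n, h4 n, h5 n⟩⟩
  have h2 : ∀ c (f : W → S), (∀ i, i < c → Q i f (f i)) → ∃ q, Q c f q := by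
    intro c f hf
    obtain ⟨q0, hq0⟩ : ∃ q : S, ∀ i, i < c → ∀ᶠ n in atTop, ((f i).1 n).Le B A (q.1 n) := by
      rcases (Iio c).eq_empty_or_nonempty with he | hne
      · refine ⟨Classical.arbitrary S, fun i hi => ?_⟩
        have : i ∈ Iio c := hi
        rw [he] at this
        exact absurd this (notMem_empty i)
      · obtain ⟨g, hg⟩ := (hW c).exists_eq_range hne
        have hgc : ∀ j, g j < c := fun j => by
          have : g j ∈ Iio c := hg ▸ mem_range_self j
          exact this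
        let r : S → S → Prop := fun a b => ∀ᶠ n in atTop, (a.1 n).Le B A (b.1 n)
        have hr : ∀ i j, i < c → j < c → i ≤ j → r (f i) (f j) := by
          intro i j hi hj hij
          rcases hij.eq_or_lt with rfl | hlt
          · exact Eventually.of_forall fun n => St.Le.refl B A _
          · exact (hf j hj).1 i hlt
        have hdir : Directed r (fun j => f (g j)) := by
          intro a b
          rcases le_total (g a) (g b) with hab | hab
          · exact ⟨b, hr _ _ (hgc a) (hgc b) hab, hr _ _ (hgc b) (hgc b) le_rfl⟩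
          · exact ⟨a, hr _ _ (hgc a) (hgc a) le_rfl, hr _ _ (hgc b) (hgc a) hab⟩
        obtain ⟨Q0, hQ0, hQ1⟩ := exists_bound_seq (T := St κ lam I) (le := fun a b => a.Le B A b)
          (fun a => St.Le.refl B A a) (fun a b c h h' => h.trans h') (fun a => a.Ok B A)
          (fun j => (f (g (hdir.sequence _ j))).1) (fun j n => (f (g (hdir.sequence _ j))).2 n)
          (fun j => hdir.sequence_mono_nat j)
        refine ⟨⟨Q0, hQ0⟩, fun i hi => ?_⟩
        have hi' : i ∈ range g := hg ▸ hi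
        obtain ⟨j, rfl⟩ := hi'
        filter_upwards [hdir.rel_sequence j, hQ1 (Encodable.encode j + 1)] with n h1 h2
        exact h1.trans h2
    obtain ⟨q1, h3, h4⟩ := hdem c q0
    refine ⟨q1, fun i hi => ?_, h4⟩
    filter_upwards [hq0 i hi] with n hn
    exact hn.trans (h3 n)
  obtain ⟨φ, hφ⟩ := exists_rec Q h1 h2
  exact ⟨fun c => (φ c).1, fun c n => (φ c).2 n, fun i c hi => (hφ c).1 i hi,
    fun c n => (hφ c).2 n⟩

end Pool.Agent.Work.MP_16b18c_lc
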