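import Pool.Agent.Work.MP_16b18c_lc.Basic

/-!
The parts of `P(ω × κ)/Fin` cut out by conditions on the columns.
-/

namespace Pool.Agent.Work.MP_16b18c_lc

/-- The subset of `ω × κ` whose `n`th column is `x n`. -/
def colSet {κ : Type*} (x : ℕ → Set κ) : Set (ℕ × κ) := {p | p.2 ∈ x p.1}

/-- The classes in `P(ω × κ)/Fin` of the sets all of whose columns are equal to members of `𝓑`
up to finitely many points. -/
def Cols {κ : Type*} (𝓑 : Set (Set κ)) : Set (PFin (ℕ × κ)) :=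
  {a | ∃ x : ℕ → Set κ, (∀ n, ∃ B ∈ 𝓑, (symmDiff (x n) B).Finite) ∧ PFin.mk (colSet x) = a}

/-- An algebra of subsets of `κ`. -/
def IsAlg {κ : Type*} (𝓑 : Set (Set κ)) : Prop :=
  ∅ ∈ 𝓑 ∧ (∀ B ∈ 𝓑, Bᶜ ∈ 𝓑) ∧ ∀ B ∈ 𝓑, ∀ C ∈ 𝓑, B ∪ C ∈ 𝓑

end Pool.Agent.Work.MP_16b18c_lc
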