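import Pool.Agent.Work.MP_16b18c_lc.ColAlg

/-!
An isomorphism between the finite-column parts of `P(ω × ω)/Fin` and `P(ω × κ)/Fin`, `κ`
uncountable, gives a dominating family of size `ℵ₁` and `|κ| = ℵ₁`.
-/

namespace Pool.Agent.Work.MP_16b18c_lc

open Set Filter Cardinal

variable {κ : Type*}

theorem mk_mem_fin {x : ℕ → Set κ} :
    PFin.mk (colSet x) ∈ Cols ({∅} : Set (Set κ)) ↔ ∀ n, (x n).Finite := by
  rw [mk_colSet_mem_Cols]
  refine forall_congr' fun n => ?_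
  simp only [mem_singleton_iff, exists_eq_left]
  rw [show symmDiff (x n) (∅ : Set κ) = x n from symmDiff_bot _]

/-- The element of the finite-column part given by a sequence of finite sets. -/
def fc (x : ℕ → Set κ) (hx : ∀ n, (x n).Finite) : Cols ({∅} : Set (Set κ)) :=
  ⟨PFin.mk (colSet x), mk_mem_fin.2 hx⟩

theorem exists_fc (a : Cols ({∅} : Set (Set κ))) : ∃ x hx, fc x hx = a := by
  obtain ⟨x, hx⟩ := exists_colSet a.1
  have h : ∀ n, (x n).Finite := mk_mem_fin.1 (hx ▸ a.2)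
  exact ⟨x, h, Subtype.ext hx⟩

theorem fc_le {x y : ℕ → Set κ} {hx : ∀ n, (x n).Finite} {hy : ∀ n, (y n).Finite} :
    fc x hx ≤ fc y hy ↔ ∀ᶠ n in atTop, x n ⊆ y n := by
  have h : fc x hx ≤ fc y hy ↔ PFin.mk (colSet x) ≤ PFin.mk (colSet y) := Iff.rfl
  rw [h, mk_colSet_le]
  exact ⟨fun h => h.2, fun h => ⟨fun n => (hx n).subset sdiff_subset, h⟩⟩

/-- Disjointness in a partial order. -/
def Disj {P : Type*} [PartialOrder P] (a b : P) : Prop := ∀ c, c ≤ a → c ≤ b → ∀ d, c ≤ d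

theorem Disj.map {P Q : Type*} [PartialOrder P] [PartialOrder Q] (e : P ≃o Q) {a b : P}
    (h : Disj a b) : Disj (e a) (e b) := by
  intro c hc hc' d
  have := h (e.symm c) (e.symm_apply_le.2 hc) (e.symm_apply_le.2 hc') (e.symm d)
  simpa using this

theorem fc_disj {x y : ℕ → Set κ} {hx : ∀ n, (x n).Finite} {hy : ∀ n, (y n).Finite} :
    Disj (fc x hx) (fc y hy) ↔ ∀ᶠ n in atTop, x n ∩ y n = ∅ := by
  constructor
  · intro h
    have h1 := h (fc (fun n => x n ∩ y n) fun n => (hx n).subset inter_subset_left)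
      (fc_le.2 (Eventually.of_forall fun n => inter_subset_left))
      (fc_le.2 (Eventually.of_forall fun n => inter_subset_right))
      (fc (fun _ => ∅) fun _ => finite_empty)
    filter_upwards [fc_le.1 h1] with n hn
    exact subset_empty_iff.1 hn
  · intro h c hc hc' d
    obtain ⟨z, hz, rfl⟩ := exists_fc c
    obtain ⟨w, hw, rfl⟩ := exists_fc d
    refine fc_le.2 ?_
    filter_upwards [h, fc_le.1 hc, fc_le.1 hc'] with n h1 h2 h3
    have h4 : z n ⊆ ∅ := h1 ▸ subset_inter h2 h3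
    exact h4.trans (empty_subset _)

theorem dom_of_iso {κ : Type} [Uncountable κ]
    (e : Cols ({∅} : Set (Set ℕ)) ≃o Cols ({∅} : Set (Set κ))) :
    Cardinal.mk κ = ℵ₁ ∧ ∃ F : Set (ℕ → ℕ), Cardinal.mk F ≤ ℵ₁ ∧ ∀ g : ℕ → ℕ, ∃ f ∈ F, ∀ᶠ n in atTop, g n ≤ f n := by
  classical
  let L : (ℕ → ℕ) → Cols ({∅} : Set (Set ℕ)) := fun f => fc (fun n => Iio (f n))
    fun n => finite_Iio _
  let c : κ → Cols ({∅} : Set (Set κ)) := fun t => fc (fun _ => {t}) fun _ => finite_singleton t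
  choose y hy hyL using fun f => exists_fc (e (L f))
  choose z hz hzc using fun t => exists_fc (e.symm (c t))
  let S : (ℕ → ℕ) → Set κ := fun f => ⋃ n, y f n
  have hS : ∀ f, (S f).Countable := fun f => countable_iUnion fun n => (hy f n).countable
  -- the members `z t` are not zero
  have hz0 : ∀ t, ∃ᶠ n in atTop, (z t n).Nonempty := by
    intro t hno
    have h1 : e.symm (c t) ≤ e.symm (fc (fun _ => ∅) fun _ => finite_empty) := by
      obtain ⟨w, hw, hw'⟩ := exists_fc (e.symm (fc (fun _ => (∅ : Set κ)) fun _ => finite_empty))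
      rw [← hw', ← hzc t, fc_le]
      filter_upwards [hno] with n hn
      rw [not_nonempty_iff_eq_empty.1 hn]
      exact empty_subset _
    have h2 := fc_le.1 (e.symm.le_iff_le.1 h1)
    obtain ⟨n, hn⟩ := h2.exists
    exact (hn rfl : t ∈ (∅ : Set κ))
  have hdisj : ∀ f t, t ∉ S f → ∀ᶠ n in atTop, z t n ∩ Iio (f n) = ∅ := by
    intro f t ht
    have h1 : Disj (c t) (e (L f)) := by
      rw [← hyL f]
      refine fc_disj.2 (Eventually.of_forall fun n => ?_)
      rw [singleton_inter_eq_empty]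
      exact fun hn => ht (mem_iUnion.2 ⟨n, hn⟩)
    have h2 := h1.map e.symm
    rw [← hzc t, e.symm_apply_apply] at h2
    exact fc_disj.1 h2
  have hnext : ∀ t k, ∃ n, k ≤ n ∧ (z t n).Nonempty := by
    intro t k
    obtain ⟨n, hn, hn'⟩ := (frequently_atTop.1 (hz0 t)) k
    exact ⟨n, hn, hn'⟩
  choose nx hnx hnx' using hnext
  let G : κ → ℕ → ℕ := fun t k => sInf (z t (nx t k))
  have hG : ∀ f t, t ∉ S (fun n => (Finset.range (n + 1)).sup f) →
      ∀ᶠ n in atTop, f n ≤ G t n := by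
    intro f t ht
    obtain ⟨N, hN⟩ := eventually_atTop.1 (hdisj _ t ht)
    filter_upwards [eventually_ge_atTop N] with k hk
    have h1 := hN (nx t k) (hk.trans (hnx t k))
    have h2 : sInf (z t (nx t k)) ∈ z t (nx t k) := Nat.sInf_mem (hnx' t k)
    have h3 : ¬ sInf (z t (nx t k)) < (Finset.range (nx t k + 1)).sup f := fun h3 => by
      have : sInf (z t (nx t k)) ∈ (∅ : Set ℕ) := h1 ▸ ⟨h2, h3⟩
      exact this
    refine le_trans ?_ (not_lt.1 h3)
    exact Finset.le_sup (f := f) (Finset.mem_range.2 (Nat.lt_succ_of_le (hnx t k)))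
  have hκ : ℵ₁ ≤ Cardinal.mk κ := by
    rw [← succ_aleph0, Order.succ_le_iff]
    exact aleph0_lt_mk
  obtain ⟨T, hT⟩ : ∃ T : Set κ, Cardinal.mk T = ℵ₁ := le_mk_iff_exists_set.1 hκ
  let F : Set (ℕ → ℕ) := G '' T
  have hF1 : Cardinal.mk F ≤ ℵ₁ := hT ▸ mk_image_le
  have hF2 : ∀ g : ℕ → ℕ, ∃ f ∈ F, ∀ᶠ n in atTop, g n ≤ f n := by
    intro g
    obtain ⟨t, ht, ht'⟩ : ∃ t ∈ T, t ∉ S (fun n => (Finset.range (n + 1)).sup g) := by
      by_contra hno
      push Not at hno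
      have h1 : T.Countable := (hS _).mono hno
      rw [← le_aleph0_iff_set_countable, hT] at h1
      exact absurd aleph0_lt_aleph_one (not_lt.2 h1)
    exact ⟨G t, ⟨t, ht, rfl⟩, hG g t ht'⟩
  refine ⟨le_antisymm ?_ hκ, F, hF1, hF2⟩
  have hcov : (univ : Set κ) ⊆ ⋃ f ∈ F, S f := by
    intro t _
    have h1 : ∀ n, ∃ N, z t n ⊆ Iio N := by
      intro n
      obtain ⟨N, hN⟩ := (hz t n).bddAbove
      exact ⟨N + 1, fun m hm => Nat.lt_succ_of_le (hN hm)⟩
    choose g hg using h1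
    obtain ⟨f, hf, hgf⟩ := hF2 g
    have h2 : e.symm (c t) ≤ L f := by
      rw [← hzc t]
      refine fc_le.2 ?_
      filter_upwards [hgf] with n hn
      exact (hg n).trans (Iio_subset_Iio hn)
    have h3 : c t ≤ e (L f) := e.symm_apply_le.1 h2
    rw [← hyL f] at h3
    obtain ⟨n, hn⟩ := (fc_le.1 h3).exists
    exact mem_biUnion hf (mem_iUnion.2 ⟨n, hn rfl⟩)
  calc Cardinal.mk κ = Cardinal.mk (univ : Set κ) := mk_univ.symm
    _ ≤ Cardinal.mk (⋃ f ∈ F, S f) := mk_le_mk_of_subset hcov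
    _ ≤ Cardinal.mk F * ⨆ f : F, Cardinal.mk (S f.1) := mk_biUnion_le _ _
    _ ≤ ℵ₁ * ℵ₁ := by
        refine mul_le_mul' hF1 (ciSup_le' fun f => ?_)
        exact ((le_aleph0_iff_set_countable.2 (hS f.1)).trans aleph0_lt_aleph_one.le)
    _ = ℵ₁ := mul_eq_self aleph0_lt_aleph_one.le

end Pool.Agent.Work.MP_16b18c_lc
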