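import Pool.Agent.Work.MP_16b18c_lc.ColDom

/-!
In the algebra of sets with finite or cofinite columns the finite-column part is the set of
elements with no atom below.
-/

namespace Pool.Agent.Work.MP_16b18c_lc

open Set Filter

variable {κ lam : Type*}

/-- The least element, as a predicate. -/
def IsLeastElt {P : Type*} [PartialOrder P] (c : P) : Prop := ∀ d, c ≤ d

/-- Atoms of a partial order. -/
def IsAtomElt {P : Type*} [PartialOrder P] (c : P) : Prop :=
  ¬ IsLeastElt c ∧ ∀ d, d ≤ c → IsLeastElt d ∨ c ≤ d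

theorem IsAtomElt.map {P Q : Type*} [PartialOrder P] [PartialOrder Q] (e : P ≃o Q) {c : P}
    (h : IsAtomElt c) : IsAtomElt (e c) := by
  refine ⟨fun h1 => h.1 fun d => ?_, fun d hd => ?_⟩
  · have := h1 (e d)
    simpa using this
  · rcases h.2 (e.symm d) (e.symm_apply_le.2 hd) with h1 | h1
    · refine Or.inl fun d' => ?_
      have := h1 (e.symm d')
      simpa using this
    · exact Or.inr (e.le_symm_apply.1 h1)

theorem exists_rep_cols {𝓑 : Set (Set κ)} (a : Cols 𝓑) :
    ∃ x : ℕ → Set κ, ∃ h : PFin.mk (colSet x) ∈ Cols 𝓑, (⟨PFin.mk (colSet x), h⟩ : Cols 𝓑) = a := by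
  obtain ⟨x, hx⟩ := exists_colSet a.1
  exact ⟨x, hx ▸ a.2, Subtype.ext hx⟩

theorem mem_pair_iff {x : ℕ → Set κ} :
    PFin.mk (colSet x) ∈ Cols ({∅, univ} : Set (Set κ)) ↔
      ∀ n, (x n).Finite ∨ (x n)ᶜ.Finite := by
  rw [mk_colSet_mem_Cols]
  refine forall_congr' fun n => ?_
  simp only [mem_insert_iff, mem_singleton_iff, exists_eq_or_imp, exists_eq_left]
  rw [show symmDiff (x n) (∅ : Set κ) = x n from symmDiff_bot _,
    show symmDiff (x n) (univ : Set κ) = (x n)ᶜ from symmDiff_top _]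

theorem fin_subset_pair : Cols ({∅} : Set (Set κ)) ⊆ Cols ({∅, univ} : Set (Set κ)) := by
  rintro _ ⟨x, hx, rfl⟩
  exact ⟨x, fun n => by
    obtain ⟨B, hB, h⟩ := hx n
    exact ⟨B, Or.inl hB, h⟩, rfl⟩

theorem zero_mem_pair :
    PFin.mk (colSet fun _ => (∅ : Set κ)) ∈ Cols ({∅, univ} : Set (Set κ)) :=
  mem_pair_iff.2 fun _ => Or.inl finite_empty

theorem fin_iff_no_atom [Infinite κ] (a : Cols ({∅, univ} : Set (Set κ))) :
    a.1 ∈ Cols ({∅} : Set (Set κ)) ↔ ∀ c, c ≤ a → ¬ IsAtomElt c := by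
  classical
  obtain ⟨x, hx, rfl⟩ := exists_rep_cols a
  rw [mk_mem_fin]
  constructor
  · intro hfin c hc hat
    obtain ⟨z, hz, rfl⟩ := exists_rep_cols c
    have hc' : PFin.mk (colSet z) ≤ PFin.mk (colSet x) := hc
    have hzf : ∀ n, (z n).Finite := fun n =>
      ((hfin n).union ((mk_colSet_le.1 hc').1 n)).subset fun k hk => by
        by_cases hk' : k ∈ x n
        exacts [Or.inl hk', Or.inr ⟨hk, hk'⟩]
    have hne : ∃ᶠ n in atTop, (z n).Nonempty := by
      intro hno
      refine hat.1 fun d => ?_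
      obtain ⟨w, hw, rfl⟩ := exists_rep_cols d
      change PFin.mk (colSet z) ≤ PFin.mk (colSet w)
      refine mk_colSet_le.2 ⟨fun n => (hzf n).subset sdiff_subset, ?_⟩
      filter_upwards [hno] with n hn
      rw [not_nonempty_iff_eq_empty.1 hn]
      exact empty_subset _
    obtain ⟨i, hi, hi'⟩ := extraction_of_frequently_atTop hne
    let z' : ℕ → Set κ := fun n => if ∃ j, n = i (2 * j) then z n else ∅
    have hz' : ∀ n, z' n ⊆ z n := by
      intro n
      by_cases h : ∃ j, n = i (2 * j)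
      · rw [show z' n = z n from if_pos h]
      · rw [show z' n = ∅ from if_neg h]
        exact empty_subset _
    have hmem : PFin.mk (colSet z') ∈ Cols ({∅, univ} : Set (Set κ)) :=
      mem_pair_iff.2 fun n => Or.inl ((hzf n).subset (hz' n))
    have hle : (⟨_, hmem⟩ : Cols ({∅, univ} : Set (Set κ))) ≤ ⟨_, hz⟩ := by
      change PFin.mk (colSet z') ≤ PFin.mk (colSet z)
      exact mk_colSet_le.2 ⟨fun n => ((hzf n).subset (hz' n)).subset sdiff_subset,
        Eventually.of_forall hz'⟩
    rcases hat.2 _ hle with h1 | h1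
    · have h2 := h1 ⟨_, zero_mem_pair⟩
      have h3 : PFin.mk (colSet z') ≤ PFin.mk (colSet fun _ => (∅ : Set κ)) := h2
      obtain ⟨N, hN⟩ := eventually_atTop.1 (mk_colSet_le.1 h3).2
      have h4 : N ≤ i (2 * N) := (hi.le_apply).trans' (by omega)
      obtain ⟨k, hk⟩ := hi' (2 * N)
      have h5 : z' (i (2 * N)) = z (i (2 * N)) := if_pos ⟨N, rfl⟩
      exact hN _ h4 (h5 ▸ hk)
    · have h3 : PFin.mk (colSet z) ≤ PFin.mk (colSet z') := h1
      obtain ⟨N, hN⟩ := eventually_atTop.1 (mk_colSet_le.1 h3).2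
      have h4 : N ≤ i (2 * N + 1) := (hi.le_apply).trans' (by omega)
      obtain ⟨k, hk⟩ := hi' (2 * N + 1)
      have h5 : z' (i (2 * N + 1)) = ∅ := if_neg (by
        rintro ⟨j, hj⟩
        have := hi.injective hj
        omega)
      have h6 : k ∈ z' (i (2 * N + 1)) := hN _ h4 hk
      rw [h5] at h6
      exact h6
  · intro h n
    by_contra hn
    have hco : (x n)ᶜ.Finite := (mem_pair_iff.1 hx n).resolve_left hn
    let z : ℕ → Set κ := fun m => if m = n then univ else ∅
    have hzn : z n = univ := if_pos rfl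
    have hzm : ∀ m, m ≠ n → z m = ∅ := fun m hm => if_neg hm
    have hmem : PFin.mk (colSet z) ∈ Cols ({∅, univ} : Set (Set κ)) := by
      refine mem_pair_iff.2 fun m => ?_
      by_cases hm : m = n
      · right
        rw [hm, hzn, compl_univ]
        exact finite_empty
      · left
        rw [hzm m hm]
        exact finite_empty
    have hev : ∀ᶠ m in atTop, z m = ∅ := by
      filter_upwards [eventually_gt_atTop n] with m hm
      exact hzm m (ne_of_gt hm)
    refine h ⟨_, hmem⟩ ?_ ⟨fun hl => ?_, ?_⟩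
    · change PFin.mk (colSet z) ≤ PFin.mk (colSet x)
      refine mk_colSet_le.2 ⟨fun m => ?_, ?_⟩
      · by_cases hm : m = n
        · rw [hm, hzn]
          exact hco.subset fun k hk => hk.2
        · rw [hzm m hm, empty_sdiff]
          exact finite_empty
      · filter_upwards [hev] with m hm
        rw [hm]
        exact empty_subset _
    · have h2 := hl ⟨_, zero_mem_pair⟩
      have h3 : PFin.mk (colSet z) ≤ PFin.mk (colSet fun _ => (∅ : Set κ)) := h2
      have h4 := (mk_colSet_le.1 h3).1 n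
      rw [hzn, sdiff_empty] at h4
      exact infinite_univ h4
    · intro d hd
      obtain ⟨w, hw, rfl⟩ := exists_rep_cols d
      have hd' : PFin.mk (colSet w) ≤ PFin.mk (colSet z) := hd
      have hd1 := (mk_colSet_le.1 hd').1
      have hd2 : ∀ᶠ m in atTop, w m = ∅ := by
        filter_upwards [(mk_colSet_le.1 hd').2, hev] with m h1 h2
        rw [h2] at h1
        exact subset_empty_iff.1 h1
      have hd3 : ∀ m, m ≠ n → (w m).Finite := by
        intro m hm
        have := hd1 m
        rwa [hzm m hm, sdiff_empty] at this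
      rcases mem_pair_iff.1 hw n with h1 | h1
      · left
        intro d'
        obtain ⟨w', hw', rfl⟩ := exists_rep_cols d'
        change PFin.mk (colSet w) ≤ PFin.mk (colSet w')
        refine mk_colSet_le.2 ⟨fun m => ?_, ?_⟩
        · by_cases hm : m = n
          · rw [hm]
            exact h1.subset sdiff_subset
          · exact (hd3 m hm).subset sdiff_subset
        · filter_upwards [hd2] with m hm
          rw [hm]
          exact empty_subset _
      · right
        change PFin.mk (colSet z) ≤ PFin.mk (colSet w)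
        refine mk_colSet_le.2 ⟨fun m => ?_, ?_⟩
        · by_cases hm : m = n
          · rw [hm, hzn]
            exact h1.subset fun k hk => hk.2
          · rw [hzm m hm, empty_sdiff]
            exact finite_empty
        · filter_upwards [hev] with m hm
          rw [hm]
          exact empty_subset _

/-- An isomorphism that respects the finite-column parts restricts to them. -/
theorem restrict_fin {𝓐 : Set (Set lam)} {𝓑 : Set (Set κ)}
    (hA : Cols ({∅} : Set (Set lam)) ⊆ Cols 𝓐) (hB : Cols ({∅} : Set (Set κ)) ⊆ Cols 𝓑)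
    (e : Cols 𝓐 ≃o Cols 𝓑)
    (he : ∀ a, a.1 ∈ Cols ({∅} : Set (Set lam)) ↔ (e a).1 ∈ Cols ({∅} : Set (Set κ))) :
    Nonempty (Cols ({∅} : Set (Set lam)) ≃o Cols ({∅} : Set (Set κ))) := by
  obtain ⟨E, -⟩ := orderIso_of_rel
    (P := Cols ({∅} : Set (Set lam))) (Q := Cols ({∅} : Set (Set κ)))
    (fun a b => (e ⟨a.1, hA a.2⟩).1 = b.1)
    (fun a => ⟨⟨_, (he ⟨a.1, hA a.2⟩).1 a.2⟩, rfl⟩)
    (fun b => by
      have h1 : (e.symm ⟨b.1, hB b.2⟩).1 ∈ Cols ({∅} : Set (Set lam)) := by
        rw [he, e.apply_symm_apply]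
        exact b.2
      refine ⟨⟨_, h1⟩, ?_⟩
      rw [show (⟨(e.symm ⟨b.1, hB b.2⟩).1, hA h1⟩ : Cols 𝓐) = e.symm ⟨b.1, hB b.2⟩ from rfl,
        e.apply_symm_apply])
    (fun a b a' b' h h' => by
      have h1 : (a ≤ a') ↔ (⟨a.1, hA a.2⟩ : Cols 𝓐) ≤ ⟨a'.1, hA a'.2⟩ := Iff.rfl
      have h2 : (b ≤ b') ↔ b.1 ≤ b'.1 := Iff.rfl
      rw [h1, h2, ← h, ← h', ← e.le_iff_le]
      exact Iff.rfl)
  exact ⟨E⟩

theorem fin_of_pair [Infinite κ] [Infinite lam]
    (e : Cols ({∅, univ} : Set (Set lam)) ≃o Cols ({∅, univ} : Set (Set κ))) :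
    Nonempty (Cols ({∅} : Set (Set lam)) ≃o Cols ({∅} : Set (Set κ))) := by
  refine restrict_fin fin_subset_pair fin_subset_pair e fun a => ?_
  rw [fin_iff_no_atom, fin_iff_no_atom]
  constructor
  · intro h c hc hat
    exact h (e.symm c) (e.symm_apply_le.2 hc) (hat.map e.symm)
  · intro h c hc hat
    exact h (e c) (e.le_iff_le.2 hc) (hat.map e)

end Pool.Agent.Work.MP_16b18c_lc
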