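import Pool.Agent.Work.MP_16b18c_lc.ColChain

/-!
If there is a dominating family of size `ℵ₁`, then similar families of at most `ℵ₁` subsets of
two sets of size at most `ℵ₁` give isomorphic algebras of sets defined by their columns.
-/

namespace Pool.Agent.Work.MP_16b18c_lc

open Set Filter

variable {κ lam I : Type*}

theorem SimOn.sdiff_finite {B : I → Set κ} {A : I → Set lam} (h : SimOn univ B A) (i j : I) :
    (B i \ B j).Finite ↔ (A i \ A j).Finite := by
  classical
  have key := h.transfer (u := {i, j}) (fun _ _ => mem_univ _) (fun w => i ∈ w ∧ j ∉ w)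
  have h1 : {k | i ∈ {i' | i' ∈ ({i, j} : Finset I) ∧ k ∈ B i'} ∧
      j ∉ {i' | i' ∈ ({i, j} : Finset I) ∧ k ∈ B i'}} = B i \ B j := by
    ext k
    simp
  have h2 : {k | i ∈ {i' | i' ∈ ({i, j} : Finset I) ∧ k ∈ A i'} ∧
      j ∉ {i' | i' ∈ ({i, j} : Finset I) ∧ k ∈ A i'}} = A i \ A j := by
    ext k
    simp
  rw [h1, h2] at key
  exact key

theorem SimOn.finite_iff {B : I → Set κ} {A : I → Set lam} (h : SimOn univ B A) (i : I) :
    (B i).Finite ↔ (A i).Finite := by
  classical
  have key := h.transfer (u := {i}) (fun _ _ => mem_univ _) (fun w => i ∈ w)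
  have h1 : {k | i ∈ {i' | i' ∈ ({i} : Finset I) ∧ k ∈ B i'}} = B i := by
    ext k
    simp
  have h2 : {k | i ∈ {i' | i' ∈ ({i} : Finset I) ∧ k ∈ A i'}} = A i := by
    ext k
    simp
  rw [h1, h2] at key
  exact key

theorem finite_iff_of_symmDiff {X Y : Set κ} (h : (symmDiff X Y).Finite) :
    X.Finite ↔ Y.Finite := by
  rw [symmDiff_def] at h
  constructor
  · intro hX
    refine (hX.union h).subset fun k hk => ?_
    by_cases hkX : k ∈ X
    · exact Or.inl hkX
    · exact Or.inr (Or.inr ⟨hk, hkX⟩)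
  · intro hY
    refine (hY.union h).subset fun k hk => ?_
    by_cases hkY : k ∈ Y
    · exact Or.inl hkY
    · exact Or.inr (Or.inl ⟨hk, hkY⟩)

theorem sdiff_finite_iff_of_symmDiff {X X' Y Y' : Set κ} (h : (symmDiff X Y).Finite)
    (h' : (symmDiff X' Y').Finite) : (X \ X').Finite ↔ (Y \ Y').Finite := by
  refine finite_iff_of_symmDiff ((h.union h').subset fun k hk => ?_)
  simp only [mem_symmDiff, Set.mem_sdiff, mem_union] at hk ⊢
  tauto

/-- The relation between sets of the two sides. -/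
def Rel {W : Type*} (B : I → Set κ) (A : I → Set lam) (φ : W → ℕ → St κ lam I)
    (x : ℕ → Set κ) (y : ℕ → Set lam) : Prop :=
  (∀ n, ∃ i, (symmDiff (x n) (B i)).Finite ∧ (symmDiff (y n) (A i)).Finite) ∧
    ∃ c, ∀ᶠ n in atTop, Match B A (φ c n) (x n) (y n)

/-- Indices that catch all sequences of finite sets. -/
theorem exists_catch {W : Type*} [LinearOrder W] [Uncountable W]
    (hW : ∀ c : W, (Iio c).Countable) {F : W → ℕ → ℕ}
    (hF : ∀ g : ℕ → ℕ, ∃ b, ∀ᶠ n in atTop, g n ≤ F b n) {e : W → ℕ → W}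
    (he : ∀ a c, c < a → ∃ j, e a j = c) (C : ℕ → Set W) (hC : ∀ n, (C n).Finite) :
    ∃ a b, ∀ᶠ n in atTop, C n ⊆ e a '' Iio (F b n) := by
  classical
  obtain ⟨a, ha⟩ : ∃ a, ∀ n, ∀ c ∈ C n, c < a := by
    by_contra hno
    push Not at hno
    have hco : (⋃ n, ⋃ c ∈ C n, Iic c).Countable := by
      refine countable_iUnion fun n => (hC n).countable.biUnion fun c _ => ?_
      refine ((hW c).insert c).mono fun d hd => ?_
      rcases (mem_Iic.1 hd).eq_or_lt with h | h
      exacts [Or.inl h, Or.inr h]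
    refine not_countable_univ (α := W) (hco.mono fun a _ => ?_)
    obtain ⟨n, c, hc, hac⟩ := hno a
    exact mem_iUnion.2 ⟨n, mem_biUnion hc hac⟩
  have h1 : ∀ n, ∃ N, C n ⊆ e a '' Iio N := by
    intro n
    choose! j hj using fun c (hc : c ∈ C n) => he a c (ha n c hc)
    obtain ⟨N, hN⟩ := ((hC n).image j).bddAbove
    exact ⟨N + 1, fun c hc => ⟨j c, Nat.lt_succ_of_le (hN ⟨c, hc, rfl⟩), hj c hc⟩⟩
  choose g hg using h1
  obtain ⟨b, hb⟩ := hF g
  refine ⟨a, b, ?_⟩
  filter_upwards [hb] with n hn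
  exact (hg n).trans (image_mono (Iio_subset_Iio hn))

theorem exists_colIso {W : Type*} [LinearOrder W] [WellFoundedLT W] [Uncountable W]
    (hW : ∀ c : W, (Iio c).Countable) [Infinite κ] [Infinite lam]
    {k : W → κ} (hk : Function.Surjective k) {l : W → lam} (hl : Function.Surjective l)
    {F : W → ℕ → ℕ} (hF : ∀ g : ℕ → ℕ, ∃ b, ∀ᶠ n in atTop, g n ≤ F b n)
    {B : W → Set κ} {A : W → Set lam} (h : SimOn univ B A) :
    ∃ e : Cols (range B) ≃o Cols (range A), ∀ a,
      a.1 ∈ Cols ({∅} : Set (Set κ)) ↔ (e a).1 ∈ Cols ({∅} : Set (Set lam)) := by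
  classical
  obtain ⟨π⟩ : Nonempty (W ≃ W × W) := by
    have : Infinite W := inferInstance
    refine Cardinal.eq.1 ?_
    rw [Cardinal.mk_prod, Cardinal.lift_id,
      Cardinal.mul_eq_self (Cardinal.aleph0_le_mk W)]
  obtain ⟨e, he⟩ : ∃ e : W → ℕ → W, ∀ a c, c < a → ∃ j, e a j = c := by
    have h1 : ∀ a : W, ∃ f : ℕ → W, ∀ c, c < a → ∃ j, f j = c := by
      intro a
      rcases (Iio a).eq_empty_or_nonempty with h0 | hne
      · refine ⟨fun _ => a, fun c hc => ?_⟩
        have : c ∈ Iio a := hc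
        rw [h0] at this
        exact absurd this (notMem_empty c)
      · obtain ⟨f, hf⟩ := (hW a).exists_eq_range hne
        exact ⟨f, fun c hc => by
          have : c ∈ range f := hf ▸ hc
          exact this⟩
    choose e he using h1
    exact ⟨e, he⟩
  let T : W → ℕ → Set W := fun c n => e (π c).1 '' Iio (F (π c).2 n)
  have hT : ∀ c n, (T c n).Finite := fun c n => (finite_Iio _).image _
  obtain ⟨φ, hok, hle, hdem⟩ := exists_chain hW h (fun c n => k '' T c n)
    (fun c n => (hT c n).image k) (fun c n => l '' T c n) (fun c n => (hT c n).image l) T hT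
  have hcatch : ∀ C : ℕ → Set W, (∀ n, (C n).Finite) → ∃ c, ∀ᶠ n in atTop, C n ⊆ T c n := by
    intro C hC
    obtain ⟨a, b, hab⟩ := exists_catch hW hF he C hC
    refine ⟨π.symm (a, b), ?_⟩
    simpa [T] using hab
  have hmono : ∀ {x : ℕ → Set κ} {y : ℕ → Set lam} {c c' : W}, c ≤ c' → (∀ᶠ n in atTop, Match B A (φ c n) (x n) (y n)) →
      ∀ᶠ n in atTop, Match B A (φ c' n) (x n) (y n) := by
    intro x y c c' hcc hm
    rcases hcc.eq_or_lt with rfl | hlt
    · exact hm
    · filter_upwards [hm, hle c c' hlt] with n h1 h2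
      exact h1.mono (hok c' n) h2
  let ρ : Cols (range B) → Cols (range A) → Prop := fun a b =>
    ∃ x y, PFin.mk (colSet x) = a.1 ∧ PFin.mk (colSet y) = b.1 ∧ Rel B A φ x y
  have hρ1 : ∀ a, ∃ b, ρ a b := by
    rintro ⟨_, x, hx, rfl⟩
    have hx0 := hx
    choose B' hB' hxB using hx0
    choose i hi using hB'
    obtain ⟨c, hc⟩ := hcatch (fun n => insert (i n)
      (Function.surjInv hk '' symmDiff (x n) (B' n))) (fun n => ((hxB n).image _).insert _)
    have h1 : ∀ᶠ n in atTop, ∃ Y, Match B A (φ c n) (x n) Y := by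
      filter_upwards [hc] with n hn
      refine exists_match (hok c n) (i := i n) ((hdem c n).2.2 (hn (mem_insert _ _))) ?_
      intro u hu
      refine (hdem c n).1 ⟨Function.surjInv hk u, hn (mem_insert_of_mem _ ⟨u, ?_, rfl⟩),
        Function.surjInv_eq hk u⟩
      rw [← hi n]
      exact hu
    let y : ℕ → Set lam := fun n =>
      if hn : ∃ Y, Match B A (φ c n) (x n) Y then hn.choose else A (i n)
    have hy : ∀ n, ∃ j, (symmDiff (x n) (B j)).Finite ∧ (symmDiff (y n) (A j)).Finite := by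
      intro n
      by_cases hn : ∃ Y, Match B A (φ c n) (x n) Y
      · have h2 : y n = hn.choose := dif_pos hn
        rw [h2]
        exact hn.choose_spec.symmDiff_finite (hok c n)
      · have h2 : y n = A (i n) := dif_neg hn
        refine ⟨i n, ?_, ?_⟩
        · rw [hi n]
          exact hxB n
        · rw [h2, symmDiff_self]
          exact finite_empty
    refine ⟨⟨PFin.mk (colSet y), y, fun n => ?_, rfl⟩, x, y, rfl, rfl, hy, c, ?_⟩
    · obtain ⟨j, -, hj⟩ := hy n
      exact ⟨A j, mem_range_self j, hj⟩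
    · filter_upwards [h1] with n hn
      have h2 : y n = hn.choose := dif_pos hn
      rw [h2]
      exact hn.choose_spec
  have hρ2 : ∀ b, ∃ a, ρ a b := by
    rintro ⟨_, y, hy, rfl⟩
    have hy0 := hy
    choose A' hA' hyA using hy0
    choose i hi using hA'
    obtain ⟨c, hc⟩ := hcatch (fun n => insert (i n)
      (Function.surjInv hl '' symmDiff (y n) (A' n))) (fun n => ((hyA n).image _).insert _)
    have h1 : ∀ᶠ n in atTop, ∃ X, Match B A (φ c n) X (y n) := by
      filter_upwards [hc] with n hn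
      refine exists_match' (hok c n) (i := i n) ((hdem c n).2.2 (hn (mem_insert _ _))) ?_
      intro u hu
      refine (hdem c n).2.1 ⟨Function.surjInv hl u, hn (mem_insert_of_mem _ ⟨u, ?_, rfl⟩),
        Function.surjInv_eq hl u⟩
      rw [← hi n]
      exact hu
    let x : ℕ → Set κ := fun n =>
      if hn : ∃ X, Match B A (φ c n) X (y n) then hn.choose else B (i n)
    have hx : ∀ n, ∃ j, (symmDiff (x n) (B j)).Finite ∧ (symmDiff (y n) (A j)).Finite := by
      intro n
      by_cases hn : ∃ X, Match B A (φ c n) X (y n)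
      · have h2 : x n = hn.choose := dif_pos hn
        rw [h2]
        exact hn.choose_spec.symmDiff_finite (hok c n)
      · have h2 : x n = B (i n) := dif_neg hn
        refine ⟨i n, ?_, ?_⟩
        · rw [h2, symmDiff_self]
          exact finite_empty
        · rw [hi n]
          exact hyA n
    refine ⟨⟨PFin.mk (colSet x), x, fun n => ?_, rfl⟩, x, y, rfl, rfl, hx, c, ?_⟩
    · obtain ⟨j, hj, -⟩ := hx n
      exact ⟨B j, mem_range_self j, hj⟩
    · filter_upwards [h1] with n hn
      have h2 : x n = hn.choose := dif_pos hn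
      rw [h2]
      exact hn.choose_spec
  have hρ3 : ∀ a b a' b', ρ a b → ρ a' b' → (a ≤ a' ↔ b ≤ b') := by
    rintro ⟨a, ha⟩ ⟨b, hb⟩ ⟨a', ha'⟩ ⟨b', hb'⟩ ⟨x, y, hx, hy, h1, c, hc⟩
      ⟨x', y', hx', hy', h1', c', hc'⟩
    change a ≤ a' ↔ b ≤ b'
    rw [← show PFin.mk (colSet x) = a from hx, ← show PFin.mk (colSet x') = a' from hx',
      ← show PFin.mk (colSet y) = b from hy, ← show PFin.mk (colSet y') = b' from hy',
      mk_colSet_le, mk_colSet_le]
    refine and_congr (forall_congr' fun n => ?_) ?_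
    · obtain ⟨i, hi1, hi2⟩ := h1 n
      obtain ⟨j, hj1, hj2⟩ := h1' n
      rw [sdiff_finite_iff_of_symmDiff hi1 hj1, sdiff_finite_iff_of_symmDiff hi2 hj2]
      exact h.sdiff_finite i j
    · have h2 := hmono (le_max_left c c') hc
      have h3 := hmono (le_max_right c c') hc'
      refine Filter.eventually_congr ?_
      filter_upwards [h2, h3] with n h4 h5
      exact h4.subset_iff h (hok _ n) h5
  obtain ⟨E, hE⟩ := orderIso_of_rel ρ hρ1 hρ2 hρ3
  refine ⟨E, fun a => ?_⟩
  obtain ⟨x, y, hx, hy, h1, -⟩ := hE a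
  rw [← hx, ← hy, mk_colSet_mem_Cols, mk_colSet_mem_Cols]
  refine forall_congr' fun n => ?_
  obtain ⟨i, hi1, hi2⟩ := h1 n
  simp only [mem_singleton_iff, exists_eq_left]
  rw [show symmDiff (x n) (∅ : Set κ) = x n from symmDiff_bot _,
    show symmDiff (y n) (∅ : Set lam) = y n from symmDiff_bot _,
    finite_iff_of_symmDiff hi1, finite_iff_of_symmDiff hi2]
  exact h.finite_iff i

end Pool.Agent.Work.MP_16b18c_lc
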