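import Pool.Agent.Work.MP_16b18c_lc.ColIso
import Pool.Agent.Work.MP_16b18c_lc.ColFC

/-!
Assembly: with a dominating family of size `ℵ₁`, every subalgebra of `P(κ)`, `|κ| = ℵ₁`, of size
at most `ℵ₁` has a twin in `P(ω)`, and conversely.
-/

namespace Pool.Agent.Work.MP_16b18c_lc

open Set Filter Cardinal

variable {κ lam I : Type*}

theorem SimOn.pred3 {B : I → Set κ} {A : I → Set lam} (h : SimOn univ B A)
    (θ : Prop → Prop → Prop → Prop) (i j l : I) :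
    {k | θ (k ∈ B i) (k ∈ B j) (k ∈ B l)}.Finite ↔
      {k | θ (k ∈ A i) (k ∈ A j) (k ∈ A l)}.Finite := by
  classical
  have key := h.transfer (u := {i, j, l}) (fun _ _ => mem_univ _)
    (fun w => θ (i ∈ w) (j ∈ w) (l ∈ w))
  simpa using key

theorem SimOn.isAlg {B : I → Set κ} {A : I → Set lam} (h : SimOn univ B A)
    (hB : IsAlg (range B)) : IsAlg {Y | ∃ i, (symmDiff Y (A i)).Finite} := by
  obtain ⟨h0, h1, h2⟩ := hB
  refine ⟨?_, ?_, ?_⟩
  · obtain ⟨i, hi⟩ := h0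
    refine ⟨i, ?_⟩
    have h3 : (A i).Finite := (h.finite_iff i).1 (hi ▸ finite_empty)
    refine h3.subset fun k hk => ?_
    rw [mem_symmDiff] at hk
    rcases hk with hk | hk
    exacts [absurd hk.1 (notMem_empty k), hk.1]
  · rintro Y ⟨i, hi⟩
    obtain ⟨j, hj⟩ := h1 (B i) ⟨i, rfl⟩
    have h3 := (h.pred3 (fun p q _ => (¬p ∧ ¬q) ∨ (p ∧ q)) i j j).1 (by
      convert finite_empty
      ext k
      rw [hj]
      simp)
    refine ⟨j, (hi.union h3).subset fun k hk => ?_⟩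
    simp only [mem_symmDiff, mem_union, mem_compl_iff] at hk ⊢
    change _ ∨ ((k ∉ A i ∧ k ∉ A j) ∨ (k ∈ A i ∧ k ∈ A j))
    tauto
  · rintro Y ⟨i, hi⟩ Z ⟨j, hj⟩
    obtain ⟨l, hl⟩ := h2 (B i) ⟨i, rfl⟩ (B j) ⟨j, rfl⟩
    have h3 := (h.pred3 (fun p q r => ¬ ((p ∨ q) ↔ r)) i j l).1 (by
      convert finite_empty
      ext k
      rw [hl]
      simp)
    refine ⟨l, ((hi.union hj).union h3).subset fun k hk => ?_⟩
    simp only [mem_symmDiff, mem_union] at hk ⊢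
    change _ ∨ ¬ ((k ∈ A i ∨ k ∈ A j) ↔ k ∈ A l)
    tauto

theorem Cols_closure (A : I → Set lam) :
    Cols {Y | ∃ i, (symmDiff Y (A i)).Finite} = Cols (range A) := by
  apply Subset.antisymm
  · rintro _ ⟨x, hx, rfl⟩
    refine ⟨x, fun n => ?_, rfl⟩
    obtain ⟨Y, ⟨i, hi⟩, hY⟩ := hx n
    exact ⟨A i, ⟨i, rfl⟩, (hY.union hi).subset (symmDiff_triangle _ _ _)⟩
  · rintro _ ⟨x, hx, rfl⟩
    refine ⟨x, fun n => ?_, rfl⟩
    obtain ⟨_, ⟨i, rfl⟩, hY⟩ := hx n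
    exact ⟨A i, ⟨i, by rw [symmDiff_self]; exact finite_empty⟩, hY⟩

/-- A family of subsets of `ω` is similar to a family of subsets of any infinite set. -/
theorem exists_sim_symm {κ : Type*} [Infinite κ] (A : I → Set ℕ) :
    ∃ B : I → Set κ, SimOn univ B A := by
  classical
  let ι : ℕ ↪ κ := Infinite.natEmbedding κ
  let B : I → Set κ := fun i => {k | (∃ n ∈ A i, ι n = k) ∨
    (k ∉ range ι ∧ A i ∈ hyperfilter ℕ)}
  have hι : ∀ n i, ι n ∈ B i ↔ n ∈ A i := by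
    intro n i
    constructor
    · rintro (⟨m, hm, hmn⟩ | ⟨h, -⟩)
      · exact ι.injective hmn ▸ hm
      · exact absurd (mem_range_self n) h
    · intro h
      exact Or.inl ⟨n, h, rfl⟩
  refine ⟨B, fun s _ v => ?_⟩
  constructor
  · intro h
    refine ((h.preimage ι.injective.injOn)).subset fun n hn => ?_
    exact fun i hi => (hι n i).trans (hn i hi)
  · intro h
    refine (h.image ι).subset fun k hk => ?_
    by_cases hkι : k ∈ range ι
    · obtain ⟨n, rfl⟩ := hkι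
      exact ⟨n, fun i hi => (hι n i).symm.trans (hk i hi), rfl⟩
    · exfalso
      refine notMem_hyperfilter_of_finite h ?_
      have h1 : ∀ i ∈ s, {n | n ∈ A i ↔ i ∈ v} ∈ hyperfilter ℕ := by
        intro i hi
        have h2 : k ∈ B i ↔ A i ∈ hyperfilter ℕ := by
          constructor
          · rintro (⟨m, hm, hmn⟩ | ⟨-, h⟩)
            · exact absurd ⟨m, hmn⟩ hkι
            · exact h
          · intro h
            exact Or.inr ⟨hkι, h⟩
        by_cases hv : i ∈ v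
        · have h3 := h2.1 ((hk i hi).2 hv)
          filter_upwards [h3] with n hn
          exact ⟨fun _ => hv, fun _ => hn⟩
        · have h3 : A i ∉ hyperfilter ℕ := fun h => hv ((hk i hi).1 (h2.2 h))
          have h4 := Ultrafilter.compl_mem_iff_notMem.2 h3
          filter_upwards [h4] with n hn
          exact ⟨fun h => absurd h hn, fun h => absurd h hv⟩
      have h5 := (Filter.biInter_finset_mem s).2 h1
      refine Filter.mem_of_superset h5 fun n hn => ?_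
      simpa [atom] using hn

theorem exists_surj {α : Type} {W : Type} [Nonempty α] (h : Cardinal.mk α ≤ Cardinal.mk W) :
    ∃ f : W → α, Function.Surjective f := by
  obtain ⟨ι⟩ := (Cardinal.le_def α W).1 h
  exact ⟨Function.invFun ι, Function.invFun_surjective ι.injective⟩

theorem exists_W : ∃ (W : Type) (_ : LinearOrder W) (_ : WellFoundedLT W),
    Cardinal.mk W = ℵ₁ ∧ ∀ c : W, (Iio c).Countable := by
  refine ⟨(ord ℵ₁).ToType, inferInstance, inferInstance, mk_ord_toType _, fun c => ?_⟩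
  have h : Cardinal.mk (Iio c) < Cardinal.mk (ord ℵ₁).ToType := mk_Iio_lt c (by simp)
  rw [mk_ord_toType, lt_aleph_one_iff, le_aleph0_iff_set_countable] at h
  exact h

/-- The isomorphism for two similar families indexed by a set of size at most `ℵ₁`. -/
theorem exists_iso_of_sim {κ lam I : Type} [Infinite κ] [Infinite lam] [Nonempty I]
    (hκ : Cardinal.mk κ ≤ ℵ₁) (hl : Cardinal.mk lam ≤ ℵ₁) (hI : Cardinal.mk I ≤ ℵ₁)
    (hd : ∃ F : Set (ℕ → ℕ), Cardinal.mk F ≤ ℵ₁ ∧ ∀ g : ℕ → ℕ, ∃ f ∈ F, ∀ᶠ n in atTop, g n ≤ f n)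
    {B : I → Set κ} {A : I → Set lam} (h : SimOn univ B A) :
    ∃ e : Cols (range A) ≃o Cols (range B), ∀ a,
      a.1 ∈ Cols ({∅} : Set (Set lam)) ↔ (e a).1 ∈ Cols ({∅} : Set (Set κ)) := by
  classical
  obtain ⟨W, _, _, hW, hWc⟩ := exists_W
  have : Uncountable W := by
    rw [← aleph0_lt_mk_iff, hW]
    exact aleph0_lt_aleph_one
  obtain ⟨k, hk⟩ := exists_surj (α := κ) (W := W) (hW ▸ hκ)
  obtain ⟨l, hl'⟩ := exists_surj (α := lam) (W := W) (hW ▸ hl)
  obtain ⟨j, hj⟩ := exists_surj (α := I) (W := W) (hW ▸ hI)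
  obtain ⟨F, hF, hdom⟩ := hd
  have : Nonempty F := by
    obtain ⟨f, hf, -⟩ := hdom fun _ => 0
    exact ⟨⟨f, hf⟩⟩
  obtain ⟨φ, hφ⟩ := exists_surj (α := F) (W := W) (hW ▸ hF)
  have h' : SimOn univ (fun w => A (j w)) (fun w => B (j w)) := by
    intro s _ v
    have h1 := h.transfer (u := s.image j) (fun _ _ => mem_univ _)
      (fun w => ∀ i ∈ s, (j i ∈ w ↔ i ∈ v))
    have h2 : ∀ {μ : Type} (C : I → Set μ), {k | ∀ i ∈ s,
        (j i ∈ {i' | i' ∈ s.image j ∧ k ∈ C i'} ↔ i ∈ v)} = atom (fun w => C (j w)) s v := by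
      intro μ C
      ext k
      refine forall_congr' fun i => forall_congr' fun hi => ?_
      have h3 : j i ∈ s.image j := Finset.mem_image_of_mem j hi
      exact iff_congr ⟨fun h => h.2, fun h => ⟨h3, h⟩⟩ Iff.rfl
    rw [h2 B, h2 A] at h1
    exact h1.symm
  obtain ⟨e, he⟩ := exists_colIso hWc hl' hk (F := fun w => (φ w).1) (fun g => by
    obtain ⟨f, hf, hgf⟩ := hdom g
    obtain ⟨b, hb⟩ := hφ ⟨f, hf⟩
    exact ⟨b, by rw [hb]; exact hgf⟩) h'
  have hr1 : range (fun w => A (j w)) = range A := hj.range_comp A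
  have hr2 : range (fun w => B (j w)) = range B := hj.range_comp B
  rw [← hr1, ← hr2]
  exact ⟨e, he⟩

/-- Twins in `P(ω)` of small subalgebras of `P(κ)`. -/
theorem exists_twin {κ : Type} [Infinite κ] (hκ : Cardinal.mk κ ≤ ℵ₁)
    (hd : ∃ F : Set (ℕ → ℕ), Cardinal.mk F ≤ ℵ₁ ∧ ∀ g : ℕ → ℕ, ∃ f ∈ F, ∀ᶠ n in atTop, g n ≤ f n)
    (𝓑 : Set (Set κ)) (h𝓑 : Cardinal.mk 𝓑 ≤ ℵ₁) (hB : IsAlg 𝓑) :
    ∃ 𝓐 : Set (Set ℕ), IsAlg 𝓐 ∧ ∃ e : Cols 𝓐 ≃o Cols 𝓑, ∀ a,
      a.1 ∈ Cols ({∅} : Set (Set ℕ)) ↔ (e a).1 ∈ Cols ({∅} : Set (Set κ)) := by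
  classical
  obtain ⟨W, _, _, hW, hWc⟩ := exists_W
  have : Nonempty 𝓑 := ⟨⟨∅, hB.1⟩⟩
  obtain ⟨b, hb⟩ := exists_surj (α := 𝓑) (W := W) (hW ▸ h𝓑)
  have hr : range (fun w => (b w).1) = 𝓑 := by
    ext C
    constructor
    · rintro ⟨w, rfl⟩
      exact (b w).2
    · intro hC
      obtain ⟨w, hw⟩ := hb ⟨C, hC⟩
      exact ⟨w, congrArg Subtype.val hw⟩
  obtain ⟨A, hA⟩ := exists_sim hWc (fun w => (b w).1)
  have : Nonempty W := by
    rw [← mk_ne_zero_iff, hW]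
    exact (aleph_pos 1).ne'
  refine ⟨{Y | ∃ i, (symmDiff Y (A i)).Finite}, hA.isAlg (by rw [hr]; exact hB), ?_⟩
  rw [Cols_closure, ← hr]
  exact exists_iso_of_sim hκ (by simp [aleph0_lt_aleph_one.le]) hW.le hd hA

/-- Twins in `P(κ)` of small subalgebras of `P(ω)`. -/
theorem exists_twin' {κ : Type} [Infinite κ] (hκ : Cardinal.mk κ ≤ ℵ₁)
    (hd : ∃ F : Set (ℕ → ℕ), Cardinal.mk F ≤ ℵ₁ ∧ ∀ g : ℕ → ℕ, ∃ f ∈ F, ∀ᶠ n in atTop, g n ≤ f n)
    (𝓐 : Set (Set ℕ)) (h𝓐 : Cardinal.mk 𝓐 ≤ ℵ₁) (hA : IsAlg 𝓐) :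
    ∃ 𝓑 : Set (Set κ), IsAlg 𝓑 ∧ ∃ e : Cols 𝓐 ≃o Cols 𝓑, ∀ a,
      a.1 ∈ Cols ({∅} : Set (Set ℕ)) ↔ (e a).1 ∈ Cols ({∅} : Set (Set κ)) := by
  classical
  have : Nonempty 𝓐 := ⟨⟨∅, hA.1⟩⟩
  obtain ⟨B, hB⟩ := exists_sim_symm (κ := κ) (fun a : 𝓐 => a.1)
  have hr : range (fun a : 𝓐 => a.1) = 𝓐 := Subtype.range_val
  refine ⟨{Y | ∃ i, (symmDiff Y (B i)).Finite}, hB.symm.isAlg (by rw [hr]; exact hA), ?_⟩
  obtain ⟨e, he⟩ := exists_iso_of_sim hκ (by simp [aleph0_lt_aleph_one.le]) h𝓐 hd hB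
  rw [Cols_closure]
  revert e
  rw [hr]
  intro e he
  exact ⟨e, he⟩

theorem isAlg_pair : IsAlg ({∅, Set.univ} : Set (Set κ)) := by
  refine ⟨Or.inl rfl, ?_, ?_⟩
  · rintro B (rfl | rfl)
    · exact Or.inr compl_empty
    · exact Or.inl compl_univ
  · rintro B (rfl | rfl) C (rfl | rfl)
    · exact Or.inl (empty_union _)
    · exact Or.inr (empty_union _)
    · exact Or.inr (union_empty _)
    · exact Or.inr (univ_union _)

theorem exists_iso_pair {κ : Type} [Infinite κ] (hκ : Cardinal.mk κ ≤ ℵ₁)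
    (hd : ∃ F : Set (ℕ → ℕ), Cardinal.mk F ≤ ℵ₁ ∧ ∀ g : ℕ → ℕ, ∃ f ∈ F, ∀ᶠ n in atTop, g n ≤ f n) :
    Nonempty (Cols ({∅, Set.univ} : Set (Set ℕ)) ≃o Cols ({∅, Set.univ} : Set (Set κ))) := by
  classical
  have hr : ∀ {μ : Type}, range (fun b : Bool => {_k : μ | b = true}) = {∅, Set.univ} := by
    intro μ
    ext C
    constructor
    · rintro ⟨b, rfl⟩
      cases b
      · left
        ext k
        simp
      · right
        ext k
        simp
    · rintro (rfl | rfl)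
      · exact ⟨false, by ext k; simp⟩
      · exact ⟨true, by ext k; simp⟩
  have h : SimOn Set.univ (fun b : Bool => {_k : κ | b = true})
      (fun b : Bool => {_k : ℕ | b = true}) := by
    intro s _ v
    by_cases hc : ∀ b ∈ s, (b = true ↔ b ∈ v)
    · have h1 : atom (fun b : Bool => {_k : κ | b = true}) s v = Set.univ := by
        ext k
        exact ⟨fun _ => mem_univ _, fun _ => hc⟩
      have h2 : atom (fun b : Bool => {_k : ℕ | b = true}) s v = Set.univ := by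
        ext k
        exact ⟨fun _ => mem_univ _, fun _ => hc⟩
      rw [h1, h2]
      exact ⟨fun h => absurd h infinite_univ, fun h => absurd h infinite_univ⟩
    · have h1 : atom (fun b : Bool => {_k : κ | b = true}) s v = ∅ := by
        ext k
        exact ⟨fun h => absurd h hc, fun h => absurd h (notMem_empty k)⟩
      have h2 : atom (fun b : Bool => {_k : ℕ | b = true}) s v = ∅ := by
        ext k
        exact ⟨fun h => absurd h hc, fun h => absurd h (notMem_empty k)⟩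
      rw [h1, h2]
      exact ⟨fun _ => finite_empty, fun _ => finite_empty⟩
  have hBool : Cardinal.mk Bool ≤ ℵ₁ := (mk_le_aleph0 (α := Bool)).trans aleph0_lt_aleph_one.le
  obtain ⟨e, -⟩ := exists_iso_of_sim hκ (by simp [aleph0_lt_aleph_one.le])
    hBool hd h
  rw [hr, hr] at e
  exact ⟨e⟩

end Pool.Agent.Work.MP_16b18c_lc
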