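import Mathlib

/-!
Families of sets with the same pattern of finite Boolean combinations, and the theorem of
Parovichenko that every family of at most `ℵ₁` sets has the pattern of a family of subsets of
`ω`.
-/

namespace Pool.Agent.Work.MP_16b18c_lc

open Set Filter

variable {κ lam I : Type*}

/-- The points whose trace on the finite set `s` of indices is `v`. -/
def atom (B : I → Set κ) (s : Finset I) (v : Set I) : Set κ :=
  {k | ∀ i ∈ s, (k ∈ B i ↔ i ∈ v)}

/-- Over the indices in `J`, a Boolean combination of the sets `B i` is finite if and only if the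
same combination of the sets `A i` is finite. -/
def SimOn (J : Set I) (B : I → Set κ) (A : I → Set lam) : Prop :=
  ∀ s : Finset I, (∀ i ∈ s, i ∈ J) → ∀ v : Set I, (atom B s v).Finite ↔ (atom A s v).Finite

theorem setOf_tr_finite {B : I → Set κ} {u : Finset I} {θ : Set I → Prop} :
    {k | θ {i | i ∈ u ∧ k ∈ B i}}.Finite ↔
      ∀ v : Set I, v ⊆ ↑u → θ v → (atom B u v).Finite := by
  constructor
  · intro h v hv hθ
    refine h.subset fun k hk => ?_
    have hk' : {i | i ∈ u ∧ k ∈ B i} = v := by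
      ext i
      constructor
      · rintro ⟨hi, hki⟩
        exact (hk i hi).1 hki
      · intro hi
        exact ⟨hv hi, (hk i (hv hi)).2 hi⟩
    change θ {i | i ∈ u ∧ k ∈ B i}
    rwa [hk']
  · intro h
    refine ((u.finite_toSet.finite_subsets.subset (sep_subset _ θ)).biUnion
      (t := fun v => atom B u v) (fun v hv => h v hv.1 hv.2)).subset ?_
    intro k hk
    exact mem_biUnion (x := {i | i ∈ u ∧ k ∈ B i}) ⟨fun i hi => hi.1, hk⟩
      fun i hi => ⟨fun h => ⟨hi, h⟩, fun h => h.2⟩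

theorem SimOn.transfer {J : Set I} {B : I → Set κ} {A : I → Set lam} (h : SimOn J B A)
    {u : Finset I} (hu : ∀ i ∈ u, i ∈ J) (θ : Set I → Prop) :
    {k | θ {i | i ∈ u ∧ k ∈ B i}}.Finite ↔ {k | θ {i | i ∈ u ∧ k ∈ A i}}.Finite := by
  rw [setOf_tr_finite, setOf_tr_finite]
  exact forall_congr' fun v => forall_congr' fun _ => forall_congr' fun _ => h u hu v

theorem mem_atom_tr {B : I → Set κ} {s u : Finset I} (hs : s ⊆ u) {v : Set I} {k : κ} :
    k ∈ atom B s v ↔ ∀ i ∈ s, (i ∈ {i | i ∈ u ∧ k ∈ B i} ↔ i ∈ v) := by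
  refine forall_congr' fun i => forall_congr' fun hi => ?_
  have := hs hi
  exact ⟨fun h => ⟨fun h' => h.1 h'.2, fun h' => ⟨this, h.2 h'⟩⟩,
    fun h => ⟨fun h' => h.1 ⟨this, h'⟩, fun h' => (h.2 h').2⟩⟩

theorem SimOn.inter_finite {J : Set I} {B : I → Set κ} {A : I → Set lam} (h : SimOn J B A)
    {s s' : Finset I} (hs : ∀ i ∈ s, i ∈ J) (hs' : ∀ i ∈ s', i ∈ J) {v v' : Set I}
    (hf : (atom B s v ∩ atom B s' v').Finite) : (atom A s v ∩ atom A s' v').Finite := by
  classical
  have hu : ∀ i ∈ s ∪ s', i ∈ J := by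
    intro i hi
    rcases Finset.mem_union.1 hi with hi | hi
    exacts [hs i hi, hs' i hi]
  have key := h.transfer hu (fun w => (∀ i ∈ s, (i ∈ w ↔ i ∈ v)) ∧ ∀ i ∈ s', (i ∈ w ↔ i ∈ v'))
  refine (key.1 (hf.subset ?_)).subset ?_
  · rintro k ⟨h1, h2⟩
    exact ⟨(mem_atom_tr Finset.subset_union_left).2 h1,
      (mem_atom_tr Finset.subset_union_right).2 h2⟩
  · rintro k ⟨h1, h2⟩
    exact ⟨(mem_atom_tr Finset.subset_union_left).1 h1,
      (mem_atom_tr Finset.subset_union_right).1 h2⟩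

theorem SimOn.diff_infinite {J : Set I} {B : I → Set κ} {A : I → Set lam} (h : SimOn J B A)
    {P : ℕ → Finset I × Finset I} (hP : ∀ n, ∀ i ∈ (P n).1, i ∈ J) (C : Set κ) (n m : ℕ)
    (hn : (atom B (P n).1 ↑(P n).2 ∩ C).Infinite) :
    {k | k ∈ atom A (P n).1 ↑(P n).2 ∧
      ∀ j ≤ m, (atom B (P j).1 ↑(P j).2 ∩ C).Finite → k ∉ atom A (P j).1 ↑(P j).2}.Infinite := by
  classical
  intro hfin
  let u : Finset I := (P n).1 ∪ (Finset.range (m + 1)).biUnion fun j => (P j).1
  have hu : ∀ i ∈ u, i ∈ J := by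
    intro i hi
    rcases Finset.mem_union.1 hi with hi | hi
    · exact hP n i hi
    · obtain ⟨j, _, hj⟩ := Finset.mem_biUnion.1 hi
      exact hP j i hj
  have hun : (P n).1 ⊆ u := Finset.subset_union_left
  have huj : ∀ j ≤ m, (P j).1 ⊆ u := fun j hj =>
    (Finset.subset_biUnion_of_mem (fun j => (P j).1)
      (Finset.mem_range.2 (Nat.lt_succ_of_le hj))).trans Finset.subset_union_right
  have key := h.transfer hu (fun w => (∀ i ∈ (P n).1, (i ∈ w ↔ i ∈ (↑(P n).2 : Set I))) ∧
    ∀ j ≤ m, (atom B (P j).1 ↑(P j).2 ∩ C).Finite →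
      ¬ ∀ i ∈ (P j).1, (i ∈ w ↔ i ∈ (↑(P j).2 : Set I)))
  have h1 := key.2 (hfin.subset (by
    rintro k ⟨h1, h2⟩
    exact ⟨(mem_atom_tr hun).2 h1, fun j hj hf hk => h2 j hj hf ((mem_atom_tr (huj j hj)).1 hk)⟩))
  refine hn ((h1.union ((finite_le_nat m).biUnion (t := fun j =>
    {k | (atom B (P j).1 ↑(P j).2 ∩ C).Finite ∧ k ∈ atom B (P j).1 ↑(P j).2 ∩ C})
    (fun j _ => ?_))).subset ?_)
  · by_cases hj : (atom B (P j).1 ↑(P j).2 ∩ C).Finite
    · exact hj.subset fun k hk => hk.2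
    · convert finite_empty
      ext k
      simp [hj]
  · rintro k ⟨hk1, hk2⟩
    by_cases hk : ∃ j ≤ m, (atom B (P j).1 ↑(P j).2 ∩ C).Finite ∧ k ∈ atom B (P j).1 ↑(P j).2
    · obtain ⟨j, hj, hf, hkj⟩ := hk
      exact Or.inr (mem_biUnion (x := j) hj ⟨hf, hkj, hk2⟩)
    · refine Or.inl ⟨(mem_atom_tr hun).1 hk1, fun j hj hf hkj => hk ⟨j, hj, hf, ?_⟩⟩
      exact (mem_atom_tr (huj j hj)).2 hkj

/-- An enumeration, with infinite repetition, of the pairs `(s, v)` of finite sets of indices in a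
countable set. -/
theorem exists_enum_pairs {J : Set I} (hJ : J.Countable) :
    ∃ P : ℕ → Finset I × Finset I, (∀ n, ∀ i ∈ (P n).1, i ∈ J) ∧
      (∀ n, {n' | P n' = P n}.Infinite) ∧
      ∀ p : Finset I × Finset I, (∀ i ∈ p.1, i ∈ J) → (∀ i ∈ p.2, i ∈ J) → ∃ n, P n = p := by
  have hS : {s : Finset I | ∀ i ∈ s, i ∈ J}.Countable := by
    have h := (Set.countable_ofPred_finite_subset hJ).preimage
      (f := fun s : Finset I => (↑s : Set I)) Finset.coe_injective
    refine h.mono fun s hs => ?_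
    exact And.intro s.finite_toSet fun i hi => hs i hi
  obtain ⟨f, hf⟩ := (hS.prod hS).exists_eq_range ⟨(∅, ∅), by simp⟩
  refine ⟨fun n => f n.unpair.1, fun n i hi => ?_, fun n => ?_, fun p hp1 hp2 => ?_⟩
  · have h : f n.unpair.1 ∈ {s : Finset I | ∀ i ∈ s, i ∈ J} ×ˢ {s : Finset I | ∀ i ∈ s, i ∈ J} :=
      hf ▸ mem_range_self _
    exact h.1 i hi
  · refine (infinite_range_of_injective (f := fun k => Nat.pair n.unpair.1 k) ?_).mono ?_
    · intro a b hab
      simpa using hab
    · rintro _ ⟨k, rfl⟩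
      simp
  · have h : p ∈ range f := hf ▸ ⟨hp1, hp2⟩
    obtain ⟨m, rfl⟩ := h
    exact ⟨Nat.pair m 0, by simp⟩

/-- One step of the construction: a set of indices that is countable can be extended by one. -/
theorem exists_step {J : Set I} (hJ : J.Countable) {B : I → Set κ} {A : I → Set ℕ}
    (h : SimOn J B A) (C : Set κ) :
    ∃ D : Set ℕ, ∀ s : Finset I, (∀ i ∈ s, i ∈ J) → ∀ v : Set I,
      ((atom B s v ∩ C).Finite ↔ (atom A s v ∩ D).Finite) ∧
      ((atom B s v \ C).Finite ↔ (atom A s v \ D).Finite) := by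
  classical
  obtain ⟨P, hP, hPinf, hPs⟩ := exists_enum_pairs hJ
  let U : ℕ → Set κ := fun n => atom B (P n).1 ↑(P n).2
  let V : ℕ → Set ℕ := fun n => atom A (P n).1 ↑(P n).2
  have hUV : ∀ n n', (U n ∩ U n').Finite → (V n ∩ V n').Finite := fun n n' hf =>
    h.inter_finite (hP n) (hP n') hf
  have hsel : ∀ m, ∃ᶠ k in atTop,
      (m % 2 = 0 → (U (m / 2) ∩ C).Infinite →
        k ∈ V (m / 2) ∧ ∀ j ≤ m / 2, (U j ∩ C).Finite → k ∉ V j) ∧
      (m % 2 = 1 → (U (m / 2) ∩ Cᶜ).Infinite →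
        k ∈ V (m / 2) ∧ ∀ j ≤ m / 2, (U j ∩ Cᶜ).Finite → k ∉ V j) := by
    intro m
    rw [Nat.frequently_atTop_iff_infinite]
    rcases Nat.mod_two_eq_zero_or_one m with hm | hm
    · by_cases hi : (U (m / 2) ∩ C).Infinite
      · refine (h.diff_infinite hP C (m / 2) (m / 2) hi).mono fun k hk => ⟨fun _ _ => hk, ?_⟩
        intro hm'
        omega
      · convert Set.infinite_univ (α := ℕ)
        ext k
        simp [hm, hi]
    · by_cases hi : (U (m / 2) ∩ Cᶜ).Infinite
      · refine (h.diff_infinite hP Cᶜ (m / 2) (m / 2) hi).mono fun k hk => ⟨?_, fun _ _ => hk⟩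
        intro hm'
        omega
      · convert Set.infinite_univ (α := ℕ)
        ext k
        simp [hm, hi]
  obtain ⟨w, hw, hwsel⟩ := extraction_forall_of_frequently hsel
  have hw0 : ∀ n, (U n ∩ C).Infinite →
      w (2 * n) ∈ V n ∧ ∀ j ≤ n, (U j ∩ C).Finite → w (2 * n) ∉ V j := by
    intro n hn
    have e : 2 * n / 2 = n := by omega
    have h' := (hwsel (2 * n)).1 (by omega)
    rw [e] at h'
    exact h' hn
  have hw1 : ∀ n, (U n ∩ Cᶜ).Infinite →
      w (2 * n + 1) ∈ V n ∧ ∀ j ≤ n, (U j ∩ Cᶜ).Finite → w (2 * n + 1) ∉ V j := by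
    intro n hn
    have e : (2 * n + 1) / 2 = n := by omega
    have h' := (hwsel (2 * n + 1)).2 (by omega)
    rw [e] at h'
    exact h' hn
  let D : Set ℕ := {m | ((∃ n, (U n ∩ Cᶜ).Finite ∧ m ∈ V n ∧ ∀ j ≤ n, (U j ∩ C).Finite → m ∉ V j) ∨
    ∃ n, (U n ∩ C).Infinite ∧ m = w (2 * n)) ∧ ¬ ∃ n, (U n ∩ Cᶜ).Infinite ∧ m = w (2 * n + 1)}
  have hcd : ∀ n j, (U n ∩ Cᶜ).Finite → (U j ∩ C).Finite → (V n ∩ V j).Finite := by
    intro n j hn hj
    refine hUV n j ((hn.union hj).subset ?_)
    rintro k ⟨h1, h2⟩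
    by_cases hk : k ∈ C
    · exact Or.inr ⟨h2, hk⟩
    · exact Or.inl ⟨h1, hk⟩
  have ha : ∀ n, (U n ∩ C).Finite → (V n ∩ D).Finite := by
    intro n hn
    refine (((finite_lt_nat n).biUnion (t := fun j => {k | (U j ∩ Cᶜ).Finite ∧ k ∈ V j ∩ V n})
      (fun j _ => ?_)).union ((finite_lt_nat n).image fun j => w (2 * j))).subset ?_
    · by_cases hj : (U j ∩ Cᶜ).Finite
      · exact (hcd j n hj hn).subset fun k hk => hk.2
      · convert finite_empty
        ext k
        simp [hj]
    · rintro m ⟨hmn, hm, -⟩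
      rcases hm with ⟨j, hj, hmj, hmj'⟩ | ⟨j, hj, rfl⟩
      · have hlt : j < n := by
          by_contra hlt
          exact hmj' n (not_lt.1 hlt) hn hmn
        exact Or.inl (mem_biUnion (x := j) hlt ⟨hj, hmj, hmn⟩)
      · have hlt : j < n := by
          by_contra hlt
          exact (hw0 j hj).2 n (not_lt.1 hlt) hn hmn
        exact Or.inr ⟨j, hlt, rfl⟩
  have hb : ∀ n, (U n ∩ Cᶜ).Finite → (V n \ D).Finite := by
    intro n hn
    refine (((finite_le_nat n).biUnion (t := fun j => {k | (U j ∩ C).Finite ∧ k ∈ V n ∩ V j})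
      (fun j _ => ?_)).union ((finite_lt_nat n).image fun j => w (2 * j + 1))).subset ?_
    · by_cases hj : (U j ∩ C).Finite
      · exact (hcd n j hn hj).subset fun k hk => hk.2
      · convert finite_empty
        ext k
        simp [hj]
    · rintro m ⟨hmn, hmD⟩
      by_cases h1 : ∃ j, (U j ∩ Cᶜ).Infinite ∧ m = w (2 * j + 1)
      · obtain ⟨j, hj, rfl⟩ := h1
        have hlt : j < n := by
          by_contra hlt
          exact (hw1 j hj).2 n (not_lt.1 hlt) hn hmn
        exact Or.inr ⟨j, hlt, rfl⟩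
      · have h2 : ¬ ∀ j ≤ n, (U j ∩ C).Finite → m ∉ V j := fun h2 =>
          hmD ⟨Or.inl ⟨n, hn, hmn, h2⟩, h1⟩
        push Not at h2
        obtain ⟨j, hj, hj', hmj⟩ := h2
        exact Or.inl (mem_biUnion (x := j) hj ⟨hj', hmn, hmj⟩)
  have hc : ∀ n, (U n ∩ C).Infinite → (V n ∩ D).Infinite := by
    intro n hn
    refine ((hPinf n).image (f := fun m => w (2 * m)) ?_).mono ?_
    · intro a _ b _ hab
      have := hw.injective hab
      omega
    · rintro _ ⟨m, hm, rfl⟩
      have hUm : U m = U n := by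
        change atom B (P m).1 ↑(P m).2 = atom B (P n).1 ↑(P n).2
        rw [show P m = P n from hm]
      have hVm : V m = V n := by
        change atom A (P m).1 ↑(P m).2 = atom A (P n).1 ↑(P n).2
        rw [show P m = P n from hm]
      have hm' : (U m ∩ C).Infinite := hUm ▸ hn
      refine ⟨hVm ▸ (hw0 m hm').1, Or.inr ⟨m, hm', rfl⟩, ?_⟩
      rintro ⟨m', -, he⟩
      have := hw.injective he
      omega
  have hd : ∀ n, (U n ∩ Cᶜ).Infinite → (V n \ D).Infinite := by
    intro n hn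
    refine ((hPinf n).image (f := fun m => w (2 * m + 1)) ?_).mono ?_
    · intro a _ b _ hab
      have := hw.injective hab
      omega
    · rintro _ ⟨m, hm, rfl⟩
      have hUm : U m = U n := by
        change atom B (P m).1 ↑(P m).2 = atom B (P n).1 ↑(P n).2
        rw [show P m = P n from hm]
      have hVm : V m = V n := by
        change atom A (P m).1 ↑(P m).2 = atom A (P n).1 ↑(P n).2
        rw [show P m = P n from hm]
      have hm' : (U m ∩ Cᶜ).Infinite := hUm ▸ hn
      exact ⟨hVm ▸ (hw1 m hm').1, fun hD => hD.2 ⟨m, hm', rfl⟩⟩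
  refine ⟨D, fun s hs v => ?_⟩
  obtain ⟨n, hn⟩ := hPs (s, s.filter (· ∈ v)) hs
    (fun i hi => hs i (Finset.mem_filter.1 hi).1)
  have hUn : atom B s v = U n := by
    change atom B s v = atom B (P n).1 ↑(P n).2
    rw [hn]
    ext k
    refine forall_congr' fun i => forall_congr' fun hi => ?_
    simp [hi]
  have hVn : atom A s v = V n := by
    change atom A s v = atom A (P n).1 ↑(P n).2
    rw [hn]
    ext k
    refine forall_congr' fun i => forall_congr' fun hi => ?_
    simp [hi]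
  rw [hUn, hVn, sdiff_eq (x := U n)]
  exact ⟨⟨ha n, fun h => by_contra fun h' => hc n h' h⟩,
    ⟨hb n, fun h => by_contra fun h' => hd n h' h⟩⟩

/-- Dependent choice along a well-founded transitive relation. -/
theorem exists_rec {W S : Type*} [Nonempty S] [LinearOrder W] [WellFoundedLT W]
    (Q : W → (W → S) → S → Prop)
    (hcongr : ∀ c f g, (∀ i, i < c → f i = g i) → ∀ q, Q c f q → Q c g q)
    (hext : ∀ c (f : W → S), (∀ i, i < c → Q i f (f i)) → ∃ q, Q c f q) :
    ∃ f : W → S, ∀ c, Q c f (f c) := by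
  classical
  let ex : ∀ c : W, (∀ i, i < c → S) → W → S := fun c ih i =>
    if h : i < c then ih i h else Classical.arbitrary S
  let F : ∀ c : W, (∀ i, i < c → S) → S := fun c ih =>
    if h : ∃ q, Q c (ex c ih) q then h.choose else Classical.arbitrary S
  let f : W → S := (wellFounded_lt (α := W)).fix F
  have hf : ∀ c, f c = F c (fun i _ => f i) := fun c => WellFounded.fix_eq _ F c
  refine ⟨f, fun c => ?_⟩
  induction c using WellFoundedLT.induction with
  | ind c ih =>
    have hex : ∀ i, i < c → ex c (fun i _ => f i) i = f i := fun i hi => dif_pos hi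
    have h1 : ∃ q, Q c (ex c (fun i _ => f i)) q := by
      refine hext c _ fun i hi => ?_
      rw [hex i hi]
      exact hcongr i f _ (fun j hj => (hex j (hj.trans hi)).symm) _ (ih i hi)
    have h2 : f c = h1.choose := by
      rw [hf c]
      exact dif_pos h1
    rw [h2]
    exact hcongr c _ f hex _ h1.choose_spec

theorem atom_insert {B : I → Set κ} [DecidableEq I] (i : I) (s : Finset I) (v : Set I) :
    (i ∈ v → atom B (insert i s) v = atom B s v ∩ B i) ∧
    (i ∉ v → atom B (insert i s) v = atom B s v \ B i) := by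
  constructor
  · intro hi
    ext k
    simp only [atom, Finset.mem_insert, forall_eq_or_imp]
    constructor
    · rintro ⟨h1, h2⟩
      exact ⟨h2, h1.2 hi⟩
    · rintro ⟨h1, h2⟩
      exact ⟨⟨fun _ => hi, fun _ => h2⟩, h1⟩
  · intro hi
    ext k
    simp only [atom, Finset.mem_insert, forall_eq_or_imp]
    constructor
    · rintro ⟨h1, h2⟩
      exact ⟨h2, fun h => hi (h1.1 h)⟩
    · rintro ⟨h1, h2⟩
      exact ⟨⟨fun h => absurd h h2, fun h => absurd h hi⟩, h1⟩

theorem simOn_of_step {W : Type*} [LinearOrder W] [Infinite κ] {B : W → Set κ} {A : W → Set ℕ}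
    {J : Set W} (hJ : ∀ i ∈ J, ∀ s : Finset W, (∀ j ∈ s, j < i) → ∀ v : Set W,
      ((atom B s v ∩ B i).Finite ↔ (atom A s v ∩ A i).Finite) ∧
      ((atom B s v \ B i).Finite ↔ (atom A s v \ A i).Finite)) : SimOn J B A := by
  classical
  intro s hs v
  rcases s.eq_empty_or_nonempty with rfl | hne
  · have h1 : atom B ∅ v = univ := by
      ext k
      simp [atom]
    have h2 : atom A ∅ v = univ := by
      ext k
      simp [atom]
    rw [h1, h2]
    exact ⟨fun h => absurd h infinite_univ, fun h => absurd h infinite_univ⟩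
  · obtain ⟨i, hi, hmax⟩ : ∃ i ∈ s, ∀ j ∈ s, j ≤ i := ⟨s.max' hne, s.max'_mem hne, s.le_max'⟩
    have hlt : ∀ j ∈ s.erase i, j < i := fun j hj =>
      lt_of_le_of_ne (hmax j (Finset.mem_of_mem_erase hj)) (Finset.ne_of_mem_erase hj)
    have h := hJ i (hs i hi) (s.erase i) hlt v
    rw [← Finset.insert_erase hi]
    by_cases hv : i ∈ v
    · rw [(atom_insert i _ v).1 hv, (atom_insert i _ v).1 hv]
      exact h.1
    · rw [(atom_insert i _ v).2 hv, (atom_insert i _ v).2 hv]
      exact h.2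

theorem atom_congr {f g : I → Set κ} {s : Finset I} (h : ∀ i ∈ s, f i = g i) (v : Set I) :
    atom f s v = atom g s v := by
  ext k
  refine forall_congr' fun i => forall_congr' fun hi => ?_
  rw [h i hi]

/-- **Parovichenko.** Let the index set be well-ordered with countable initial segments. Every
family of subsets of an infinite set has the same pattern of finite Boolean combinations as some
family of subsets of `ω`. -/
theorem exists_sim {W : Type*} [LinearOrder W] [WellFoundedLT W] (hW : ∀ c : W, (Iio c).Countable)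
    [Infinite κ] (B : W → Set κ) : ∃ A : W → Set ℕ, SimOn univ B A := by
  classical
  let Q : W → (W → Set ℕ) → Set ℕ → Prop := fun c A D =>
    ∀ s : Finset W, (∀ i ∈ s, i < c) → ∀ v : Set W,
      ((atom B s v ∩ B c).Finite ↔ (atom A s v ∩ D).Finite) ∧
      ((atom B s v \ B c).Finite ↔ (atom A s v \ D).Finite)
  have h1 : ∀ c f g, (∀ i, i < c → f i = g i) → ∀ q, Q c f q → Q c g q := by
    intro c f g hfg q hq s hs v
    rw [← atom_congr (fun i hi => hfg i (hs i hi)) v]
    exact hq s hs v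
  have h2 : ∀ c (f : W → Set ℕ), (∀ i, i < c → Q i f (f i)) → ∃ q, Q c f q := fun c f hf =>
    exists_step (hW c) (simOn_of_step hf) (B c)
  obtain ⟨A, hA⟩ := exists_rec Q h1 h2
  exact ⟨A, simOn_of_step fun i _ => hA i⟩

end Pool.Agent.Work.MP_16b18c_lc
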