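import Pool.Agent.Work.MP_16b18c_lc.ColAlg
import Pool.Agent.Work.MP_16b18c_lc.Parov

/-!
Finite partial bijections with promises, and the sets they match.
-/

namespace Pool.Agent.Work.MP_16b18c_lc

open Set Filter

variable {κ lam I : Type*}

/-- A finite set of pairs together with a finite set of indices. -/
structure St (κ lam I : Type*) where
  /-- The pairs. -/
  R : Set (κ × lam)
  /-- The indices. -/
  s : Finset I

/-- The domain of a set of pairs. -/
def dm (R : Set (κ × lam)) : Set κ := {k | ∃ m, (k, m) ∈ R}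

/-- The range of a set of pairs. -/
def rn (R : Set (κ × lam)) : Set lam := {m | ∃ k, (k, m) ∈ R}

theorem mem_dm {R : Set (κ × lam)} {k : κ} {m : lam} (h : (k, m) ∈ R) : k ∈ dm R := ⟨m, h⟩

theorem mem_rn {R : Set (κ × lam)} {k : κ} {m : lam} (h : (k, m) ∈ R) : m ∈ rn R := ⟨k, h⟩

theorem dm_finite {R : Set (κ × lam)} (h : R.Finite) : (dm R).Finite :=
  (h.image Prod.fst).subset (by rintro k ⟨m, hm⟩; exact ⟨(k, m), hm, rfl⟩)

theorem rn_finite {R : Set (κ × lam)} (h : R.Finite) : (rn R).Finite :=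
  (h.image Prod.snd).subset (by rintro m ⟨k, hk⟩; exact ⟨(k, m), hk, rfl⟩)

/-- The set of pairs is a finite partial bijection, and the finite Boolean combinations of the
sets with the chosen indices are exhausted by it. -/
structure St.Ok (B : I → Set κ) (A : I → Set lam) (q : St κ lam I) : Prop where
  fin : q.R.Finite
  pb : ∀ k m k' m', (k, m) ∈ q.R → (k', m') ∈ q.R → (k = k' ↔ m = m')
  left : ∀ v, (atom B q.s v).Finite → atom B q.s v ⊆ dm q.R
  right : ∀ v, (atom A q.s v).Finite → atom A q.s v ⊆ rn q.R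

/-- Extension of states: new pairs respect the sets with the old indices. -/
structure St.Le (B : I → Set κ) (A : I → Set lam) (q q' : St κ lam I) : Prop where
  sub : q.R ⊆ q'.R
  idx : q.s ⊆ q'.s
  new : ∀ k m, (k, m) ∈ q'.R → (k, m) ∉ q.R → ∀ i ∈ q.s, (k ∈ B i ↔ m ∈ A i)

theorem St.Le.refl (B : I → Set κ) (A : I → Set lam) (q : St κ lam I) : q.Le B A q :=
  ⟨Subset.rfl, Finset.Subset.refl _, fun _ _ h h' => absurd h h'⟩

theorem St.Le.trans {B : I → Set κ} {A : I → Set lam} {q q' q'' : St κ lam I}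
    (h : q.Le B A q') (h' : q'.Le B A q'') : q.Le B A q'' := by
  refine ⟨h.sub.trans h'.sub, h.idx.trans h'.idx, fun k m hk hk' i hi => ?_⟩
  by_cases hq : (k, m) ∈ q'.R
  · exact h.new k m hq hk' i hi
  · exact h'.new k m hk hq i (h.idx hi)

/-- The state seen from the other side. -/
def St.swap (q : St κ lam I) : St lam κ I := ⟨{p | (p.2, p.1) ∈ q.R}, q.s⟩

theorem St.Ok.swap {B : I → Set κ} {A : I → Set lam} {q : St κ lam I} (h : q.Ok B A) :
    q.swap.Ok A B where
  fin := by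
    have h' := h.fin.preimage (f := (Prod.swap : lam × κ → κ × lam))
      (Prod.swap_injective.injOn)
    exact h'
  pb := fun k m k' m' h1 h2 => (h.pb m k m' k' h1 h2).symm
  left := h.right
  right := h.left

theorem St.Le.swap {B : I → Set κ} {A : I → Set lam} {q q' : St κ lam I} (h : q.Le B A q') :
    q.swap.Le A B q'.swap :=
  ⟨fun _ hp => h.sub hp, h.idx, fun k m h1 h2 i hi => (h.new m k h1 h2 i hi).symm⟩

theorem St.swap_swap (q : St κ lam I) : q.swap.swap = q := rfl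

theorem SimOn.symm {J : Set I} {B : I → Set κ} {A : I → Set lam} (h : SimOn J B A) :
    SimOn J A B := fun s hs v => (h s hs v).symm

/-- One point can be added to the domain. -/
theorem St.exists_add_point {B : I → Set κ} {A : I → Set lam} (h : SimOn univ B A)
    {q : St κ lam I} (hq : q.Ok B A) (k : κ) :
    ∃ q' : St κ lam I, q'.Ok B A ∧ q.Le B A q' ∧ q'.s = q.s ∧ k ∈ dm q'.R := by
  classical
  by_cases hk : k ∈ dm q.R
  · exact ⟨q, hq, St.Le.refl B A q, rfl, hk⟩
  · have h1 : ¬ (atom B q.s {i | k ∈ B i}).Finite := fun hf =>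
      hk (hq.left _ hf fun i _ => Iff.rfl)
    have h2 : (atom A q.s {i | k ∈ B i}).Infinite := fun hf =>
      h1 ((h q.s (fun _ _ => mem_univ _) _).2 hf)
    obtain ⟨m, hm, hm'⟩ := h2.exists_notMem_finite (rn_finite hq.fin)
    clear h1 h2
    refine ⟨⟨insert (k, m) q.R, q.s⟩, ⟨hq.fin.insert _, ?_, ?_, ?_⟩,
      ⟨subset_insert _ _, Finset.Subset.refl _, ?_⟩, rfl, ⟨m, mem_insert _ _⟩⟩
    · intro a b a' b' h1 h2
      rcases h1 with h1 | h1 <;> rcases h2 with h2 | h2
      · obtain ⟨rfl, rfl⟩ := Prod.ext_iff.1 h1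
        obtain ⟨rfl, rfl⟩ := Prod.ext_iff.1 h2
        simp
      · obtain ⟨rfl, rfl⟩ := Prod.ext_iff.1 h1
        constructor
        · rintro rfl
          exact absurd (mem_dm h2) hk
        · rintro rfl
          exact absurd (mem_rn h2) hm'
      · obtain ⟨rfl, rfl⟩ := Prod.ext_iff.1 h2
        constructor
        · rintro rfl
          exact absurd (mem_dm h1) hk
        · rintro rfl
          exact absurd (mem_rn h1) hm'
      · exact hq.pb a b a' b' h1 h2
    · intro v hv a ha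
      obtain ⟨b, hb⟩ := hq.left v hv ha
      exact ⟨b, mem_insert_of_mem _ hb⟩
    · intro v hv b hb
      obtain ⟨a, ha⟩ := hq.right v hv hb
      exact ⟨a, mem_insert_of_mem _ ha⟩
    · intro a b h1 h2 i hi
      rcases h1 with h1 | h1
      · obtain ⟨rfl, rfl⟩ := Prod.ext_iff.1 h1
        exact (hm i hi).symm
      · exact absurd h1 h2

theorem St.exists_add_set {B : I → Set κ} {A : I → Set lam} (h : SimOn univ B A)
    {q : St κ lam I} (hq : q.Ok B A) {K : Set κ} (hK : K.Finite) :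
    ∃ q' : St κ lam I, q'.Ok B A ∧ q.Le B A q' ∧ q'.s = q.s ∧ K ⊆ dm q'.R := by
  induction K, hK using Set.Finite.induction_on with
  | empty => exact ⟨q, hq, St.Le.refl B A q, rfl, empty_subset _⟩
  | insert _ _ ih =>
    obtain ⟨q1, h1, h2, hs, h3⟩ := ih
    obtain ⟨q2, h4, h5, hs', h6⟩ := St.exists_add_point h h1 _
    refine ⟨q2, h4, h2.trans h5, hs'.trans hs, insert_subset h6 fun a ha => ?_⟩
    obtain ⟨b, hb⟩ := h3 ha
    exact ⟨b, h5.sub hb⟩

theorem St.exists_add_set' {B : I → Set κ} {A : I → Set lam} (h : SimOn univ B A)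
    {q : St κ lam I} (hq : q.Ok B A) {L : Set lam} (hL : L.Finite) :
    ∃ q' : St κ lam I, q'.Ok B A ∧ q.Le B A q' ∧ q'.s = q.s ∧ L ⊆ rn q'.R := by
  obtain ⟨q', h1, h2, hs, h3⟩ := St.exists_add_set h.symm hq.swap hL
  exact ⟨q'.swap, h1.swap, h2.swap, hs, h3⟩

theorem finite_atoms (B : I → Set κ) (u : Finset I) :
    {k | (atom B u {i | k ∈ B i}).Finite}.Finite := by
  classical
  refine ((u.finite_toSet.finite_subsets).biUnion
    (t := fun v => {k | (atom B u v).Finite ∧ k ∈ atom B u v}) (fun v _ => ?_)).subset ?_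
  · by_cases hv : (atom B u v).Finite
    · exact hv.subset fun k hk => hk.2
    · convert finite_empty
      ext k
      simp [hv]
  · intro k hk
    have he : atom B u {i | k ∈ B i} = atom B u {i | i ∈ u ∧ k ∈ B i} := by
      ext a
      refine forall_congr' fun i => forall_congr' fun hi => ?_
      exact iff_congr Iff.rfl ⟨fun h => ⟨hi, h⟩, fun h => h.2⟩
    refine mem_biUnion (x := {i | i ∈ u ∧ k ∈ B i}) (fun i hi => hi.1) ⟨he ▸ hk, ?_⟩
    exact fun i hi => ⟨fun h => ⟨hi, h⟩, fun h => h.2⟩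

/-- States can be extended to contain prescribed finite sets in the domain, the range and the
set of indices. -/
theorem St.exists_ext {B : I → Set κ} {A : I → Set lam} (h : SimOn univ B A)
    {q : St κ lam I} (hq : q.Ok B A) {K : Set κ} (hK : K.Finite) {L : Set lam} (hL : L.Finite)
    {t : Set I} (ht : t.Finite) :
    ∃ q' : St κ lam I, q'.Ok B A ∧ q.Le B A q' ∧ K ⊆ dm q'.R ∧ L ⊆ rn q'.R ∧ t ⊆ ↑q'.s := by
  classical
  let u : Finset I := q.s ∪ ht.toFinset
  obtain ⟨q1, h1, h2, hs1, h3⟩ := St.exists_add_set h hq (hK.union (finite_atoms B u))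
  obtain ⟨q2, h4, h5, hs2, h6⟩ := St.exists_add_set' h h1 (hL.union (finite_atoms A u))
  have h7 : ∀ a ∈ dm q1.R, a ∈ dm q2.R := by
    rintro a ⟨b, hb⟩
    exact ⟨b, h5.sub hb⟩
  have hle := h2.trans h5
  refine ⟨⟨q2.R, u⟩, ⟨h4.fin, h4.pb, fun v hv k hk => ?_, fun v hv m hm => ?_⟩,
    ⟨hle.sub, Finset.subset_union_left, hle.new⟩, fun k hk => h7 k (h3 (Or.inl hk)),
    fun m hm => h6 (Or.inl hm), fun i hi => ?_⟩
  · refine h7 k (h3 (Or.inr ?_))
    refine hv.subset fun a ha i hi => ?_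
    exact (ha i hi).trans (hk i hi)
  · refine h6 (Or.inr ?_)
    refine hv.subset fun a ha i hi => ?_
    exact (ha i hi).trans (hm i hi)
  · exact Finset.mem_coe.2 (Finset.mem_union_right _ (ht.mem_toFinset.2 hi))

/-- The set `Y` is matched with the set `X` by the state `q`. -/
def Match (B : I → Set κ) (A : I → Set lam) (q : St κ lam I) (X : Set κ) (Y : Set lam) : Prop :=
  (∀ k m, (k, m) ∈ q.R → (k ∈ X ↔ m ∈ Y)) ∧
    ∃ i ∈ q.s, (∀ k ∉ dm q.R, (k ∈ X ↔ k ∈ B i)) ∧ ∀ m ∉ rn q.R, (m ∈ Y ↔ m ∈ A i)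

theorem Match.swap {B : I → Set κ} {A : I → Set lam} {q : St κ lam I} {X : Set κ} {Y : Set lam}
    (h : Match B A q X Y) : Match A B q.swap Y X := by
  obtain ⟨h1, i, hi, h2, h3⟩ := h
  exact ⟨fun m k hk => (h1 k m hk).symm, i, hi, h3, h2⟩

theorem Match.mono {B : I → Set κ} {A : I → Set lam} {q q' : St κ lam I} {X : Set κ} {Y : Set lam}
    (h : Match B A q X Y) (hq' : q'.Ok B A) (hle : q.Le B A q') : Match B A q' X Y := by
  obtain ⟨h1, i, hi, h2, h3⟩ := h
  refine ⟨fun k m hk => ?_, i, hle.idx hi, fun k hk => h2 k ?_, fun m hm => h3 m ?_⟩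
  · by_cases hq : (k, m) ∈ q.R
    · exact h1 k m hq
    · have hk1 : k ∉ dm q.R := by
        rintro ⟨m', hm'⟩
        have := (hq'.pb k m' k m (hle.sub hm') hk).1 rfl
        exact hq (this ▸ hm')
      have hm1 : m ∉ rn q.R := by
        rintro ⟨k', hk'⟩
        have := (hq'.pb k' m k m (hle.sub hk') hk).2 rfl
        exact hq (this ▸ hk')
      rw [h2 k hk1, h3 m hm1]
      exact hle.new k m hk hq i hi
  · rintro ⟨m, hm⟩
    exact hk ⟨m, hle.sub hm⟩
  · rintro ⟨k, hk⟩
    exact hm ⟨k, hle.sub hk⟩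

theorem Match.subset {B : I → Set κ} {A : I → Set lam} (h : SimOn univ B A) {q : St κ lam I}
    (hq : q.Ok B A) {X X' : Set κ} {Y Y' : Set lam} (h1 : Match B A q X Y)
    (h2 : Match B A q X' Y') (hX : X ⊆ X') : Y ⊆ Y' := by
  obtain ⟨h1, i, hi, hi1, hi2⟩ := h1
  obtain ⟨h2, j, hj, hj1, hj2⟩ := h2
  intro m hm
  by_cases hmr : m ∈ rn q.R
  · obtain ⟨k, hk⟩ := hmr
    exact (h2 k m hk).1 (hX ((h1 k m hk).2 hm))
  · rw [hj2 m hmr]
    by_contra hmj
    have hmi := (hi2 m hmr).1 hm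
    have h3 : ¬ (atom A q.s {i | m ∈ A i}).Finite := fun hf =>
      hmr (hq.right _ hf fun i _ => Iff.rfl)
    have h4 : (atom B q.s {i | m ∈ A i}).Infinite := fun hf =>
      h3 ((h q.s (fun _ _ => mem_univ _) _).1 hf)
    obtain ⟨k, hk, hk'⟩ := h4.exists_notMem_finite (dm_finite hq.fin)
    have hkX : k ∈ X := (hi1 k hk').2 ((hk i hi).2 hmi)
    exact hmj ((hk j hj).1 ((hj1 k hk').1 (hX hkX)))

theorem Match.subset_iff {B : I → Set κ} {A : I → Set lam} (h : SimOn univ B A) {q : St κ lam I}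
    (hq : q.Ok B A) {X X' : Set κ} {Y Y' : Set lam} (h1 : Match B A q X Y)
    (h2 : Match B A q X' Y') : X ⊆ X' ↔ Y ⊆ Y' :=
  ⟨h1.subset h hq h2, h1.swap.subset h.symm hq.swap h2.swap⟩

theorem exists_match {B : I → Set κ} {A : I → Set lam} {q : St κ lam I}
    (hq : q.Ok B A) {X : Set κ} {i : I} (hi : i ∈ q.s) (hX : symmDiff X (B i) ⊆ dm q.R) :
    ∃ Y : Set lam, Match B A q X Y := by
  refine ⟨{m | (∃ k, (k, m) ∈ q.R ∧ k ∈ X) ∨ (m ∉ rn q.R ∧ m ∈ A i)}, fun k m hk => ?_, i, hi,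
    fun k hk => ?_, fun m hm => ?_⟩
  · constructor
    · intro h
      exact Or.inl ⟨k, hk, h⟩
    · rintro (⟨k', hk', h⟩ | ⟨h, -⟩)
      · have := (hq.pb k' m k m hk' hk).2 rfl
        exact this ▸ h
      · exact absurd (mem_rn hk) h
  · by_contra hne
    refine hk (hX ?_)
    rw [mem_symmDiff]
    tauto
  · constructor
    · rintro (⟨k', hk', -⟩ | ⟨-, h⟩)
      · exact absurd (mem_rn hk') hm
      · exact h
    · intro h
      exact Or.inr ⟨hm, h⟩

theorem exists_match' {B : I → Set κ} {A : I → Set lam} {q : St κ lam I}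
    (hq : q.Ok B A) {Y : Set lam} {i : I} (hi : i ∈ q.s) (hY : symmDiff Y (A i) ⊆ rn q.R) :
    ∃ X : Set κ, Match B A q X Y := by
  obtain ⟨X, hX⟩ := exists_match hq.swap (X := Y) (i := i) hi hY
  exact ⟨X, hX.swap⟩

theorem Match.symmDiff_finite {B : I → Set κ} {A : I → Set lam} {q : St κ lam I}
    (hq : q.Ok B A) {X : Set κ} {Y : Set lam} (h : Match B A q X Y) :
    ∃ i, (symmDiff X (B i)).Finite ∧ (symmDiff Y (A i)).Finite := by
  obtain ⟨-, i, -, h2, h3⟩ := h
  refine ⟨i, (dm_finite hq.fin).subset fun k hk => ?_, (rn_finite hq.fin).subset fun m hm => ?_⟩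
  · by_contra hk'
    have := h2 k hk'
    rw [mem_symmDiff] at hk
    tauto
  · by_contra hm'
    have := h3 m hm'
    rw [mem_symmDiff] at hm
    tauto

end Pool.Agent.Work.MP_16b18c_lc
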