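import Pool.Agent.Work.MP_16b18c_lc.Basic

/-!
Groups of automorphisms of `P(ω)/Fin` obtained from an isomorphism `P(ω)/Fin ≃ P(κ)/Fin`.
-/

namespace Pool.Agent.Work.MP_16b18c_lc

open Set

/-! ### Automorphisms induced by a map form a group -/

theorem isInduced_mul {θ θ' : PFin ℕ ≃o PFin ℕ} (h : IsInduced θ) (h' : IsInduced θ') :
    IsInduced (θ * θ') := by
  obtain ⟨f, hf⟩ := h
  obtain ⟨f', hf'⟩ := h'
  refine ⟨f' ∘ f, fun A => ?_⟩
  change θ (θ' (PFin.mk A)) = _
  rw [hf', hf]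
  rfl

theorem isInduced_inv {θ : PFin ℕ ≃o PFin ℕ} (h : IsInduced θ) : IsInduced θ⁻¹ := by
  classical
  obtain ⟨f, hf⟩ := h
  have hfib : ∀ m, (f ⁻¹' {m}).Finite := by
    intro m
    have h1 := hf {m}
    have h2 := hf ∅
    rw [mk_finite_iff.2 (Set.finite_singleton m)] at h1
    rw [h1, Set.preimage_empty] at h2
    exact mk_finite_iff.1 h2
  let g : ℕ → ℕ := fun m => if h : ∃ n, f n = m then h.choose else 0
  have hg : ∀ n, f (g (f n)) = f n := by
    intro n
    have h : ∃ k, f k = f n := ⟨n, rfl⟩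
    have h1 : g (f n) = h.choose := dif_pos h
    rw [h1]
    exact h.choose_spec
  have hD : {n | g (f n) ≠ n}.Finite := by
    by_contra hinf
    obtain ⟨B, hB⟩ := PFin.exists_rep (θ.symm (PFin.mk {n | g (f n) ≠ n}))
    have h1 : θ (PFin.mk B) = PFin.mk {n | g (f n) ≠ n} := by
      rw [hB, OrderIso.apply_symm_apply]
    rw [hf, PFin.mk_eq] at h1
    have h2 : ({n | g (f n) ≠ n} ∩ f ⁻¹' B).Infinite := by
      intro hfin
      refine hinf ((hfin.union h1).subset ?_)
      intro n hn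
      simp only [Set.mem_union, Set.mem_inter_iff, Set.mem_symmDiff]
      by_cases hnB : n ∈ f ⁻¹' B
      · exact Or.inl ⟨hn, hnB⟩
      · exact Or.inr (Or.inr ⟨hn, hnB⟩)
    have h3 : ((fun n => g (f n)) '' ({n | g (f n) ≠ n} ∩ f ⁻¹' B)).Finite := by
      refine h1.subset ?_
      rintro _ ⟨n, ⟨hn, hnB⟩, rfl⟩
      refine Or.inl ⟨?_, ?_⟩
      · change f (g (f n)) ∈ B
        rw [hg]
        exact hnB
      · intro hc
        exact hc (by rw [hg])
    have h4 : (f '' ({n | g (f n) ≠ n} ∩ f ⁻¹' B)).Finite := by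
      refine (h3.image f).subset ?_
      rintro _ ⟨n, hn, rfl⟩
      exact ⟨g (f n), ⟨n, hn, rfl⟩, hg n⟩
    refine h2 ((h4.biUnion (t := fun m => f ⁻¹' {m}) fun m _ => hfib m).subset ?_)
    intro n hn
    exact Set.mem_biUnion (x := f n) ⟨n, hn, rfl⟩ rfl
  refine ⟨g, fun A => ?_⟩
  change θ.symm (PFin.mk A) = PFin.mk (g ⁻¹' A)
  rw [OrderIso.symm_apply_eq, hf, PFin.mk_eq]
  refine hD.subset ?_
  intro n hn
  simp only [Set.mem_symmDiff, Set.mem_preimage, Set.mem_ofPred_eq] at hn ⊢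
  intro hc
  rw [hc] at hn
  tauto

/-! ### Transport along a bijection -/

/-- A bijection induces an isomorphism of the algebras modulo finite sets. -/
def congr {α β : Type*} (e : α ≃ β) : PFin α ≃o PFin β where
  toFun := Quotient.map (sa := finSetoid α) (sb := finSetoid β) (fun A => e '' A) (by
    intro A B h
    have h' : (symmDiff A B).Finite := h
    change (symmDiff (e '' A) (e '' B)).Finite
    rw [← Set.image_symmDiff e.injective]
    exact h'.image _)
  invFun := Quotient.map (sa := finSetoid β) (sb := finSetoid α) (fun A => e.symm '' A) (by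
    intro A B h
    have h' : (symmDiff A B).Finite := h
    change (symmDiff (e.symm '' A) (e.symm '' B)).Finite
    rw [← Set.image_symmDiff e.symm.injective]
    exact h'.image _)
  left_inv := by
    intro x
    induction x using PFin.ind with
    | h A =>
      change PFin.mk (e.symm '' (e '' A)) = PFin.mk A
      rw [← Set.image_comp]
      simp
  right_inv := by
    intro x
    induction x using PFin.ind with
    | h A =>
      change PFin.mk (e '' (e.symm '' A)) = PFin.mk A
      rw [← Set.image_comp]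
      simp
  map_rel_iff' := by
    intro x y
    induction x using PFin.ind with
    | h A =>
      induction y using PFin.ind with
      | h B =>
        change ((e '' A) \ (e '' B)).Finite ↔ (A \ B).Finite
        rw [← Set.image_sdiff e.injective]
        exact Set.finite_image_iff e.injective.injOn

/-! ### Permutations given slice by slice -/

/-- The permutation of `Y × (κ × κ)` that acts as `F η` on `Y × {(η, ζ)}`. -/
def slice (Y κ : Type*) : (κ → Equiv.Perm Y) →* Equiv.Perm (Y × (κ × κ)) where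
  toFun := fun F =>
    { toFun := fun p => (F p.2.1 p.1, p.2)
      invFun := fun p => ((F p.2.1).symm p.1, p.2)
      left_inv := fun p => by simp
      right_inv := fun p => by simp }
  map_one' := by
    ext p <;> rfl
  map_mul' := by
    intro F G
    ext p <;> rfl

theorem slice_apply {Y κ : Type*} (F : κ → Equiv.Perm Y) (y : Y) (η ζ : κ) :
    slice Y κ F (y, (η, ζ)) = (F η y, (η, ζ)) := rfl

theorem not_isInduced_of_chain {Y κ : Type*} [Uncountable κ]
    (Φ : PFin ℕ ≃o PFin (Y × (κ × κ))) (F : κ → Equiv.Perm Y) (η : κ) (y : ℕ → Y)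
    (hy : Function.Injective y) (h : ∀ k, F η (y k) = y (k + 1) ∨ F η (y (k + 1)) = y k) :
    ¬ IsInduced (transport Φ (slice Y κ F)) := by
  rintro ⟨f, hf⟩
  have hcorr : ∀ (i : Unit) (A : Set ℕ) (B : Set (Y × (κ × κ))), Φ (PFin.mk A) = PFin.mk B →
      Φ (PFin.mk ((fun _ : Unit => f) i ⁻¹' A)) =
        PFin.mk ((fun _ : Unit => ((slice Y κ F).symm : Y × (κ × κ) → Y × (κ × κ))) i ⁻¹' B) := by
    intro _ A B hAB
    change Φ (PFin.mk (f ⁻¹' A)) = PFin.mk ((slice Y κ F).symm ⁻¹' B)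
    rw [← hf A, transport_apply, OrderIso.apply_symm_apply, hAB, permIso_mk,
      Equiv.image_eq_preimage_symm]
  have hc := infPart_countable Φ hcorr
  have h1 : ∀ ζ : κ, (y 0, (η, ζ)) ∈ infPart
      (fun _ : Unit => ((slice Y κ F).symm : Y × (κ × κ) → Y × (κ × κ))) := by
    intro ζ
    have h2 : ∀ k, pr (fun _ : Unit => ((slice Y κ F).symm : Y × (κ × κ) → Y × (κ × κ)))
        (y 0, (η, ζ)) = pr _ (y k, (η, ζ)) := by
      intro k
      induction k with
      | zero => rfl
      | succ k ih =>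
        rw [ih]
        rcases h k with hk | hk
        · have h3 : (slice Y κ F).symm (y (k + 1), (η, ζ)) = (y k, (η, ζ)) := by
            rw [Equiv.symm_apply_eq, slice_apply, hk]
          rw [← h3]
          exact pr_step (fun _ : Unit => ((slice Y κ F).symm : Y × (κ × κ) → Y × (κ × κ))) ()
            (y (k + 1), (η, ζ))
        · have h3 : (slice Y κ F).symm (y k, (η, ζ)) = (y (k + 1), (η, ζ)) := by
            rw [Equiv.symm_apply_eq, slice_apply, hk]
          rw [← h3]
          exact (pr_step (fun _ : Unit => ((slice Y κ F).symm : Y × (κ × κ) → Y × (κ × κ))) ()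
            (y k, (η, ζ))).symm
    have h4 : (Set.range fun k => ((y k, (η, ζ)) : Y × (κ × κ))).Infinite := by
      refine Set.infinite_range_of_injective ?_
      intro a b hab
      exact hy (Prod.ext_iff.1 hab).1
    refine h4.mono ?_
    rintro _ ⟨k, rfl⟩
    exact mem_comp.2 (h2 k)
  have h5 : (Set.univ : Set κ).Countable := by
    refine Set.MapsTo.countable_of_injOn (f := fun ζ => ((y 0, (η, ζ)) : Y × (κ × κ)))
      (fun ζ _ => h1 ζ) ?_ hc
    intro a _ b _ hab
    simpa using hab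
  exact not_countable (Set.countable_univ_iff.1 h5)

/-! ### Meets, joins and complements -/

theorem corr_inter {X X' : Type*} (Φ : PFin X ≃o PFin X') {A A' : Set X} {B B' : Set X'}
    (h : Φ (PFin.mk A) = PFin.mk B) (h' : Φ (PFin.mk A') = PFin.mk B') :
    Φ (PFin.mk (A ∩ A')) = PFin.mk (B ∩ B') := by
  refine le_antisymm ?_ ?_
  · obtain ⟨D, hD⟩ := PFin.exists_rep (Φ (PFin.mk (A ∩ A')))
    have h1 : PFin.mk D ≤ PFin.mk B := by
      rw [hD, ← h, Φ.le_iff_le, PFin.mk_le]
      refine Set.finite_empty.subset ?_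
      intro x hx
      exact absurd hx.1.1 hx.2
    have h2 : PFin.mk D ≤ PFin.mk B' := by
      rw [hD, ← h', Φ.le_iff_le, PFin.mk_le]
      refine Set.finite_empty.subset ?_
      intro x hx
      exact absurd hx.1.2 hx.2
    rw [← hD, PFin.mk_le]
    refine ((PFin.mk_le.1 h1).union (PFin.mk_le.1 h2)).subset ?_
    intro x hx
    simp only [Set.mem_union, Set.mem_sdiff, Set.mem_inter_iff] at hx ⊢
    tauto
  · obtain ⟨D, hD⟩ := PFin.exists_rep (Φ.symm (PFin.mk (B ∩ B')))
    rw [← Φ.symm_apply_le, ← hD]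
    have h1 : PFin.mk D ≤ PFin.mk A := by
      rw [hD, ← Φ.le_iff_le, Φ.apply_symm_apply, h, PFin.mk_le]
      refine Set.finite_empty.subset ?_
      intro x hx
      exact absurd hx.1.1 hx.2
    have h2 : PFin.mk D ≤ PFin.mk A' := by
      rw [hD, ← Φ.le_iff_le, Φ.apply_symm_apply, h', PFin.mk_le]
      refine Set.finite_empty.subset ?_
      intro x hx
      exact absurd hx.1.2 hx.2
    rw [PFin.mk_le]
    refine ((PFin.mk_le.1 h1).union (PFin.mk_le.1 h2)).subset ?_
    intro x hx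
    simp only [Set.mem_union, Set.mem_sdiff, Set.mem_inter_iff] at hx ⊢
    tauto

theorem corr_empty {X X' : Type*} (Φ : PFin X ≃o PFin X') :
    Φ (PFin.mk ∅) = PFin.mk ∅ := by
  refine le_antisymm ?_ ?_
  · rw [← Φ.le_symm_apply]
    obtain ⟨D, hD⟩ := PFin.exists_rep (Φ.symm (PFin.mk (∅ : Set X')))
    rw [← hD, PFin.mk_le]
    simp
  · obtain ⟨D, hD⟩ := PFin.exists_rep (Φ (PFin.mk (∅ : Set X)))
    rw [← hD, PFin.mk_le]
    simp

theorem corr_compl {X X' : Type*} (Φ : PFin X ≃o PFin X') {A : Set X} {B : Set X'}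
    (h : Φ (PFin.mk A) = PFin.mk B) : Φ (PFin.mk Aᶜ) = PFin.mk Bᶜ := by
  obtain ⟨D, hD⟩ := PFin.exists_rep (Φ (PFin.mk Aᶜ))
  have h1 := corr_inter Φ h hD.symm
  rw [Set.inter_compl_self, corr_empty] at h1
  have h2 : (B ∩ D).Finite := mk_finite_iff.1 h1.symm
  obtain ⟨F, hF⟩ := PFin.exists_rep (Φ.symm (PFin.mk (B ∪ D)ᶜ))
  have hF' : Φ (PFin.mk F) = PFin.mk (B ∪ D)ᶜ := by rw [hF, Φ.apply_symm_apply]
  have h3 := corr_inter Φ h hF'
  have h4 := corr_inter Φ hD.symm hF'
  have h5 : B ∩ (B ∪ D)ᶜ = ∅ := by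
    ext x; simp only [Set.mem_inter_iff, Set.mem_compl_iff, Set.mem_union,
      Set.mem_empty_iff_false]; tauto
  have h6 : D ∩ (B ∪ D)ᶜ = ∅ := by
    ext x; simp only [Set.mem_inter_iff, Set.mem_compl_iff, Set.mem_union,
      Set.mem_empty_iff_false]; tauto
  rw [h5, ← corr_empty Φ, Φ.injective.eq_iff, mk_finite_iff] at h3
  rw [h6, ← corr_empty Φ, Φ.injective.eq_iff, mk_finite_iff] at h4
  have h7 : F.Finite := by
    refine (h3.union h4).subset ?_
    intro x hx
    simp only [Set.mem_union, Set.mem_inter_iff, Set.mem_compl_iff]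
    tauto
  rw [mk_finite_iff.2 h7, corr_empty] at hF'
  have h8 : ((B ∪ D)ᶜ).Finite := mk_finite_iff.1 hF'.symm
  rw [← hD, PFin.mk_eq]
  refine (h2.union h8).subset ?_
  intro x hx
  simp only [Set.mem_symmDiff, Set.mem_union, Set.mem_inter_iff, Set.mem_compl_iff] at hx ⊢
  tauto

theorem corr_union {X X' : Type*} (Φ : PFin X ≃o PFin X') {A A' : Set X} {B B' : Set X'}
    (h : Φ (PFin.mk A) = PFin.mk B) (h' : Φ (PFin.mk A') = PFin.mk B') :
    Φ (PFin.mk (A ∪ A')) = PFin.mk (B ∪ B') := by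
  have h1 := corr_compl Φ (corr_inter Φ (corr_compl Φ h) (corr_compl Φ h'))
  rwa [Set.compl_inter, Set.compl_inter, compl_compl, compl_compl, compl_compl, compl_compl] at h1

open Classical in
/-- If `π` acts by an automorphism induced by a map, then so does its restriction to an
invariant set. -/
theorem isInduced_restrict {N : Type*} (Φ : PFin ℕ ≃o PFin N) (π π' : Equiv.Perm N) (C : Set N)
    (hC : ∀ x, π x ∈ C ↔ x ∈ C) (hπ' : ∀ x, π' x = if x ∈ C then π x else x)
    (h : IsInduced (transport Φ π)) : IsInduced (transport Φ π') := by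
  obtain ⟨f, hf⟩ := h
  obtain ⟨Y, hY⟩ := PFin.exists_rep (Φ.symm (PFin.mk C))
  have hYC : Φ (PFin.mk Y) = PFin.mk C := by rw [hY, Φ.apply_symm_apply]
  refine ⟨fun n => if n ∈ Y then f n else n, fun A => ?_⟩
  obtain ⟨B, hB⟩ := PFin.exists_rep (Φ (PFin.mk A))
  have h1 : Φ (PFin.mk (f ⁻¹' A)) = PFin.mk (π '' B) := by
    rw [← hf A, transport_apply, Φ.apply_symm_apply, ← hB, permIso_mk]
  rw [transport_apply, Φ.symm_apply_eq, ← hB, permIso_mk]
  have h2 := corr_union Φ (corr_inter Φ hYC h1) (corr_inter Φ (corr_compl Φ hYC) hB.symm)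
  have h3 : (fun n => if n ∈ Y then f n else n) ⁻¹' A = Y ∩ f ⁻¹' A ∪ Yᶜ ∩ A := by
    ext n
    by_cases hn : n ∈ Y <;> simp [hn]
  have h4 : π' '' B = C ∩ π '' B ∪ Cᶜ ∩ B := by
    ext y
    constructor
    · rintro ⟨x, hx, rfl⟩
      rw [hπ' x]
      by_cases hxC : x ∈ C
      · rw [if_pos hxC]
        exact Or.inl ⟨(hC x).2 hxC, x, hx, rfl⟩
      · rw [if_neg hxC]
        exact Or.inr ⟨hxC, hx⟩
    · rintro (⟨hyC, x, hx, rfl⟩ | ⟨hyC, hy⟩)
      · refine ⟨x, hx, ?_⟩
        rw [hπ' x, if_pos ((hC x).1 hyC)]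
      · refine ⟨y, hy, ?_⟩
        rw [hπ' y, if_neg hyC]
  rw [h3, h4, h2]

/-! ### Two permutation representations of `Sym(κ)` -/

/-- `Sym(κ)` acting on the first coordinate of `κ × (κ →₀ ℤ)`. -/
def reg (κ : Type*) : Equiv.Perm κ →* Equiv.Perm (κ × (κ →₀ ℤ)) where
  toFun := fun g =>
    { toFun := fun p => (g p.1, p.2)
      invFun := fun p => (g.symm p.1, p.2)
      left_inv := fun p => by simp
      right_inv := fun p => by simp }
  map_one' := by
    ext p <;> simp
  map_mul' := by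
    intro g h
    ext p <;> simp

theorem reg_apply {κ : Type*} (g : Equiv.Perm κ) (x : κ) (v : κ →₀ ℤ) :
    reg κ g (x, v) = (g x, v) := rfl

/-- The permutation `(x, v) ↦ (x, v + e_x)`. -/
noncomputable def shift (κ : Type*) : Equiv.Perm (κ × (κ →₀ ℤ)) where
  toFun := fun p => (p.1, p.2 + Finsupp.single p.1 1)
  invFun := fun p => (p.1, p.2 - Finsupp.single p.1 1)
  left_inv := fun p => by simp
  right_inv := fun p => by simp

/-- The representation `reg` conjugated by `shift`. -/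
noncomputable def reg' (κ : Type*) : Equiv.Perm κ →* Equiv.Perm (κ × (κ →₀ ℤ)) :=
  (MulAut.conj (shift κ)).toMonoidHom.comp (reg κ)

theorem reg'_apply {κ : Type*} (g : Equiv.Perm κ) (x : κ) (v : κ →₀ ℤ) :
    reg' κ g (x, v) = (g x, v - Finsupp.single x 1 + Finsupp.single (g x) 1) := rfl

theorem reg_inv_reg' {κ : Type*} (g : Equiv.Perm κ) (x : κ) (v : κ →₀ ℤ) :
    ((reg κ g)⁻¹ * reg' κ g) (x, v) = (x, v + (Finsupp.single (g x) 1 - Finsupp.single x 1)) := by
  change (reg κ g).symm (reg' κ g (x, v)) = _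
  rw [Equiv.symm_apply_eq, reg'_apply, reg_apply]
  congr 1
  abel

theorem reg'_inv_reg {κ : Type*} (g : Equiv.Perm κ) (x : κ) (v : κ →₀ ℤ) :
    ((reg' κ g)⁻¹ * reg κ g) (x, v + (Finsupp.single (g x) 1 - Finsupp.single x 1)) = (x, v) := by
  have h1 := reg_inv_reg' g x v
  change (reg κ g).symm (reg' κ g (x, v)) = _ at h1
  change (reg' κ g).symm (reg κ g _) = _
  rw [Equiv.symm_apply_eq] at h1 ⊢
  exact h1.symm

open Classical in
/-- The representation of `Sym(κ)` by permutations of `(κ × (κ →₀ ℤ)) × (κ × κ)` indexed by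
`T ⊆ κ`: it acts by `reg` on the slices in `T` and by `reg'` on the others. -/
noncomputable def rep {κ : Type*} (T : Set κ) :
    Equiv.Perm κ →* Equiv.Perm ((κ × (κ →₀ ℤ)) × (κ × κ)) :=
  (slice (κ × (κ →₀ ℤ)) κ).comp (MonoidHom.pi fun η => if η ∈ T then reg κ else reg' κ)

/-- The index set `(κ × (κ →₀ ℤ)) × (κ × κ)` has the size of `κ`. -/
theorem nonempty_equiv (κ : Type*) [Infinite κ] :
    Nonempty (κ ≃ (κ × (κ →₀ ℤ)) × (κ × κ)) := by
  have h0 := Cardinal.aleph0_le_mk κ
  rw [← Cardinal.eq, Cardinal.mk_prod, Cardinal.mk_prod, Cardinal.mk_prod]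
  simp only [Cardinal.lift_id, Cardinal.mk_finsupp_lift_of_infinite, Cardinal.mul_eq_self h0,
    Cardinal.lift_uzero, Cardinal.mk_int, Cardinal.lift_aleph0, max_eq_left h0]

/-- There are at most `κ` finitely supported permutations of `κ`. -/
theorem mk_finite_perm_le (κ : Type*) [Infinite κ] :
    Cardinal.mk {g : Equiv.Perm κ | {x | g x ≠ x}.Finite} ≤ Cardinal.mk κ := by
  classical
  have h0 := Cardinal.aleph0_le_mk κ
  have h1 : Cardinal.mk (Finset (κ × κ)) = Cardinal.mk κ := by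
    rw [Cardinal.mk_finset_of_infinite, Cardinal.mk_prod, Cardinal.lift_id,
      Cardinal.mul_eq_self h0]
  rw [← h1]
  refine Cardinal.mk_le_of_injective (f := fun g => g.2.toFinset.image fun x => (x, g.1 x)) ?_
  intro g g' h
  apply Subtype.ext
  ext x
  have h2 : ∀ y, (x, y) ∈ g.2.toFinset.image (fun x => (x, g.1 x)) ↔
      (x, y) ∈ g'.2.toFinset.image (fun x => (x, g'.1 x)) := by
    intro y
    have h3 := congrArg (fun s => (x, y) ∈ s) h
    exact Iff.of_eq h3
  simp only [Finset.mem_image, Set.Finite.mem_toFinset, Set.mem_ofPred_eq, Prod.mk.injEq] at h2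
  by_cases hx : g.1 x = x
  · by_cases hx' : g'.1 x = x
    · rw [hx, hx']
    · obtain ⟨a, ha, rfl, _⟩ := (h2 (g'.1 x)).2 ⟨x, hx', rfl, rfl⟩
      exact absurd hx ha
  · obtain ⟨a, ha, rfl, h4⟩ := (h2 (g.1 x)).1 ⟨x, hx, rfl, rfl⟩
    exact h4.symm

/-- The representations `rep` transported to `P(ω)/Fin` are pairwise inequivalent modulo
automorphisms induced by maps, at every permutation other than the identity. -/
theorem rep_ne {κ : Type*} [Uncountable κ] (Φ : PFin ℕ ≃o PFin ((κ × (κ →₀ ℤ)) × (κ × κ)))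
    {T T' : Set κ} (hT : T ≠ T') {g : Equiv.Perm κ} (hg : g ≠ 1) :
    ¬ IsInduced ((transport Φ (rep T g))⁻¹ * transport Φ (rep T' g)) := by
  classical
  obtain ⟨η, hη⟩ : ∃ η, ¬ (η ∈ T ↔ η ∈ T') := by
    by_contra hne
    push Not at hne
    exact hT (Set.ext hne)
  obtain ⟨x, hx⟩ : ∃ x, g x ≠ x := by
    by_contra hne
    push Not at hne
    exact hg (Equiv.ext hne)
  rw [← map_inv, ← map_mul]
  have h1 : (rep T g)⁻¹ * rep T' g = slice (κ × (κ →₀ ℤ)) κ
      ((fun η => (if η ∈ T then reg κ else reg' κ) g)⁻¹ *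
        (fun η => (if η ∈ T' then reg κ else reg' κ) g)) := by
    rw [map_mul, map_inv]
    rfl
  rw [h1]
  refine not_isInduced_of_chain Φ _ η
    (fun k => (x, (k : ℕ) • (Finsupp.single (g x) (1 : ℤ) - Finsupp.single x 1))) ?_ ?_
  · intro a b hab
    have h2 := (Prod.ext_iff.1 hab).2
    have h3 := DFunLike.congr_fun h2 x
    simp only [Finsupp.smul_apply, Finsupp.sub_apply, Finsupp.single_eq_same,
      Finsupp.single_eq_of_ne hx.symm] at h3
    simpa using h3
  · intro k
    change ((((if η ∈ T then reg κ else reg' κ) g)⁻¹ * (if η ∈ T' then reg κ else reg' κ) g)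
      (x, k • (Finsupp.single (g x) (1 : ℤ) - Finsupp.single x 1)) =
        (x, (k + 1) • (Finsupp.single (g x) (1 : ℤ) - Finsupp.single x 1))) ∨
      ((((if η ∈ T then reg κ else reg' κ) g)⁻¹ * (if η ∈ T' then reg κ else reg' κ) g)
      (x, (k + 1) • (Finsupp.single (g x) (1 : ℤ) - Finsupp.single x 1)) =
        (x, k • (Finsupp.single (g x) (1 : ℤ) - Finsupp.single x 1)))
    rw [add_smul, one_smul]
    by_cases h1 : η ∈ T
    · have h2 : η ∉ T' := fun h2 => hη ⟨fun _ => h2, fun _ => h1⟩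
      rw [if_pos h1, if_neg h2]
      exact Or.inl (reg_inv_reg' g x _)
    · have h2 : η ∈ T' := by
        by_contra h2
        exact hη ⟨fun h => absurd h h1, fun h => absurd h h2⟩
      rw [if_neg h1, if_pos h2]
      exact Or.inr (reg'_inv_reg g x _)

/-- A permutation with an infinite cycle never acts by an automorphism induced by a map. -/
theorem rep_of_infinite {κ : Type*} [Uncountable κ]
    (Φ : PFin ℕ ≃o PFin ((κ × (κ →₀ ℤ)) × (κ × κ))) (T : Set κ) (g : Equiv.Perm κ) (x : κ)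
    (hx : ∀ n : ℕ, 0 < n → (g ^ n) x ≠ x) : ¬ IsInduced (transport Φ (rep T g)) := by
  classical
  obtain ⟨η⟩ : Nonempty κ := inferInstance
  set F : κ → Equiv.Perm (κ × (κ →₀ ℤ)) := fun η => (if η ∈ T then reg κ else reg' κ) g with hF
  have h1 : rep T g = slice (κ × (κ →₀ ℤ)) κ F := rfl
  have hfst : ∀ p, (F η p).1 = g p.1 := by
    intro p
    by_cases h : η ∈ T
    · simp only [hF, if_pos h]
      rfl
    · simp only [hF, if_neg h]
      rfl
  have hpow : ∀ k : ℕ, ((F η ^ k) (x, 0)).1 = (g ^ k) x := by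
    intro k
    induction k with
    | zero => rfl
    | succ k ih => rw [pow_succ', pow_succ', Equiv.Perm.mul_apply, hfst, ih, Equiv.Perm.mul_apply]
  rw [h1]
  refine not_isInduced_of_chain Φ F η (fun k => (F η ^ k) (x, 0)) ?_ ?_
  · intro a b hab
    have h2 : (g ^ a) x = (g ^ b) x := by
      rw [← hpow, ← hpow]
      exact congrArg Prod.fst hab
    by_contra hne
    rcases lt_or_gt_of_ne hne with hlt | hlt
    · obtain ⟨c, rfl⟩ := Nat.exists_eq_add_of_lt hlt
      refine hx (c + 1) (Nat.succ_pos c) ?_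
      have h3 : (g ^ (a + c + 1)) x = (g ^ a) ((g ^ (c + 1)) x) := by
        rw [← Equiv.Perm.mul_apply, ← pow_add, add_assoc]
      rw [h3] at h2
      exact ((g ^ a).injective h2).symm
    · obtain ⟨c, rfl⟩ := Nat.exists_eq_add_of_lt hlt
      refine hx (c + 1) (Nat.succ_pos c) ?_
      have h3 : (g ^ (b + c + 1)) x = (g ^ b) ((g ^ (c + 1)) x) := by
        rw [← Equiv.Perm.mul_apply, ← pow_add, add_assoc]
      rw [h3] at h2
      exact (g ^ b).injective h2
  · intro k
    left
    change F η ((F η ^ k) (x, 0)) = (F η ^ (k + 1)) (x, 0)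
    rw [pow_succ', Equiv.Perm.mul_apply]

open Classical in
/-- The restriction of a permutation to an invariant set. -/
noncomputable def restr {κ : Type*} (g : Equiv.Perm κ) (C : Set κ) (hC : ∀ x, g x ∈ C ↔ x ∈ C) :
    Equiv.Perm κ where
  toFun := fun x => if x ∈ C then g x else x
  invFun := fun x => if x ∈ C then g.symm x else x
  left_inv := by
    intro x
    by_cases hx : x ∈ C
    · simp [hx, hC]
    · simp [hx]
  right_inv := by
    intro x
    have h1 : g.symm x ∈ C ↔ x ∈ C := by rw [← hC, Equiv.apply_symm_apply]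
    by_cases hx : x ∈ C
    · simp [hx, h1]
    · simp [hx]

open Classical in
theorem restr_apply {κ : Type*} (g : Equiv.Perm κ) (C : Set κ) (hC : ∀ x, g x ∈ C ↔ x ∈ C)
    (x : κ) : restr g C hC x = if x ∈ C then g x else x := rfl

theorem rep_restr {κ : Type*} (Φ : PFin ℕ ≃o PFin ((κ × (κ →₀ ℤ)) × (κ × κ))) (T : Set κ)
    (g : Equiv.Perm κ) (C : Set κ) (hC : ∀ x, g x ∈ C ↔ x ∈ C)
    (h : IsInduced (transport Φ (rep T g))) :
    IsInduced (transport Φ (rep T (restr g C hC))) := by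
  classical
  have hval : ∀ (g : Equiv.Perm κ) (x : κ) (v : κ →₀ ℤ) (η ζ : κ), rep T g ((x, v), (η, ζ)) =
      if η ∈ T then ((g x, v), (η, ζ)) else
        ((g x, v - Finsupp.single x 1 + Finsupp.single (g x) 1), (η, ζ)) := by
    intro g x v η ζ
    change ((if η ∈ T then reg κ else reg' κ) g (x, v), (η, ζ)) = _
    by_cases hη : η ∈ T
    · rw [if_pos hη, if_pos hη, reg_apply]
    · rw [if_neg hη, if_neg hη, reg'_apply]
  refine isInduced_restrict Φ (rep T g) _ {p | p.1.1 ∈ C} ?_ ?_ h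
  · rintro ⟨⟨x, v⟩, η, ζ⟩
    rw [hval]
    by_cases hη : η ∈ T
    · rw [if_pos hη]
      exact hC x
    · rw [if_neg hη]
      exact hC x
  · rintro ⟨⟨x, v⟩, η, ζ⟩
    rw [hval, hval, restr_apply]
    by_cases hx : x ∈ C
    · have hp : ((x, v), (η, ζ)) ∈ {p : (κ × (κ →₀ ℤ)) × (κ × κ) | p.1.1 ∈ C} := hx
      rw [if_pos hx, if_pos hp]
    · have hp : ((x, v), (η, ζ)) ∉ {p : (κ × (κ →₀ ℤ)) × (κ × κ) | p.1.1 ∈ C} := hx
      rw [if_neg hx, if_neg hp]
      by_cases hη : η ∈ T
      · rw [if_pos hη]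
      · rw [if_neg hη, sub_add_cancel]

/-- Every non-identity permutation without infinite cycles has a non-identity restriction to a
finite invariant set. -/
theorem exists_finite_invariant {κ : Type*} (g : Equiv.Perm κ) (hg : g ≠ 1)
    (hfin : ∀ x, ∃ n : ℕ, 0 < n ∧ (g ^ n) x = x) :
    ∃ C : Set κ, C.Finite ∧ (∀ x, g x ∈ C ↔ x ∈ C) ∧ ∃ x ∈ C, g x ≠ x := by
  obtain ⟨x, hx⟩ : ∃ x, g x ≠ x := by
    by_contra hne
    push Not at hne
    exact hg (Equiv.ext hne)
  obtain ⟨n, hn, hnx⟩ := hfin x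
  refine ⟨(fun k => (g ^ k) x) '' (Set.Iio n), (Set.finite_Iio n).image _, ?_, ?_⟩
  · intro y
    constructor
    · rintro ⟨k, hk, hky⟩
      have hky' : (g ^ k) x = g y := hky
      rcases Nat.eq_zero_or_pos k with rfl | hk0
      · refine ⟨n - 1, Nat.sub_lt hn Nat.one_pos, ?_⟩
        apply g.injective
        change g ((g ^ (n - 1)) x) = g y
        rw [← Equiv.Perm.mul_apply, ← pow_succ', Nat.sub_add_cancel hn, hnx, ← hky']
        rfl
      · refine ⟨k - 1, lt_of_le_of_lt (Nat.sub_le k 1) hk, ?_⟩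
        apply g.injective
        change g ((g ^ (k - 1)) x) = g y
        rw [← Equiv.Perm.mul_apply, ← pow_succ', Nat.sub_add_cancel hk0, hky']
    · rintro ⟨k, hk, rfl⟩
      change g ((g ^ k) x) ∈ _
      rcases Nat.lt_or_ge (k + 1) n with h | h
      · exact ⟨k + 1, h, by change (g ^ (k + 1)) x = _; rw [pow_succ', Equiv.Perm.mul_apply]⟩
      · have hk' : k < n := hk
        have h2 : k + 1 = n := by omega
        refine ⟨0, hn, ?_⟩
        change x = g ((g ^ k) x)
        rw [← Equiv.Perm.mul_apply, ← pow_succ', h2, hnx]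
  · exact ⟨x, ⟨0, hn, rfl⟩, hx⟩

/-- For some `T`, every non-identity permutation of `κ` acts through `rep T` by an automorphism
of `P(ω)/Fin` that is not induced by a map. -/
theorem exists_good {κ : Type*} [Uncountable κ]
    (Φ : PFin ℕ ≃o PFin ((κ × (κ →₀ ℤ)) × (κ × κ))) :
    ∃ T : Set κ, ∀ g : Equiv.Perm κ, g ≠ 1 → ¬ IsInduced (transport Φ (rep T g)) := by
  classical
  let bad : Set (Set κ) := {T | ∃ g : Equiv.Perm κ, g ≠ 1 ∧ {x | g x ≠ x}.Finite ∧
    IsInduced (transport Φ (rep T g))}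
  have hbad : ∀ T : bad, ∃ g : Equiv.Perm κ, g ≠ 1 ∧ {x | g x ≠ x}.Finite ∧
    IsInduced (transport Φ (rep (T : Set κ) g)) := fun T => T.2
  choose b hb1 hb2 hb3 using hbad
  have hbinj : Function.Injective
      (fun T => (⟨b T, hb2 T⟩ : {g : Equiv.Perm κ | {x | g x ≠ x}.Finite})) := by
    intro T T' hTT'
    have hTT'' : b T = b T' := congrArg Subtype.val hTT'
    by_contra hne
    have h1 : (T : Set κ) ≠ T' := fun h => hne (Subtype.ext h)
    refine rep_ne Φ h1 (hb1 T) (isInduced_mul (isInduced_inv (hb3 T)) ?_)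
    rw [hTT'']
    exact hb3 T'
  have hcard : Cardinal.mk bad < Cardinal.mk (Set κ) := by
    refine lt_of_le_of_lt ((Cardinal.mk_le_of_injective hbinj).trans (mk_finite_perm_le κ)) ?_
    rw [Cardinal.mk_set]
    exact Cardinal.cantor _
  obtain ⟨T, hT⟩ : ∃ T, T ∉ bad := by
    by_contra hne
    push Not at hne
    have h1 : bad = Set.univ := Set.eq_univ_of_forall hne
    rw [h1, Cardinal.mk_univ] at hcard
    exact lt_irrefl _ hcard
  refine ⟨T, fun g hg hind => ?_⟩
  by_cases hfin : ∀ x, ∃ n : ℕ, 0 < n ∧ (g ^ n) x = x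
  · obtain ⟨C, hCfin, hC, x, hxC, hx⟩ := exists_finite_invariant g hg hfin
    refine hT ⟨restr g C hC, ?_, ?_, rep_restr Φ T g C hC hind⟩
    · intro h1
      have h2 := Equiv.congr_fun h1 x
      rw [restr_apply, if_pos hxC] at h2
      exact hx h2
    · refine hCfin.subset ?_
      intro y hy
      by_contra hyC
      refine hy ?_
      rw [restr_apply, if_neg hyC]
  · push Not at hfin
    obtain ⟨x, hx⟩ := hfin
    exact rep_of_infinite Φ T g x hx hind

/-- Transport through a bijection of the index set. -/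
theorem transport_congr {κ N : Type*} (Φ : PFin ℕ ≃o PFin κ) (e : κ ≃ N) (π : Equiv.Perm N) :
    transport (Φ.trans (congr e)) π = transport Φ (e.symm.permCongr π) := by
  ext x
  change Φ.symm ((congr e).symm (permIso π (congr e (Φ x)))) =
    Φ.symm (permIso (e.symm.permCongr π) (Φ x))
  obtain ⟨A, hA⟩ := PFin.exists_rep (Φ x)
  rw [← hA]
  congr 1
  change PFin.mk (e.symm '' (π '' (e '' A))) = PFin.mk ((e.symm.permCongr π) '' A)
  congr 1
  rw [← Set.image_comp, ← Set.image_comp]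
  rfl

/-- If `P(ω)/Fin ≃ P(κ)/Fin` with `κ` uncountable, then there is an action of `Sym(κ)` on `κ`
all of whose non-identity elements give automorphisms of `P(ω)/Fin` not induced by maps. -/
theorem exists_embedding {κ : Type*} [Uncountable κ] (Φ : PFin ℕ ≃o PFin κ) :
    ∃ j : Equiv.Perm κ →* Equiv.Perm κ, ∀ g : Equiv.Perm κ, g ≠ 1 →
      ¬ IsInduced (transport Φ (j g)) := by
  obtain ⟨e⟩ := nonempty_equiv κ
  obtain ⟨T, hT⟩ := exists_good (Φ.trans (congr e))
  refine ⟨(Equiv.permCongrHom e.symm).toMonoidHom.comp (rep T), fun g hg => ?_⟩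
  have := hT g hg
  rw [transport_congr] at this
  exact this

end Pool.Agent.Work.MP_16b18c_lc
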