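import Pool.Agent.Work.MP_16b18c_lc.ParovC

/-!
Lifting of families of `ℵ₁` sets modulo countable sets: the sets can be changed by countable sets
so that every finite Boolean combination is empty or uncountable.
-/

namespace Pool.Agent.Work.MP_16b18c_lc

open Set Filter

variable {κ lam I : Type*}

/-- Every Boolean combination over the indices in `J` is empty or uncountable. -/
def NE (J : Set I) (B : I → Set κ) : Prop :=
  ∀ s : Finset I, (∀ i ∈ s, i ∈ J) → ∀ v : Set I, (atom B s v).Nonempty →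
    ¬ (atom B s v).Countable

theorem ne_of_step {W : Type*} [LinearOrder W] [Uncountable κ] {B : W → Set κ}
    {J : Set W} (hJ : ∀ i ∈ J, ∀ s : Finset W, (∀ j ∈ s, j < i) → ∀ v : Set W,
      ((atom B s v ∩ B i).Nonempty → ¬ (atom B s v ∩ B i).Countable) ∧
      ((atom B s v \ B i).Nonempty → ¬ (atom B s v \ B i).Countable)) : NE J B := by
  classical
  intro s hs v
  rcases s.eq_empty_or_nonempty with rfl | hne
  · have h1 : atom B ∅ v = univ := by
      ext k
      simp [atom]
    rw [h1]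
    exact fun _ => not_countable_univ
  · obtain ⟨i, hi, hmax⟩ : ∃ i ∈ s, ∀ j ∈ s, j ≤ i := ⟨s.max' hne, s.max'_mem hne, s.le_max'⟩
    have hlt : ∀ j ∈ s.erase i, j < i := fun j hj =>
      lt_of_le_of_ne (hmax j (Finset.mem_of_mem_erase hj)) (Finset.ne_of_mem_erase hj)
    have h := hJ i (hs i hi) (s.erase i) hlt v
    rw [← Finset.insert_erase hi]
    by_cases hv : i ∈ v
    · rw [(atom_insert i _ v).1 hv]
      exact h.1
    · rw [(atom_insert i _ v).2 hv]
      exact h.2

theorem exists_lift_step {J : Set I} (hJ : J.Countable) {f : I → Set κ} (hf : NE J f)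
    (C : Set κ) : ∃ q : Set κ, (symmDiff q C).Countable ∧
      ∀ s : Finset I, (∀ i ∈ s, i ∈ J) → ∀ v : Set I,
        ((atom f s v ∩ q).Nonempty → ¬ (atom f s v ∩ q).Countable) ∧
        ((atom f s v \ q).Nonempty → ¬ (atom f s v \ q).Countable) := by
  classical
  obtain ⟨P, hP, -, hPs⟩ := exists_enum_pairs hJ
  let U : ℕ → Set κ := fun n => atom f (P n).1 ↑(P n).2
  let Z : Set κ := {x | ∃ n, (U n ∩ C).Countable ∧ x ∈ U n}
  let O : Set κ := {x | ∃ n, (U n \ C).Countable ∧ x ∈ U n}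
  have hZO : ∀ x, x ∈ Z → x ∈ O → False := by
    rintro x ⟨n, hn, hxn⟩ ⟨m, hm, hxm⟩
    have hu : ∀ i ∈ (P n).1 ∪ (P m).1, i ∈ J := by
      intro i hi
      rcases Finset.mem_union.1 hi with hi | hi
      exacts [hP n i hi, hP m i hi]
    refine hf _ hu {i | x ∈ f i} ⟨x, fun i _ => Iff.rfl⟩ ((hn.union hm).mono fun k hk => ?_)
    have h1 : k ∈ U n := fun i hi =>
      (hk i (Finset.mem_union_left _ hi)).trans (hxn i hi)
    have h2 : k ∈ U m := fun i hi =>
      (hk i (Finset.mem_union_right _ hi)).trans (hxm i hi)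
    by_cases hkC : k ∈ C
    · exact Or.inl ⟨h1, hkC⟩
    · exact Or.inr ⟨h2, hkC⟩
  have hZ : (Z ∩ C).Countable := by
    refine (countable_iUnion (t := fun n => {x | (U n ∩ C).Countable ∧ x ∈ U n ∩ C})
      fun n => ?_).mono ?_
    · by_cases h : (U n ∩ C).Countable
      · exact h.mono fun x hx => hx.2
      · convert countable_empty
        ext k
        simp [h]
    · rintro x ⟨⟨n, hn, hx⟩, hxC⟩
      exact mem_iUnion.2 ⟨n, hn, hx, hxC⟩
  have hO : (O \ C).Countable := by
    refine (countable_iUnion (t := fun n => {x | (U n \ C).Countable ∧ x ∈ U n \ C})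
      fun n => ?_).mono ?_
    · by_cases h : (U n \ C).Countable
      · exact h.mono fun x hx => hx.2
      · convert countable_empty
        ext k
        simp [h]
    · rintro x ⟨⟨n, hn, hx⟩, hxC⟩
      exact mem_iUnion.2 ⟨n, hn, hx, hxC⟩
  let q : Set κ := (C \ Z) ∪ O
  have hq : (symmDiff q C).Countable := by
    refine (hZ.union hO).mono fun x hx => ?_
    rcases hx with ⟨h1 | h1, h2⟩ | ⟨h1, h2⟩
    · exact absurd h1.1 h2
    · exact Or.inr ⟨h1, h2⟩
    · refine Or.inl ⟨?_, h1⟩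
      by_contra h3
      exact h2 (Or.inl ⟨h1, h3⟩)
  refine ⟨q, hq, fun s hs v => ?_⟩
  obtain ⟨n, hn⟩ := hPs (s, s.filter (· ∈ v)) hs
    (fun i hi => hs i (Finset.mem_filter.1 hi).1)
  have hUn : atom f s v = U n := by
    change atom f s v = atom f (P n).1 ↑(P n).2
    rw [hn]
    ext k
    refine forall_congr' fun i => forall_congr' fun hi => ?_
    simp [hi]
  rw [hUn]
  constructor
  · rintro ⟨x, hx, hxq⟩ hc
    have h1 : (U n ∩ C).Countable := (hc.union hq).mono fun k hk => by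
      by_cases hkq : k ∈ q
      · exact Or.inl ⟨hk.1, hkq⟩
      · exact Or.inr (Or.inr ⟨hk.2, hkq⟩)
    rcases hxq with hxq | hxq
    · exact hxq.2 ⟨n, h1, hx⟩
    · exact hZO x ⟨n, h1, hx⟩ hxq
  · rintro ⟨x, hx, hxq⟩ hc
    have h1 : (U n \ C).Countable := (hc.union hq).mono fun k hk => by
      by_cases hkq : k ∈ q
      · exact Or.inr (Or.inl ⟨hkq, hk.2⟩)
      · exact Or.inl ⟨hk.1, hkq⟩
    exact hxq (Or.inr ⟨n, h1, hx⟩)

theorem exists_lift {W : Type*} [LinearOrder W] [WellFoundedLT W]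
    (hW : ∀ c : W, (Iio c).Countable) [Uncountable κ] (B₀ : W → Set κ) :
    ∃ B : W → Set κ, (∀ c, (symmDiff (B c) (B₀ c)).Countable) ∧ NE univ B := by
  classical
  let Q : W → (W → Set κ) → Set κ → Prop := fun c f q =>
    (symmDiff q (B₀ c)).Countable ∧ ∀ s : Finset W, (∀ i ∈ s, i < c) → ∀ v : Set W,
      ((atom f s v ∩ q).Nonempty → ¬ (atom f s v ∩ q).Countable) ∧
      ((atom f s v \ q).Nonempty → ¬ (atom f s v \ q).Countable)
  have h1 : ∀ c f g, (∀ i, i < c → f i = g i) → ∀ q, Q c f q → Q c g q := by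
    intro c f g hfg q hq
    refine ⟨hq.1, fun s hs v => ?_⟩
    rw [← atom_congr (fun i hi => hfg i (hs i hi)) v]
    exact hq.2 s hs v
  have h2 : ∀ c (f : W → Set κ), (∀ i, i < c → Q i f (f i)) → ∃ q, Q c f q := fun c f hf =>
    exists_lift_step (hW c) (ne_of_step fun i hi => (hf i hi).2) (B₀ c)
  obtain ⟨B, hB⟩ := exists_rec Q h1 h2
  exact ⟨B, fun c => (hB c).1, ne_of_step fun i _ => (hB i).2⟩

end Pool.Agent.Work.MP_16b18c_lc
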