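import Pool.Agent.Work.MP_16b18c_lc.LtMatch

/-!
The algebra of subsets of `ω` corresponding to an algebra of subsets of `κ` along a tower.
-/

namespace Pool.Agent.Work.MP_16b18c_lc

open Set Filter

variable {κ : Type*}

/-- The subsets of `ω` that correspond to members of `𝓑` at some level of the tower. -/
def Twin {W : Type*} (B : W → Set κ) (A : W → Set ℕ) (ψ : W → Set (κ × ℕ)) (𝓑 : Set (Set κ)) :
    Set (Set ℕ) := {Y | ∃ X ∈ 𝓑, ∃ c, MatchF B A (ψ c) X Y}

theorem Good.raise {W : Type*} [LinearOrder W] {B : W → Set κ} {k : W → κ}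
    {ψ : W → Set (κ × ℕ)} {A : W → Set ℕ} (hg : Good univ B k ψ A) {c c' : W} (h : c ≤ c')
    {X : Set κ} {Y : Set ℕ} (hm : MatchF B A (ψ c) X Y) : MatchF B A (ψ c') X Y :=
  hm.raise (hg.lev c') (hg.mono c (mem_univ _) c' (mem_univ _) h)

/-- Countable sets of indices are bounded. -/
theorem exists_bound_index {W : Type*} [LinearOrder W] [Uncountable W]
    (hW : ∀ c : W, (Iio c).Countable) {C : Set W} (hC : C.Countable) : ∃ a, ∀ c ∈ C, c < a := by
  by_contra hno
  push Not at hno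
  have hco : (⋃ c ∈ C, Iic c).Countable := by
    refine hC.biUnion fun c _ => ?_
    refine ((hW c).insert c).mono fun d hd => ?_
    rcases (mem_Iic.1 hd).eq_or_lt with h | h
    exacts [Or.inl h, Or.inr h]
  refine not_countable_univ (α := W) (hco.mono fun a _ => ?_)
  obtain ⟨c, hc, hac⟩ := hno a
  exact mem_biUnion hc hac

/-- Countable subsets of `κ` lie in the domains of all high levels. -/
theorem exists_cover {W : Type*} [LinearOrder W] [Uncountable W]
    (hW : ∀ c : W, (Iio c).Countable) {k : W → κ} (hk : Function.Surjective k) {K : Set κ}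
    (hK : K.Countable) : ∃ a : W, ∀ x ∈ K, ∃ i, i < a ∧ k i = x := by
  obtain ⟨a, ha⟩ := exists_bound_index hW (hK.image (Function.surjInv hk))
  exact ⟨a, fun x hx => ⟨_, ha _ ⟨x, hx, rfl⟩, Function.surjInv_eq hk x⟩⟩

theorem Good.exists_matchF {W : Type*} [LinearOrder W] [Uncountable W]
    (hW : ∀ c : W, (Iio c).Countable) {B : W → Set κ} {k : W → κ} (hk : Function.Surjective k)
    {ψ : W → Set (κ × ℕ)} {A : W → Set ℕ} (hg : Good univ B k ψ A) {X : Set κ} {i : W}
    (hX : (symmDiff X (B i)).Countable) : ∃ Y c, MatchF B A (ψ c) X Y := by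
  obtain ⟨a, ha⟩ := exists_cover hW hk hX
  have h1 : (symmDiff X (B i) \ dm (ψ a)).Finite := by
    convert finite_empty
    ext x
    constructor
    · rintro ⟨hx, hx'⟩
      obtain ⟨j, hj, rfl⟩ := ha x hx
      exact absurd (hg.dom a (mem_univ _) j hj.le) hx'
    · intro h
      exact absurd h (notMem_empty _)
  obtain ⟨Y, hY⟩ := Pool.Agent.Work.MP_16b18c_lc.exists_matchF (A := A) (hg.pb a (mem_univ _)) h1
  exact ⟨Y, a, hY⟩

/-- Two sets `X`, `X'` corresponding to the same set are equal modulo finite sets, and so on. -/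
theorem Good.sdiff_finite {W : Type*} [LinearOrder W] {B : W → Set κ} (hB : NE univ B)
    {k : W → κ} {ψ : W → Set (κ × ℕ)} {A : W → Set ℕ} (hg : Good univ B k ψ A) {c c' : W}
    {X X' : Set κ} {Y Y' : Set ℕ} (h : MatchF B A (ψ c) X Y) (h' : MatchF B A (ψ c') X' Y') :
    (X \ X').Finite ↔ (Y \ Y').Finite :=
  (hg.raise (le_max_left c c') h).sdiff_finite (hg.lev _) hB (hg.raise (le_max_right c c') h')

theorem exists_empty_index {W : Type*} [LinearOrder W] [Nonempty W] {B : W → Set κ}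
    (hB : NE univ B) {k : W → κ} {ψ : W → Set (κ × ℕ)} {A : W → Set ℕ}
    (hg : Good univ B k ψ A) (hcov : ∃ i, (symmDiff ∅ (B i)).Countable) :
    ∃ i0, (∀ x, x ∉ B i0) ∧ (A i0).Finite := by
  have hS : SimC univ B A := by
    obtain ⟨c⟩ := ‹Nonempty W›
    exact (hg.lev c).simC hB
  obtain ⟨i0, hi0⟩ := hcov
  have hB0 : ∀ x, x ∉ B i0 := by
    intro x
    refine hB.pred3 (fun p _ _ => p) i0 i0 i0 (hi0.mono fun y hy => ?_) x
    exact Or.inr ⟨hy, notMem_empty y⟩
  exact ⟨i0, hB0, hS.pred3 (fun p _ _ => p) i0 i0 i0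
    (countable_empty.mono fun x hx => absurd hx (hB0 x))⟩

theorem matchF_empty {W : Type*} {B : W → Set κ} {A : W → Set ℕ} {i0 : W}
    (h0 : ∀ x, x ∉ B i0) (h1 : (A i0).Finite) (ψ : Set (κ × ℕ)) : MatchF B A ψ ∅ ∅ := by
  refine ⟨?_, i0, ?_, ?_⟩
  · convert finite_empty
    ext p
    constructor
    · rintro ⟨-, h⟩
      exact absurd ⟨fun h => absurd h (notMem_empty _), fun h => absurd h (notMem_empty _)⟩ h
    · intro h
      exact absurd h (notMem_empty _)
  · refine finite_empty.subset ?_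
    rintro x ⟨h | h, -⟩
    · exact h.1
    · exact absurd h.1 (h0 x)
  · refine h1.subset ?_
    rintro m ⟨h | h, -⟩
    · exact absurd h.1 (notMem_empty m)
    · exact h.1

theorem Twin.isAlg {W : Type*} [LinearOrder W] [Nonempty W]
    {B : W → Set κ} (hB : NE univ B) {k : W → κ}
    {ψ : W → Set (κ × ℕ)} {A : W → Set ℕ}
    (hg : Good univ B k ψ A) {𝓑 : Set (Set κ)} (h𝓑 : IsAlg 𝓑)
    (hcov : ∀ X ∈ 𝓑, ∃ i, (symmDiff X (B i)).Countable) : IsAlg (Twin B A ψ 𝓑) := by
  have hS : SimC univ B A := by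
    obtain ⟨c⟩ : Nonempty W := inferInstance
    exact (hg.lev c).simC hB
  obtain ⟨i0, hi0⟩ := hcov ∅ h𝓑.1
  have hB0 : ∀ x, x ∉ B i0 := by
    intro x
    refine hB.pred3 (fun p _ _ => p) i0 i0 i0 (hi0.mono fun y hy => ?_) x
    exact Or.inr ⟨hy, notMem_empty y⟩
  refine ⟨⟨∅, h𝓑.1, ?_⟩, ?_, ?_⟩
  · obtain ⟨c⟩ : Nonempty W := inferInstance
    refine ⟨c, ?_, i0, ?_, ?_⟩
    · convert finite_empty
      ext p
      constructor
      · rintro ⟨-, h⟩
        exact absurd ⟨fun h => absurd h (notMem_empty _), fun h => absurd h (notMem_empty _)⟩ h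
      · intro h
        exact absurd h (notMem_empty _)
    · refine finite_empty.subset ?_
      rintro x ⟨h | h, -⟩
      · exact h.1
      · exact absurd h.1 (hB0 x)
    · have h1 := hS.pred3 (fun p _ _ => p) i0 i0 i0
        (countable_empty.mono fun x hx => absurd hx (hB0 x))
      refine h1.subset ?_
      rintro m ⟨h | h, -⟩
      · exact absurd h.1 (notMem_empty m)
      · exact h.1
  · rintro Y ⟨X, hX, c, h1, i, h2, h3⟩
    obtain ⟨j, hj⟩ := hcov Xᶜ (h𝓑.2.1 X hX)
    have hXi : (symmDiff X (B i)).Countable := countable_of_diff_dm (hg.pb c (mem_univ _)) h2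
    have hcnt : {x | (x ∈ B i ↔ x ∈ B j)}.Countable := by
      refine (hXi.union hj).mono fun x hx => ?_
      change x ∈ B i ↔ x ∈ B j at hx
      by_contra hno
      have n1 := not_mem_symmDiff_iff fun h => hno (Or.inl h)
      have n2 := not_mem_symmDiff_iff fun h => hno (Or.inr h)
      rw [mem_compl_iff] at n2
      tauto
    have hBj : ∀ x, ¬ (x ∈ B i ↔ x ∈ B j) :=
      hB.pred3 (fun p q _ => (p ↔ q)) i j j hcnt
    have hAj := hS.pred3 (fun p q _ => (p ↔ q)) i j j hcnt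
    refine ⟨Xᶜ, h𝓑.2.1 X hX, c, ?_, j, ?_, ?_⟩
    · refine h1.subset ?_
      rintro p ⟨hp, hbad⟩
      refine ⟨hp, fun h => hbad ?_⟩
      rw [mem_compl_iff, mem_compl_iff, h]
    · refine h2.subset ?_
      rintro x ⟨hx, hr⟩
      refine ⟨?_, hr⟩
      have := hBj x
      rw [mem_symmDiff, mem_compl_iff] at hx
      rw [mem_symmDiff]
      tauto
    · refine (h3.union hAj).subset ?_
      rintro m ⟨hm, hr⟩
      by_contra hno
      have n1 : m ∈ Y ↔ m ∈ A i := not_mem_symmDiff_iff fun h => hno (Or.inl ⟨h, hr⟩)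
      have n2 : ¬ (m ∈ A i ↔ m ∈ A j) := fun h => hno (Or.inr h)
      rw [mem_symmDiff, mem_compl_iff] at hm
      tauto
  · rintro Y ⟨X, hX, c, hm⟩ Y' ⟨X', hX', c', hm'⟩
    obtain ⟨h1, i, h2, h3⟩ := hg.raise (le_max_left c c') hm
    obtain ⟨h1', j, h2', h3'⟩ := hg.raise (le_max_right c c') hm'
    have hU : X ∪ X' ∈ 𝓑 := h𝓑.2.2 X hX X' hX'
    obtain ⟨l, hl⟩ := hcov _ hU
    have hXi : (symmDiff X (B i)).Countable := countable_of_diff_dm (hg.pb _ (mem_univ _)) h2
    have hXj : (symmDiff X' (B j)).Countable := countable_of_diff_dm (hg.pb _ (mem_univ _)) h2'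
    have hcnt : {x | ¬ ((x ∈ B i ∨ x ∈ B j) ↔ x ∈ B l)}.Countable := by
      refine ((hXi.union hXj).union hl).mono fun x hx => ?_
      change ¬ ((x ∈ B i ∨ x ∈ B j) ↔ x ∈ B l) at hx
      by_contra hno
      have n1 := not_mem_symmDiff_iff fun h => hno (Or.inl (Or.inl h))
      have n2 := not_mem_symmDiff_iff fun h => hno (Or.inl (Or.inr h))
      have n3 := not_mem_symmDiff_iff fun h => hno (Or.inr h)
      rw [mem_union] at n3
      tauto
    have hBl : ∀ x, ¬ ¬ ((x ∈ B i ∨ x ∈ B j) ↔ x ∈ B l) :=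
      hB.pred3 (fun p q r => ¬ ((p ∨ q) ↔ r)) i j l hcnt
    have hAl := hS.pred3 (fun p q r => ¬ ((p ∨ q) ↔ r)) i j l hcnt
    refine ⟨X ∪ X', hU, max c c', ?_, l, ?_, ?_⟩
    · refine (h1.union h1').subset ?_
      rintro p ⟨hp, hbad⟩
      by_contra hno
      have n1 : p.1 ∈ X ↔ p.2 ∈ Y := by
        by_contra h
        exact hno (Or.inl ⟨hp, h⟩)
      have n2 : p.1 ∈ X' ↔ p.2 ∈ Y' := by
        by_contra h
        exact hno (Or.inr ⟨hp, h⟩)
      refine hbad ?_
      rw [mem_union, mem_union, n1, n2]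
    · refine (h2.union h2').subset ?_
      rintro x ⟨hx, hr⟩
      by_contra hno
      have n1 := not_mem_symmDiff_iff fun h => hno (Or.inl ⟨h, hr⟩)
      have n2 := not_mem_symmDiff_iff fun h => hno (Or.inr ⟨h, hr⟩)
      have n3 := hBl x
      rw [mem_symmDiff, mem_union] at hx
      tauto
    · refine ((h3.union h3').union hAl).subset ?_
      rintro m ⟨hx, hr⟩
      by_contra hno
      have n1 := not_mem_symmDiff_iff fun h => hno (Or.inl (Or.inl ⟨h, hr⟩))
      have n2 := not_mem_symmDiff_iff fun h => hno (Or.inl (Or.inr ⟨h, hr⟩))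
      have n3 : ¬ ¬ ((m ∈ A i ∨ m ∈ A j) ↔ m ∈ A l) := fun h => hno (Or.inr h)
      rw [mem_symmDiff, mem_union] at hx
      tauto

/-- A function read off from a set of pairs. -/
noncomputable def fn (R : Set (κ × ℕ)) (x : κ) : ℕ := by
  classical
  exact if h : ∃ m, (x, m) ∈ R then h.choose else 0

theorem fn_mem {R : Set (κ × ℕ)} {x : κ} (h : x ∈ dm R) : (x, fn R x) ∈ R := by
  classical
  have h' : ∃ m, (x, m) ∈ R := h
  have e : fn R x = h'.choose := dif_pos h'
  rw [e]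
  exact h'.choose_spec

theorem fn_injOn {R : Set (κ × ℕ)} (hR : PB R) {K : Set κ} (hK : K ⊆ dm R) :
    InjOn (fn R) K := by
  intro x hx y hy he
  exact (hR x _ y _ (fn_mem (hK hx)) (fn_mem (hK hy))).2 he

theorem mem_image_fn {R : Set (κ × ℕ)} (hR : PB R) {X : Set κ} (hX : X ⊆ dm R) {x : κ} {m : ℕ}
    (hp : (x, m) ∈ R) : x ∈ X ↔ m ∈ fn R '' X := by
  constructor
  · intro hx
    exact ⟨x, hx, (hR x _ x m (fn_mem ⟨m, hp⟩) hp).1 rfl⟩
  · rintro ⟨y, hy, rfl⟩
    exact (hR x _ y _ hp (fn_mem (hX hy))).2 rfl ▸ hy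

end Pool.Agent.Work.MP_16b18c_lc
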