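import Pool.Agent.Work.MP_16b18c_lc.ColChain
import Pool.Agent.Work.MP_16b18c_lc.Lift

/-!
Towers of partial bijections between countable subsets of `κ` and subsets of `ω`, together with
subsets `A i` of `ω` that correspond to given sets `B i` modulo finite sets on every level.
-/

namespace Pool.Agent.Work.MP_16b18c_lc

open Set Filter

variable {κ I : Type*}

/-- Partial bijections. -/
def PB (R : Set (κ × ℕ)) : Prop :=
  ∀ k m k' m', (k, m) ∈ R → (k', m') ∈ R → (k = k' ↔ m = m')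

/-- The pairs that violate the correspondence of `B i` and `A i`. -/
def viol (B : I → Set κ) (A : I → Set ℕ) (R : Set (κ × ℕ)) (i : I) : Set (κ × ℕ) :=
  {p | p ∈ R ∧ ¬ (p.1 ∈ B i ↔ p.2 ∈ A i)}

theorem PB.fst_finite {R : Set (κ × ℕ)} (h : PB R) {K : Set κ} (hK : K.Finite) :
    {p | p ∈ R ∧ p.1 ∈ K}.Finite := by
  refine Set.Finite.of_finite_image (f := Prod.fst) (hK.subset ?_) ?_
  · rintro _ ⟨p, hp, rfl⟩
    exact hp.2
  · rintro ⟨k, m⟩ hp ⟨k', m'⟩ hp' he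
    have he' : k = k' := he
    exact Prod.ext he' ((h k m k' m' hp.1 hp'.1).1 he')

theorem PB.snd_finite {R : Set (κ × ℕ)} (h : PB R) {K : Set ℕ} (hK : K.Finite) :
    {p | p ∈ R ∧ p.2 ∈ K}.Finite := by
  refine Set.Finite.of_finite_image (f := Prod.snd) (hK.subset ?_) ?_
  · rintro _ ⟨p, hp, rfl⟩
    exact hp.2
  · rintro ⟨k, m⟩ hp ⟨k', m'⟩ hp' he
    have he' : m = m' := he
    exact Prod.ext ((h k m k' m' hp.1 hp'.1).2 he') he'

theorem PB.insert {R : Set (κ × ℕ)} (h : PB R) {k : κ} {m : ℕ} (hk : k ∉ dm R) (hm : m ∉ rn R) :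
    PB (insert (k, m) R) := by
  intro a b a' b' h1 h2
  rcases h1 with h1 | h1 <;> rcases h2 with h2 | h2
  · obtain ⟨rfl, rfl⟩ := Prod.ext_iff.1 h1
    obtain ⟨rfl, rfl⟩ := Prod.ext_iff.1 h2
    simp
  · obtain ⟨rfl, rfl⟩ := Prod.ext_iff.1 h1
    constructor
    · rintro rfl
      exact absurd (mem_dm h2) hk
    · rintro rfl
      exact absurd (mem_rn h2) hm
  · obtain ⟨rfl, rfl⟩ := Prod.ext_iff.1 h2
    constructor
    · rintro rfl
      exact absurd (mem_dm h1) hk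
    · rintro rfl
      exact absurd (mem_rn h1) hm
  · exact h a b a' b' h1 h2

theorem dm_finite' {R : Set (κ × ℕ)} (h : R.Finite) : (dm R).Finite := dm_finite h

/-- Raising a partial bijection to a higher level of the tower. -/
theorem raise {B : I → Set κ} {A : I → Set ℕ} {R ψ : Set (κ × ℕ)} (hR : PB R) (hψ : PB ψ)
    (hRψ : (R \ ψ).Finite) (s : Finset I) (hv : ∀ i ∈ s, (viol B A ψ i).Finite)
    {X : Set ℕ} (hX : X.Finite) :
    ∃ R' : Set (κ × ℕ), PB R' ∧ R ⊆ R' ∧ (R' \ ψ).Finite ∧ (ψ \ R').Finite ∧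
      ∀ k m, (k, m) ∈ R' → (k, m) ∉ R → (∀ i ∈ s, (k ∈ B i ↔ m ∈ A i)) ∧ m ∉ X := by
  classical
  let N : Set (κ × ℕ) := {p | p ∈ ψ ∧ p.1 ∉ dm R ∧ p.2 ∉ rn R ∧ p.2 ∉ X ∧
    ∀ i ∈ s, (p.1 ∈ B i ↔ p.2 ∈ A i)}
  refine ⟨R ∪ N, ?_, subset_union_left, ?_, ?_, ?_⟩
  · intro a b a' b' h1 h2
    rcases h1 with h1 | h1 <;> rcases h2 with h2 | h2
    · exact hR a b a' b' h1 h2
    · constructor
      · rintro rfl
        exact absurd (mem_dm h1) h2.2.1
      · rintro rfl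
        exact absurd (mem_rn h1) h2.2.2.1
    · constructor
      · rintro rfl
        exact absurd (mem_dm h2) h1.2.1
      · rintro rfl
        exact absurd (mem_rn h2) h1.2.2.1
    · exact hψ a b a' b' h1.1 h2.1
  · refine hRψ.subset ?_
    rintro p ⟨hp | hp, hp'⟩
    · exact ⟨hp, hp'⟩
    · exact absurd hp.1 hp'
  · refine ((((hψ.fst_finite (dm_finite hRψ)).union (hψ.snd_finite (rn_finite hRψ))).union
      (hψ.snd_finite hX)).union ((s.finite_toSet).biUnion (t := fun i => viol B A ψ i)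
        fun i hi => hv i hi)).subset ?_
    rintro ⟨k, m⟩ ⟨hp, hp'⟩
    by_contra hno
    refine hp' (Or.inr ⟨hp, fun hk => ?_, fun hm => ?_, fun hmX => ?_, fun i hi => ?_⟩)
    · obtain ⟨m', hm'⟩ := hk
      by_cases h1 : (k, m') ∈ ψ
      · have h2 := (hψ k m k m' hp h1).1 rfl
        exact hp' (Or.inl (h2 ▸ hm'))
      · exact hno (Or.inl (Or.inl (Or.inl ⟨hp, m', hm', h1⟩)))
    · obtain ⟨k', hk'⟩ := hm
      by_cases h1 : (k', m) ∈ ψ
      · have h2 := (hψ k m k' m hp h1).2 rfl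
        exact hp' (Or.inl (h2 ▸ hk'))
      · exact hno (Or.inl (Or.inl (Or.inr ⟨hp, k', hk', h1⟩)))
    · exact hno (Or.inl (Or.inr ⟨hp, hmX⟩))
    · by_contra h1
      exact hno (Or.inr (mem_biUnion (x := i) hi ⟨hp, h1⟩))
  · rintro k m (h | h) h'
    · exact absurd h h'
    · exact ⟨h.2.2.2.2, h.2.2.2.1⟩

/-- Towers indexed by an initial segment. -/
structure Good {W : Type*} [LinearOrder W] (J : Set W) (B : W → Set κ) (k : W → κ)
    (ψ : W → Set (κ × ℕ)) (A : W → Set ℕ) : Prop where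
  pb : ∀ i ∈ J, PB (ψ i)
  mono : ∀ i ∈ J, ∀ j ∈ J, i ≤ j → (ψ i \ ψ j).Finite
  viol : ∀ i ∈ J, ∀ j ∈ J, (viol B A (ψ i) j).Finite
  dom : ∀ j ∈ J, ∀ i ≤ j, k i ∈ dm (ψ j)
  inf : ∀ j ∈ J, ∀ s : Finset W, (∀ i ∈ s, i ∈ J) → ∀ v : Set W, (atom B s v).Nonempty →
    (atom A s v \ rn (ψ j)).Infinite
  emp : ∀ s : Finset W, (∀ i ∈ s, i ∈ J) → ∀ v : Set W, ¬ (atom B s v).Nonempty →
    (atom A s v).Finite

/-- The condition on the next member of a tower. -/
structure Next {W : Type*} [LinearOrder W] (B : W → Set κ) (k : W → κ) (c : W)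
    (ψ : W → Set (κ × ℕ)) (A : W → Set ℕ) (ψc : Set (κ × ℕ)) (Ac : Set ℕ) : Prop where
  pb : PB ψc
  mono : ∀ i < c, (ψ i \ ψc).Finite
  viol : ∀ i < c, (viol B A ψc i).Finite
  violc : {p | p ∈ ψc ∧ ¬ (p.1 ∈ B c ↔ p.2 ∈ Ac)}.Finite
  dom : ∀ i ≤ c, k i ∈ dm ψc
  inf : ∀ s : Finset W, (∀ i ∈ s, i < c) → ∀ v : Set W,
    ((atom B s v ∩ B c).Nonempty → ((atom A s v ∩ Ac) \ rn ψc).Infinite) ∧
    ((atom B s v \ B c).Nonempty → ((atom A s v \ Ac) \ rn ψc).Infinite)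
  emp : ∀ s : Finset W, (∀ i ∈ s, i < c) → ∀ v : Set W,
    (¬ (atom B s v ∩ B c).Nonempty → (atom A s v ∩ Ac).Finite) ∧
    (¬ (atom B s v \ B c).Nonempty → (atom A s v \ Ac).Finite)

theorem viol_mono_finite {B : I → Set κ} {A : I → Set ℕ} {R R' : Set (κ × ℕ)} {i : I}
    (h : (R \ R').Finite) (h' : (viol B A R' i).Finite) : (viol B A R i).Finite := by
  refine (h.union h').subset fun p hp => ?_
  by_cases hp' : p ∈ R'
  · exact Or.inr ⟨hp', hp.2⟩
  · exact Or.inl ⟨hp.1, hp'⟩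

theorem rn_diff_finite {R R' : Set (κ × ℕ)} (h : (R \ R').Finite) : (rn R \ rn R').Finite := by
  refine (rn_finite h).subset ?_
  rintro m ⟨⟨k, hk⟩, hm⟩
  exact ⟨k, hk, fun h' => hm ⟨k, h'⟩⟩

theorem dm_diff_finite {R R' : Set (κ × ℕ)} (h : (R \ R').Finite) : (dm R \ dm R').Finite := by
  refine (dm_finite h).subset ?_
  rintro k ⟨⟨m, hm⟩, hk⟩
  exact ⟨m, hm, fun h' => hk ⟨m, h'⟩⟩

theorem infinite_of_mono {R R' : Set (κ × ℕ)} (h : (R \ R').Finite) {S : Set ℕ}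
    (hS : (S \ rn R').Infinite) : (S \ rn R).Infinite := by
  intro hf
  refine hS ((hf.union (rn_diff_finite h)).subset ?_)
  rintro m ⟨hm, hm'⟩
  by_cases h1 : m ∈ rn R
  · exact Or.inr ⟨h1, hm'⟩
  · exact Or.inl ⟨hm, h1⟩

theorem good_of_next {W : Type*} [LinearOrder W] [Nonempty κ] {B : W → Set κ} {k : W → κ}
    {ψ : W → Set (κ × ℕ)} {A : W → Set ℕ} {J : Set W}
    (hJ : ∀ i ∈ J, Next B k i ψ A (ψ i) (A i)) : Good J B k ψ A := by
  classical
  have hmono : ∀ i ∈ J, ∀ j ∈ J, i ≤ j → (ψ i \ ψ j).Finite := by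
    intro i hi j hj hij
    rcases hij.eq_or_lt with rfl | hlt
    · rw [sdiff_self]
      exact finite_empty
    · exact (hJ j hj).mono i hlt
  have hviol : ∀ i ∈ J, ∀ j ∈ J, (viol B A (ψ i) j).Finite := by
    intro i hi j hj
    rcases lt_trichotomy j i with h | rfl | h
    · exact (hJ i hi).viol j h
    · exact (hJ j hj).violc
    · exact viol_mono_finite (hmono i hi j hj h.le) (hJ j hj).violc
  have hmax : ∀ s : Finset W, s.Nonempty → ∃ i ∈ s, ∀ j ∈ s, j ≤ i := fun s hne =>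
    ⟨s.max' hne, s.max'_mem hne, s.le_max'⟩
  -- infinite remainders over the indices up to `j` at the level `j`
  have hinf1 : ∀ j ∈ J, ∀ s : Finset W, (∀ i ∈ s, i ≤ j) → ∀ v : Set W, (atom B s v).Nonempty →
      (atom A s v \ rn (ψ j)).Infinite := by
    intro j hj s hs v hne
    by_cases hjs : j ∈ s
    · have hlt : ∀ i ∈ s.erase j, i < j := fun i hi =>
        lt_of_le_of_ne (hs i (Finset.mem_of_mem_erase hi)) (Finset.ne_of_mem_erase hi)
      have h := (hJ j hj).inf (s.erase j) hlt v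
      rw [← Finset.insert_erase hjs] at hne ⊢
      by_cases hv : j ∈ v
      · rw [(atom_insert j _ v).1 hv] at hne ⊢
        exact h.1 hne
      · rw [(atom_insert j _ v).2 hv] at hne ⊢
        exact h.2 hne
    · have hlt : ∀ i ∈ s, i < j := fun i hi =>
        lt_of_le_of_ne (hs i hi) fun h => hjs (h ▸ hi)
      have h := (hJ j hj).inf s hlt v
      obtain ⟨x, hx⟩ := hne
      by_cases hxj : x ∈ B j
      · exact (h.1 ⟨x, hx, hxj⟩).mono fun m hm => ⟨hm.1.1, hm.2⟩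
      · exact (h.2 ⟨x, hx, hxj⟩).mono fun m hm => ⟨hm.1.1, hm.2⟩
  refine ⟨fun i hi => (hJ i hi).pb, hmono, hviol, fun j hj => (hJ j hj).dom, ?_, ?_⟩
  · intro j hj s hs v hne
    rcases s.eq_empty_or_nonempty with rfl | hsne
    · exact hinf1 j hj ∅ (by simp) v hne
    · obtain ⟨i, hi, hmi⟩ := hmax s hsne
      rcases le_total i j with h | h
      · exact hinf1 j hj s (fun l hl => (hmi l hl).trans h) v hne
      · exact infinite_of_mono (hmono j hj i (hs i hi) h) (hinf1 i (hs i hi) s hmi v hne)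
  · intro s hs v hne
    rcases s.eq_empty_or_nonempty with rfl | hsne
    · refine absurd ?_ hne
      obtain ⟨x⟩ := ‹Nonempty κ›
      exact ⟨x, fun i hi => absurd hi (Finset.notMem_empty i)⟩
    · obtain ⟨i, hi, hmi⟩ := hmax s hsne
      have hlt : ∀ j ∈ s.erase i, j < i := fun j hj =>
        lt_of_le_of_ne (hmi j (Finset.mem_of_mem_erase hj)) (Finset.ne_of_mem_erase hj)
      have h := (hJ i (hs i hi)).emp (s.erase i) hlt v
      rw [← Finset.insert_erase hi] at hne ⊢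
      by_cases hv : i ∈ v
      · rw [(atom_insert i _ v).1 hv] at hne ⊢
        exact h.1 hne
      · rw [(atom_insert i _ v).2 hv] at hne ⊢
        exact h.2 hne

end Pool.Agent.Work.MP_16b18c_lc
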