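import Pool.Agent.Work.MP_16b18c_lc.LtTower

/-!
Chains of sequences of partial bijections along a tower.
-/

namespace Pool.Agent.Work.MP_16b18c_lc

open Set Filter

variable {κ I : Type*}

/-- States below a level of the tower. -/
structure PreOk (B : I → Set κ) (A : I → Set ℕ) (ψ : Set (κ × ℕ)) (q : St κ ℕ I) : Prop where
  pb : PB q.R
  d1 : (q.R \ ψ).Finite
  exh : ∀ m ∉ rn q.R, ∃ x, ∀ i ∈ q.s, (x ∈ B i ↔ m ∈ A i)

/-- States at a level of the tower. -/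
structure OkL (B : I → Set κ) (A : I → Set ℕ) (ψ : Set (κ × ℕ)) (q : St κ ℕ I) : Prop where
  pre : PreOk B A ψ q
  d2 : (ψ \ q.R).Finite

/-- What is used about a level of the tower. -/
structure Lev (B : I → Set κ) (A : I → Set ℕ) (ψ : Set (κ × ℕ)) : Prop where
  pb : PB ψ
  viol : ∀ i, (viol B A ψ i).Finite
  inf : ∀ (s : Finset I) (v : Set I), (atom B s v).Nonempty → (atom A s v \ rn ψ).Infinite
  emp : ∀ (s : Finset I) (v : Set I), ¬ (atom B s v).Nonempty → (atom A s v).Finite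

theorem Good.lev {W : Type*} [LinearOrder W] {B : W → Set κ} {k : W → κ}
    {ψ : W → Set (κ × ℕ)} {A : W → Set ℕ} (h : Good univ B k ψ A) (c : W) :
    Lev B A (ψ c) :=
  ⟨h.pb c (mem_univ c), fun i => h.viol c (mem_univ c) i (mem_univ i),
    fun s v => h.inf c (mem_univ c) s (fun _ _ => mem_univ _) v,
    fun s v => h.emp s (fun _ _ => mem_univ _) v⟩

theorem PB.countable {R : Set (κ × ℕ)} (h : PB R) : R.Countable := by
  refine (mapsTo_univ (Prod.snd : κ × ℕ → ℕ) R).countable_of_injOn ?_ (countable_univ)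
  rintro ⟨a, b⟩ h1 ⟨a', b'⟩ h2 he
  have he' : b = b' := he
  exact Prod.ext ((h a b a' b' h1 h2).2 he') he'

theorem PB.dm_countable {R : Set (κ × ℕ)} (h : PB R) : (dm R).Countable := by
  refine (h.countable.image Prod.fst).mono ?_
  rintro x ⟨m, hm⟩
  exact ⟨(x, m), hm, rfl⟩

theorem OkL.add_dm {B : I → Set κ} {A : I → Set ℕ} {ψ : Set (κ × ℕ)} (hl : Lev B A ψ)
    {q : St κ ℕ I} (hq : OkL B A ψ q) (x : κ) :
    ∃ q' : St κ ℕ I, OkL B A ψ q' ∧ q.Le B A q' ∧ q'.s = q.s ∧ x ∈ dm q'.R := by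
  classical
  by_cases hx : x ∈ dm q.R
  · exact ⟨q, hq, St.Le.refl B A q, rfl, hx⟩
  · have h1 := hl.inf q.s {i | x ∈ B i} ⟨x, fun i _ => Iff.rfl⟩
    obtain ⟨m, hm, hm'⟩ := (infinite_of_mono hq.pre.d1 h1).nonempty
    refine ⟨⟨insert (x, m) q.R, q.s⟩, ⟨⟨hq.pre.pb.insert hx hm', ?_, ?_⟩, ?_⟩,
      ⟨subset_insert _ _, Finset.Subset.refl _, ?_⟩, rfl, ⟨m, mem_insert _ _⟩⟩
    · refine (hq.pre.d1.insert (x, m)).subset ?_
      rintro p ⟨hp | hp, hp'⟩
      · exact Or.inl hp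
      · exact Or.inr ⟨hp, hp'⟩
    · intro m' hm'
      exact hq.pre.exh m' fun ⟨y, hy⟩ => hm' ⟨y, Or.inr hy⟩
    · exact hq.d2.subset fun p hp => ⟨hp.1, fun h => hp.2 (Or.inr h)⟩
    · rintro a b (h | h) h' i hi
      · have e1 : a = x := (Prod.ext_iff.1 h).1
        have e2 : b = m := (Prod.ext_iff.1 h).2
        rw [e1, e2]
        exact (hm i hi).symm
      · exact absurd h h'

theorem OkL.add_rn {B : I → Set κ} {A : I → Set ℕ} (hB : NE univ B) {ψ : Set (κ × ℕ)}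
    {q : St κ ℕ I} (hq : OkL B A ψ q) (m : ℕ) :
    ∃ q' : St κ ℕ I, OkL B A ψ q' ∧ q.Le B A q' ∧ q'.s = q.s ∧ m ∈ rn q'.R := by
  classical
  by_cases hm : m ∈ rn q.R
  · exact ⟨q, hq, St.Le.refl B A q, rfl, hm⟩
  · obtain ⟨x0, hx0⟩ := hq.pre.exh m hm
    have h1 : ¬ (atom B q.s {i | m ∈ A i}).Countable :=
      hB q.s (fun _ _ => mem_univ _) _ ⟨x0, hx0⟩
    obtain ⟨x, hx, hx'⟩ : ∃ x ∈ atom B q.s {i | m ∈ A i}, x ∉ dm q.R := by
      by_contra hno
      push Not at hno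
      exact h1 (hq.pre.pb.dm_countable.mono hno)
    refine ⟨⟨insert (x, m) q.R, q.s⟩, ⟨⟨hq.pre.pb.insert hx' hm, ?_, ?_⟩, ?_⟩,
      ⟨subset_insert _ _, Finset.Subset.refl _, ?_⟩, rfl, ⟨x, mem_insert _ _⟩⟩
    · refine (hq.pre.d1.insert (x, m)).subset ?_
      rintro p ⟨hp | hp, hp'⟩
      · exact Or.inl hp
      · exact Or.inr ⟨hp, hp'⟩
    · intro m' hm'
      exact hq.pre.exh m' fun ⟨y, hy⟩ => hm' ⟨y, Or.inr hy⟩
    · exact hq.d2.subset fun p hp => ⟨hp.1, fun h => hp.2 (Or.inr h)⟩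
    · rintro a b (h | h) h' i hi
      · have e1 : a = x := (Prod.ext_iff.1 h).1
        have e2 : b = m := (Prod.ext_iff.1 h).2
        rw [e1, e2]
        exact hx i hi
      · exact absurd h h'

theorem OkL.add_dms {B : I → Set κ} {A : I → Set ℕ} {ψ : Set (κ × ℕ)} (hl : Lev B A ψ)
    {q : St κ ℕ I} (hq : OkL B A ψ q) {K : Set κ} (hK : K.Finite) :
    ∃ q' : St κ ℕ I, OkL B A ψ q' ∧ q.Le B A q' ∧ q'.s = q.s ∧ K ⊆ dm q'.R := by
  induction K, hK using Set.Finite.induction_on with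
  | empty => exact ⟨q, hq, St.Le.refl B A q, rfl, empty_subset _⟩
  | insert _ _ ih =>
    obtain ⟨q1, h1, h2, hs, h3⟩ := ih
    obtain ⟨q2, h4, h5, hs', h6⟩ := h1.add_dm hl _
    refine ⟨q2, h4, h2.trans h5, hs'.trans hs, insert_subset h6 fun a ha => ?_⟩
    obtain ⟨b, hb⟩ := h3 ha
    exact ⟨b, h5.sub hb⟩

theorem OkL.add_rns {B : I → Set κ} {A : I → Set ℕ} (hB : NE univ B) {ψ : Set (κ × ℕ)}
    {q : St κ ℕ I} (hq : OkL B A ψ q) {L : Set ℕ} (hL : L.Finite) :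
    ∃ q' : St κ ℕ I, OkL B A ψ q' ∧ q.Le B A q' ∧ q'.s = q.s ∧ L ⊆ rn q'.R := by
  induction L, hL using Set.Finite.induction_on with
  | empty => exact ⟨q, hq, St.Le.refl B A q, rfl, empty_subset _⟩
  | insert _ _ ih =>
    obtain ⟨q1, h1, h2, hs, h3⟩ := ih
    obtain ⟨q2, h4, h5, hs', h6⟩ := h1.add_rn hB _
    refine ⟨q2, h4, h2.trans h5, hs'.trans hs, insert_subset h6 fun a ha => ?_⟩
    obtain ⟨b, hb⟩ := h3 ha
    exact ⟨b, h5.sub hb⟩

theorem finite_unexhausted {B : I → Set κ} {A : I → Set ℕ} {ψ : Set (κ × ℕ)} (hl : Lev B A ψ)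
    (u : Finset I) : {m | ¬ ∃ x, ∀ i ∈ u, (x ∈ B i ↔ m ∈ A i)}.Finite := by
  classical
  refine ((u.finite_toSet.finite_subsets).biUnion
    (t := fun v => {m | ¬ (atom B u v).Nonempty ∧ m ∈ atom A u v}) (fun v _ => ?_)).subset ?_
  · by_cases hv : (atom B u v).Nonempty
    · convert finite_empty
      ext k
      simp [hv]
    · exact (hl.emp u v hv).subset fun m hm => hm.2
  · intro m hm
    refine mem_biUnion (x := {i | i ∈ u ∧ m ∈ A i}) (fun i hi => hi.1) ⟨?_, ?_⟩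
    · rintro ⟨x, hx⟩
      exact hm ⟨x, fun i hi => (hx i hi).trans ⟨fun h => h.2, fun h => ⟨hi, h⟩⟩⟩
    · exact fun i hi => ⟨fun h => ⟨hi, h⟩, fun h => h.2⟩

/-- Extension of states to a higher level, with demands. -/
theorem PreOk.exists_ext {B : I → Set κ} {A : I → Set ℕ} (hB : NE univ B) {ψ : Set (κ × ℕ)}
    (hl : Lev B A ψ) {q : St κ ℕ I} (hq : PreOk B A ψ q) {K : Set κ} (hK : K ⊆ dm ψ)
    {L : Set ℕ} (hL : L.Finite) {t : Set I} (ht : t.Finite) :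
    ∃ q' : St κ ℕ I, OkL B A ψ q' ∧ q.Le B A q' ∧ K ⊆ dm q'.R ∧ L ⊆ rn q'.R ∧ t ⊆ ↑q'.s := by
  classical
  obtain ⟨R1, h1, h2, h3, h4, h5⟩ := raise hq.pb hl.pb hq.d1 q.s (fun i _ => hl.viol i)
    finite_empty
  have hq1 : OkL B A ψ (⟨R1, q.s⟩ : St κ ℕ I) :=
    ⟨⟨h1, h3, fun m hm => hq.exh m fun ⟨y, hy⟩ => hm ⟨y, h2 hy⟩⟩, h4⟩
  have hle1 : q.Le B A (⟨R1, q.s⟩ : St κ ℕ I) :=
    ⟨h2, Finset.Subset.refl _, fun a b h h' => (h5 a b h h').1⟩
  have hKf : (K \ dm R1).Finite := (dm_diff_finite h4).subset fun x hx => ⟨hK hx.1, hx.2⟩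
  obtain ⟨q2, h6, h7, h8, h9⟩ := hq1.add_dms hl hKf
  let u : Finset I := q.s ∪ ht.toFinset
  obtain ⟨q3, h10, h11, h12, h13⟩ := h6.add_rns hB (hL.union (finite_unexhausted hl u))
  have hle := (hle1.trans h7).trans h11
  refine ⟨⟨q3.R, u⟩, ⟨⟨h10.pre.pb, h10.pre.d1, fun m hm => ?_⟩, h10.d2⟩,
    ⟨hle.sub, Finset.subset_union_left, hle.new⟩, fun x hx => ?_,
    fun m hm => h13 (Or.inl hm), fun i hi => ?_⟩
  · by_contra hno
    exact hm (h13 (Or.inr hno))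
  · have h14 : x ∈ dm q2.R := by
      by_cases hx1 : x ∈ dm R1
      · obtain ⟨b, hb⟩ := hx1
        exact ⟨b, h7.sub hb⟩
      · exact h9 ⟨hx, hx1⟩
    obtain ⟨b, hb⟩ := h14
    exact ⟨b, h11.sub hb⟩
  · exact Finset.mem_coe.2 (Finset.mem_union_right _ (ht.mem_toFinset.2 hi))

/-- A chain of sequences of states along the tower. -/
theorem exists_chainL {W : Type*} [LinearOrder W] [WellFoundedLT W]
    (hW : ∀ c : W, (Iio c).Countable) {B : W → Set κ} (hB : NE univ B) {k : W → κ}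
    {ψ : W → Set (κ × ℕ)} {A : W → Set ℕ} (hg : Good univ B k ψ A) [Nonempty κ]
    (L : W → ℕ → Set ℕ) (hL : ∀ c n, (L c n).Finite) (t : W → ℕ → Set W)
    (ht : ∀ c n, (t c n).Finite) :
    ∃ φ : W → ℕ → St κ ℕ W, (∀ c n, OkL B A (ψ c) (φ c n)) ∧
      (∀ i c, i < c → ∀ᶠ n in atTop, (φ i n).Le B A (φ c n)) ∧
      ∀ c n, (∀ i ≤ c, k i ∈ dm (φ c n).R) ∧ L c n ⊆ rn (φ c n).R ∧ t c n ⊆ ↑(φ c n).s := by
  classical
  let Q : W → (W → ℕ → St κ ℕ W) → (ℕ → St κ ℕ W) → Prop := fun c f q =>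
    (∀ n, OkL B A (ψ c) (q n)) ∧ (∀ i, i < c → ∀ᶠ n in atTop, (f i n).Le B A (q n)) ∧
      ∀ n, (∀ i ≤ c, k i ∈ dm (q n).R) ∧ L c n ⊆ rn (q n).R ∧ t c n ⊆ ↑(q n).s
  have : Nonempty (ℕ → St κ ℕ W) := ⟨fun _ => ⟨∅, ∅⟩⟩
  have h1 : ∀ c f g, (∀ i, i < c → f i = g i) → ∀ q, Q c f q → Q c g q := by
    intro c f g hfg q hq
    exact ⟨hq.1, fun i hi => hfg i hi ▸ hq.2.1 i hi, hq.2.2⟩
  have h2 : ∀ c (f : W → ℕ → St κ ℕ W), (∀ i, i < c → Q i f (f i)) → ∃ q, Q c f q := by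
    intro c f hf
    obtain ⟨q0, hq00, hq0⟩ : ∃ q : ℕ → St κ ℕ W, (∀ n, PreOk B A (ψ c) (q n)) ∧
        ∀ i, i < c → ∀ᶠ n in atTop, (f i n).Le B A (q n) := by
      rcases (Iio c).eq_empty_or_nonempty with he | hne
      · refine ⟨fun _ => ⟨∅, ∅⟩, fun n => ⟨fun a b a' b' h => absurd h (notMem_empty _), ?_, ?_⟩,
          fun i hi => ?_⟩
        · exact finite_empty.subset fun p hp => hp.1
        · intro m _
          obtain ⟨x⟩ := ‹Nonempty κ›
          exact ⟨x, fun i hi => absurd hi (Finset.notMem_empty i)⟩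
        · have : i ∈ Iio c := hi
          rw [he] at this
          exact absurd this (notMem_empty i)
      · obtain ⟨g, hgr⟩ := (hW c).exists_eq_range hne
        have hgc : ∀ j, g j < c := fun j => by
          have : g j ∈ Iio c := hgr ▸ mem_range_self j
          exact this
        let r : (ℕ → St κ ℕ W) → (ℕ → St κ ℕ W) → Prop := fun a b =>
          ∀ᶠ n in atTop, (a n).Le B A (b n)
        have hr : ∀ i j, i < c → j < c → i ≤ j → r (f i) (f j) := by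
          intro i j hi hj hij
          rcases hij.eq_or_lt with rfl | hlt
          · exact Eventually.of_forall fun n => St.Le.refl B A _
          · exact (hf j hj).2.1 i hlt
        have hdir : Directed r (fun j => f (g j)) := by
          intro a b
          rcases le_total (g a) (g b) with hab | hab
          · exact ⟨b, hr _ _ (hgc a) (hgc b) hab, hr _ _ (hgc b) (hgc b) le_rfl⟩
          · exact ⟨a, hr _ _ (hgc a) (hgc a) le_rfl, hr _ _ (hgc b) (hgc a) hab⟩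
        have hpre : ∀ i, i < c → ∀ n, PreOk B A (ψ c) (f i n) := by
          intro i hi n
          have h3 := ((hf i hi).1 n).pre
          refine ⟨h3.pb, ?_, h3.exh⟩
          refine (h3.d1.union (hg.mono i (mem_univ _) c (mem_univ _) hi.le)).subset fun p hp => ?_
          by_cases hp' : p ∈ ψ i
          · exact Or.inr ⟨hp', hp.2⟩
          · exact Or.inl ⟨hp.1, hp'⟩
        obtain ⟨Q0, hQ0, hQ1⟩ := exists_bound_seq (T := St κ ℕ W) (le := fun a b => a.Le B A b)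
          (fun a => St.Le.refl B A a) (fun a b c h h' => h.trans h') (PreOk B A (ψ c))
          (fun j => f (g (hdir.sequence _ j))) (fun j n => hpre _ (hgc _) n)
          (fun j => hdir.sequence_mono_nat j)
        refine ⟨Q0, hQ0, fun i hi => ?_⟩
        have hi' : i ∈ range g := hgr ▸ hi
        obtain ⟨j, rfl⟩ := hi'
        filter_upwards [hdir.rel_sequence j, hQ1 (Encodable.encode j + 1)] with n h1 h2
        exact h1.trans h2
    have hK : k '' Iic c ⊆ dm (ψ c) := by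
      rintro _ ⟨i, hi, rfl⟩
      exact hg.dom c (mem_univ c) i hi
    choose q1 h3 h4 h5 h6 h7 using fun n =>
      (hq00 n).exists_ext hB (hg.lev c) hK (hL c n) (ht c n)
    refine ⟨q1, h3, fun i hi => ?_, fun n => ⟨fun i hi => h5 n ⟨i, hi, rfl⟩, h6 n, h7 n⟩⟩
    filter_upwards [hq0 i hi] with n hn
    exact hn.trans (h4 n)
  obtain ⟨φ, hφ⟩ := exists_rec Q h1 h2
  exact ⟨φ, fun c n => (hφ c).1 n, fun i c hi => (hφ c).2.1 i hi, fun c n => (hφ c).2.2 n⟩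

end Pool.Agent.Work.MP_16b18c_lc
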