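import Pool.Agent.Work.MP_16b18c_lc.LtIso

/-!
The isomorphism of the algebras of sets given by columns, along a tower, under a dominating family
of size `ℵ₁`.
-/

namespace Pool.Agent.Work.MP_16b18c_lc

open Set Filter

variable {κ W : Type*}

/-- Indices that catch sequences of finite sets of indices and of numbers. -/
theorem exists_catch₂ [LinearOrder W] [Uncountable W]
    (hW : ∀ c : W, (Iio c).Countable) {F : W → ℕ → ℕ}
    (hF : ∀ g : ℕ → ℕ, ∃ b, ∀ᶠ n in atTop, g n ≤ F b n) {e : W → ℕ → W}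
    (he : ∀ a c, c < a → ∃ j, e a j = c) (C : ℕ → Set W) (hC : ∀ n, (C n).Finite)
    (L : ℕ → Set ℕ) (hL : ∀ n, (L n).Finite) :
    ∃ a b, ∀ᶠ n in atTop, C n ⊆ e a '' Iio (F b n) ∧ L n ⊆ Iio (F b n) := by
  classical
  obtain ⟨a, ha⟩ := exists_bound_index hW
    (countable_iUnion fun n => (hC n).countable : (⋃ n, C n).Countable)
  have h1 : ∀ n, ∃ N, C n ⊆ e a '' Iio N ∧ L n ⊆ Iio N := by
    intro n
    choose! j hj using fun c (hc : c ∈ C n) => he a c (ha c (mem_iUnion.2 ⟨n, hc⟩))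
    obtain ⟨N, hN⟩ := ((hC n).image j).bddAbove
    obtain ⟨M, hM⟩ := (hL n).bddAbove
    refine ⟨max (N + 1) (M + 1), fun c hc => ⟨j c, ?_, hj c hc⟩, fun m hm => ?_⟩
    · exact lt_of_lt_of_le (Nat.lt_succ_of_le (hN ⟨c, hc, rfl⟩)) (le_max_left _ _)
    · exact lt_of_lt_of_le (Nat.lt_succ_of_le (hM hm)) (le_max_right _ _)
  choose g hg using h1
  obtain ⟨b, hb⟩ := hF g
  refine ⟨a, b, ?_⟩
  filter_upwards [hb] with n hn
  exact ⟨(hg n).1.trans (image_mono (Iio_subset_Iio hn)), (hg n).2.trans (Iio_subset_Iio hn)⟩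

theorem Good.exists_colIso [LinearOrder W] [WellFoundedLT W] [Uncountable W] [Nonempty κ]
    (hW : ∀ c : W, (Iio c).Countable) {B : W → Set κ} (hB : NE univ B) {k : W → κ}
    (hk : Function.Surjective k) {ψ : W → Set (κ × ℕ)} {A : W → Set ℕ}
    (hg : Good univ B k ψ A) {𝓑 : Set (Set κ)} (h𝓑 : IsAlg 𝓑)
    (hcov : ∀ X ∈ 𝓑, ∃ i, (symmDiff X (B i)).Countable)
    {F : W → ℕ → ℕ} (hF : ∀ g : ℕ → ℕ, ∃ b, ∀ᶠ n in atTop, g n ≤ F b n) :
    ∃ e : Cols (Twin B A ψ 𝓑) ≃o Cols 𝓑,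
      (∀ a, a.1 ∈ Cols ({∅} : Set (Set ℕ)) ↔ (e a).1 ∈ Cols ({∅} : Set (Set κ))) ∧
      ∀ K : Set κ, K.Countable → ∃ g : ℕ → κ → ℕ, (∀ n, InjOn (g n) K) ∧
        ∀ x : ℕ → Set κ, (∀ n, x n ∈ 𝓑 ∧ x n ⊆ K) →
          ∃ h : PFin.mk (colSet fun n => g n '' x n) ∈ Cols (Twin B A ψ 𝓑),
            (e ⟨_, h⟩).1 = PFin.mk (colSet x) := by
  classical
  obtain ⟨π⟩ : Nonempty (W ≃ W × W) := by
    have : Infinite W := inferInstance
    refine Cardinal.eq.1 ?_
    rw [Cardinal.mk_prod, Cardinal.lift_id,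
      Cardinal.mul_eq_self (Cardinal.aleph0_le_mk W)]
  obtain ⟨en, hen⟩ : ∃ e : W → ℕ → W, ∀ a c, c < a → ∃ j, e a j = c := by
    have h1 : ∀ a : W, ∃ f : ℕ → W, ∀ c, c < a → ∃ j, f j = c := by
      intro a
      rcases (Iio a).eq_empty_or_nonempty with h0 | hne
      · refine ⟨fun _ => a, fun c hc => ?_⟩
        have : c ∈ Iio a := hc
        rw [h0] at this
        exact absurd this (notMem_empty c)
      · obtain ⟨f, hf⟩ := (hW a).exists_eq_range hne
        exact ⟨f, fun c hc => by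
          have : c ∈ range f := hf ▸ hc
          exact this⟩
    choose e he using h1
    exact ⟨e, he⟩
  let T : W → ℕ → Set W := fun c n => en (π c).1 '' Iio (F (π c).2 n)
  let Lc : W → ℕ → Set ℕ := fun c n => Iio (F (π c).2 n)
  obtain ⟨φ, hok, hle, hdem⟩ := exists_chainL hW hB hg Lc (fun c n => finite_Iio _) T
    (fun c n => (finite_Iio _).image _)
  have hcatch : ∀ (C : ℕ → Set W) (L : ℕ → Set ℕ), (∀ n, (C n).Finite) → (∀ n, (L n).Finite) →
      ∀ a, ∃ c, a ≤ c ∧ ∀ᶠ n in atTop, C n ⊆ ↑(φ c n).s ∧ L n ⊆ rn (φ c n).R := by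
    intro C L hC hL a
    obtain ⟨a', b, hab⟩ := exists_catch₂ hW hF hen C hC L hL
    have h1 : ∀ᶠ n in atTop, C n ⊆ ↑(φ (π.symm (a', b)) n).s ∧
        L n ⊆ rn (φ (π.symm (a', b)) n).R := by
      filter_upwards [hab] with n hn
      have e1 : T (π.symm (a', b)) n = en a' '' Iio (F b n) := by simp [T]
      have e2 : Lc (π.symm (a', b)) n = Iio (F b n) := by simp [Lc]
      exact ⟨(e1 ▸ hn.1).trans (hdem _ n).2.2, (e2 ▸ hn.2).trans (hdem _ n).2.1⟩
    rcases le_or_gt a (π.symm (a', b)) with h | h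
    · exact ⟨_, h, h1⟩
    · refine ⟨a, le_rfl, ?_⟩
      filter_upwards [h1, hle _ _ h] with n hn hn'
      refine ⟨hn.1.trans hn'.idx, hn.2.trans ?_⟩
      rintro m ⟨x, hx⟩
      exact ⟨x, hn'.sub hx⟩
  have hrn : ∀ {c c' : W}, c ≤ c' → ∀ᶠ n in atTop, rn (φ c n).R ⊆ rn (φ c' n).R := by
    intro c c' hcc
    rcases hcc.eq_or_lt with rfl | hlt
    · exact Eventually.of_forall fun n => Subset.rfl
    · filter_upwards [hle c c' hlt] with n hn
      rintro m ⟨x, hx⟩
      exact ⟨x, hn.sub hx⟩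
  have hmono : ∀ {x : ℕ → Set κ} {y : ℕ → Set ℕ} {c c' : W}, c ≤ c' →
      (∀ᶠ n in atTop, Match B A (φ c n) (x n) (y n)) →
      ∀ᶠ n in atTop, Match B A (φ c' n) (x n) (y n) := by
    intro x y c c' hcc hm
    rcases hcc.eq_or_lt with rfl | hlt
    · exact hm
    · filter_upwards [hm, hle c c' hlt] with n h1 h2
      exact h1.monoL (hok c' n).pre.pb h2
  obtain ⟨i0, hi0, hi0'⟩ := exists_empty_index hB hg (hcov ∅ h𝓑.1)
  let ρ : Cols (Twin B A ψ 𝓑) → Cols 𝓑 → Prop := fun a b =>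
    ∃ (y : ℕ → Set ℕ) (x : ℕ → Set κ), PFin.mk (colSet y) = a.1 ∧ PFin.mk (colSet x) = b.1 ∧
      (∀ n, ∃ c, MatchF B A (ψ c) (x n) (y n)) ∧
      ∃ c, ∀ᶠ n in atTop, Match B A (φ c n) (x n) (y n)
  have hsd : ∀ {X X' : Set κ}, (X \ X').Finite → (X' \ X).Finite → (symmDiff X X').Finite := by
    intro X X' h h'
    rw [symmDiff_def]
    exact h.union h'
  have hρ1 : ∀ a, ∃ b, ρ a b := by
    rintro ⟨_, y, hy, rfl⟩
    have hy0 := hy
    choose Y' hY' hyY using hy0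
    choose X hX c0 hc0 using hY'
    have hc1 : ∀ n, MatchF B A (ψ (c0 n)) (X n) (y n) := fun n =>
      (hc0 n).congr (hg.pb _ (mem_univ _)) (by rw [symmDiff_self]; exact finite_empty)
        (by rw [symmDiff_comm]; exact hyY n)
    obtain ⟨a, ha⟩ := exists_bound_index hW (countable_range c0)
    have hc2 : ∀ n, MatchF B A (ψ a) (X n) (y n) := fun n =>
      hg.raise (ha _ (mem_range_self n)).le (hc1 n)
    choose h1 i h2 h3 using hc2
    obtain ⟨c, hac, hc⟩ := hcatch (fun n => {i n})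
      (fun n => symmDiff (y n) (A (i n)) \ rn (φ a n).R) (fun n => finite_singleton _)
      (fun n => by
        refine ((h3 n).union (rn_diff_finite (hok a n).d2)).subset ?_
        rintro m ⟨hm, hm'⟩
        by_cases hr : m ∈ rn (ψ a)
        · exact Or.inr ⟨hr, hm'⟩
        · exact Or.inl ⟨hm, hr⟩) a
    have h4 : ∀ᶠ n in atTop, ∃ Z, Match B A (φ c n) Z (y n) := by
      filter_upwards [hc, hrn hac] with n hn hn'
      refine exists_matchL' (hok c n).pre.pb (i := i n) (hn.1 rfl) ?_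
      intro m hm
      by_cases hr : m ∈ rn (φ a n).R
      · exact hn' hr
      · exact hn.2 ⟨hm, hr⟩
    let x : ℕ → Set κ := fun n =>
      if hn : ∃ Z, Match B A (φ c n) Z (y n) then hn.choose else X n
    have hx : ∀ n, (∃ c, MatchF B A (ψ c) (x n) (y n)) ∧ (symmDiff (x n) (X n)).Finite := by
      intro n
      by_cases hn : ∃ Z, Match B A (φ c n) Z (y n)
      · have h5 : x n = hn.choose := dif_pos hn
        have h6 := hn.choose_spec.matchF (hok c n)
        rw [h5]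
        exact ⟨⟨c, h6⟩, hsd ((hg.sdiff_finite hB h6 (hc1 n)).2 (sdiff_self_finite _))
          ((hg.sdiff_finite hB (hc1 n) h6).2 (sdiff_self_finite _))⟩
      · have h5 : x n = X n := dif_neg hn
        rw [h5]
        exact ⟨⟨_, hc1 n⟩, by rw [symmDiff_self]; exact finite_empty⟩
    refine ⟨⟨PFin.mk (colSet x), x, fun n => ⟨X n, hX n, (hx n).2⟩, rfl⟩, y, x, rfl, rfl,
      fun n => (hx n).1, c, ?_⟩
    filter_upwards [h4] with n hn
    have h5 : x n = hn.choose := dif_pos hn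
    rw [h5]
    exact hn.choose_spec
  have hρ2 : ∀ b, ∃ a, ρ a b := by
    rintro ⟨_, x, hx, rfl⟩
    have hx0 := hx
    choose X' hX' hxX using hx0
    choose i hi using fun n => hcov (X' n) (hX' n)
    have hi' : ∀ n, (symmDiff (x n) (B (i n))).Countable := fun n =>
      ((hxX n).countable.union (hi n)).mono (symmDiff_triangle _ _ _)
    obtain ⟨a, ha⟩ := exists_cover hW hk
      (countable_iUnion fun n => hi' n : (⋃ n, symmDiff (x n) (B (i n))).Countable)
    obtain ⟨c, hac, hc⟩ := hcatch (fun n => {i n}) (fun n => ∅) (fun n => finite_singleton _)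
      (fun n => finite_empty) a
    have h4 : ∀ᶠ n in atTop, ∃ Y, Match B A (φ c n) (x n) Y := by
      filter_upwards [hc] with n hn
      refine exists_matchL (hok c n).pre.pb (i := i n) (hn.1 rfl) ?_
      intro z hz
      obtain ⟨j, hj, rfl⟩ := ha z (mem_iUnion.2 ⟨n, hz⟩)
      exact (hdem c n).1 j (hj.le.trans hac)
    choose Y0 c0 hc0 using fun n => hg.exists_matchF hW hk (hi' n)
    let y : ℕ → Set ℕ := fun n =>
      if hn : ∃ Y, Match B A (φ c n) (x n) Y then hn.choose else Y0 n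
    have hy : ∀ n, ∃ c, MatchF B A (ψ c) (x n) (y n) := by
      intro n
      by_cases hn : ∃ Y, Match B A (φ c n) (x n) Y
      · have h5 : y n = hn.choose := dif_pos hn
        rw [h5]
        exact ⟨c, hn.choose_spec.matchF (hok c n)⟩
      · have h5 : y n = Y0 n := dif_neg hn
        rw [h5]
        exact ⟨_, hc0 n⟩
    refine ⟨⟨PFin.mk (colSet y), y, fun n => ⟨y n, ?_, ?_⟩, rfl⟩, y, x, rfl, rfl, hy, c, ?_⟩
    · obtain ⟨c', hc'⟩ := hy n
      exact ⟨X' n, hX' n, c', hc'.congr (hg.pb _ (mem_univ _)) (hxX n)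
        (by rw [symmDiff_self]; exact finite_empty)⟩
    · rw [symmDiff_self]
      exact finite_empty
    · filter_upwards [h4] with n hn
      have h5 : y n = hn.choose := dif_pos hn
      rw [h5]
      exact hn.choose_spec
  have hρ3 : ∀ a b a' b', ρ a b → ρ a' b' → (a ≤ a' ↔ b ≤ b') := by
    rintro ⟨a, ha⟩ ⟨b, hb⟩ ⟨a', ha'⟩ ⟨b', hb'⟩ ⟨y, x, hy, hx, h1, c, hc⟩
      ⟨y', x', hy', hx', h1', c', hc'⟩
    change a ≤ a' ↔ b ≤ b'
    rw [← show PFin.mk (colSet x) = b from hx, ← show PFin.mk (colSet x') = b' from hx',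
      ← show PFin.mk (colSet y) = a from hy, ← show PFin.mk (colSet y') = a' from hy',
      mk_colSet_le, mk_colSet_le]
    refine and_congr (forall_congr' fun n => ?_) ?_
    · obtain ⟨d, hd⟩ := h1 n
      obtain ⟨d', hd'⟩ := h1' n
      exact (hg.sdiff_finite hB hd hd').symm
    · have h2 := hmono (le_max_left c c') hc
      have h3 := hmono (le_max_right c c') hc'
      refine Filter.eventually_congr ?_
      filter_upwards [h2, h3] with n h4 h5
      exact (h4.subset_iffL hB (hg.lev _) (hok _ n) h5).symm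
  obtain ⟨E, hE⟩ := orderIso_of_rel ρ hρ1 hρ2 hρ3
  refine ⟨E, fun a => ?_, fun K hK => ?_⟩
  · obtain ⟨y, x, hy, hx, h1, -⟩ := hE a
    rw [← hx, ← hy, mk_colSet_mem_Cols, mk_colSet_mem_Cols]
    refine forall_congr' fun n => ?_
    obtain ⟨d, hd⟩ := h1 n
    simp only [mem_singleton_iff, exists_eq_left]
    rw [show symmDiff (x n) (∅ : Set κ) = x n from symmDiff_bot _,
      show symmDiff (y n) (∅ : Set ℕ) = y n from symmDiff_bot _]
    have h2 := hg.sdiff_finite hB hd (matchF_empty hi0 hi0' (ψ d) : MatchF B A (ψ d) ∅ ∅)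
    rw [Set.sdiff_empty, Set.sdiff_empty] at h2
    exact h2.symm
  · obtain ⟨a, ha⟩ := exists_cover hW hk hK
    obtain ⟨c, hac, hc⟩ := hcatch (fun _ => {i0}) (fun _ => ∅) (fun n => finite_singleton _)
      (fun n => finite_empty) a
    have hKd : ∀ n, K ⊆ dm (φ c n).R := by
      intro n x hx
      obtain ⟨j, hj, rfl⟩ := ha x hx
      exact (hdem c n).1 j (hj.le.trans hac)
    refine ⟨fun n => fn (φ c n).R, fun n => fn_injOn (hok c n).pre.pb (hKd n), fun x hx => ?_⟩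
    have hxd : ∀ n, x n ⊆ dm (φ c n).R := fun n => (hx n).2.trans (hKd n)
    have hR : ∀ n z m, (z, m) ∈ (φ c n).R → (z ∈ x n ↔ m ∈ fn (φ c n).R '' x n) :=
      fun n z m hp => mem_image_fn (hok c n).pre.pb (hxd n) hp
    have hm : ∀ n, MatchF B A (ψ c) (x n) (fn (φ c n).R '' x n) := by
      intro n
      refine ⟨(hok c n).d2.subset ?_, i0, ?_, ?_⟩
      · rintro ⟨z, m⟩ ⟨hp, hbad⟩
        exact ⟨hp, fun h => hbad (hR n z m h)⟩
      · refine (dm_diff_finite (hok c n).pre.d1).subset ?_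
        rintro z ⟨h | h, hd⟩
        · exact ⟨hxd n h.1, hd⟩
        · exact absurd h.1 (hi0 z)
      · refine ((rn_diff_finite (hok c n).pre.d1).union hi0').subset ?_
        rintro m ⟨h | h, hd⟩
        · obtain ⟨⟨z, hz, rfl⟩, -⟩ := h
          exact Or.inl ⟨mem_rn (fn_mem (hxd n hz)), hd⟩
        · exact Or.inr h.1
    have hM : ∀ᶠ n in atTop, Match B A (φ c n) (x n) (fn (φ c n).R '' x n) := by
      filter_upwards [hc] with n hn
      refine ⟨hR n, i0, hn.1 rfl, fun z hz => ?_, fun m hmr => ?_⟩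
      · exact ⟨fun h => absurd (hxd n h) hz, fun h => absurd h (hi0 z)⟩
      · constructor
        · rintro ⟨z, hz, rfl⟩
          exact absurd (mem_rn (fn_mem (hxd n hz))) hmr
        · intro h
          obtain ⟨z, hz⟩ := (hok c n).pre.exh m hmr
          exact absurd ((hz i0 (hn.1 rfl)).2 h) (hi0 z)
    have hmem : PFin.mk (colSet fun n => fn (φ c n).R '' x n) ∈ Cols (Twin B A ψ 𝓑) :=
      ⟨_, fun n => ⟨_, ⟨x n, (hx n).1, c, hm n⟩, by rw [symmDiff_self]; exact finite_empty⟩, rfl⟩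
    have hmem' : PFin.mk (colSet x) ∈ Cols 𝓑 :=
      ⟨x, fun n => ⟨x n, (hx n).1, by rw [symmDiff_self]; exact finite_empty⟩, rfl⟩
    refine ⟨hmem, ?_⟩
    have h2 := eq_of_rel hρ3 (hE ⟨_, hmem⟩) (q' := ⟨_, hmem'⟩)
      ⟨_, x, rfl, rfl, fun n => ⟨c, hm n⟩, c, hM⟩
    exact congrArg Subtype.val h2

end Pool.Agent.Work.MP_16b18c_lc
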