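import Pool.Agent.Work.MP_16b18c_lc.LtAlg

/-!
The isomorphisms given by a tower, for single sets and for columns.
-/

namespace Pool.Agent.Work.MP_16b18c_lc

open Set Filter

variable {κ W : Type*}

theorem eq_of_rel {P Q : Type*} [PartialOrder P] [PartialOrder Q] {ρ : P → Q → Prop}
    (h : ∀ p q p' q', ρ p q → ρ p' q' → (p ≤ p' ↔ q ≤ q')) {p : P} {q q' : Q}
    (h1 : ρ p q) (h2 : ρ p q') : q = q' :=
  le_antisymm ((h _ _ _ _ h1 h2).1 le_rfl) ((h _ _ _ _ h2 h1).1 le_rfl)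

/-- The isomorphism of the algebras modulo finite sets. -/
theorem Good.exists_iso [LinearOrder W] [Uncountable W]
    (hW : ∀ c : W, (Iio c).Countable) {B : W → Set κ} (hB : NE univ B) {k : W → κ}
    (hk : Function.Surjective k) {ψ : W → Set (κ × ℕ)} {A : W → Set ℕ}
    (hg : Good univ B k ψ A) {𝓑 : Set (Set κ)} (h𝓑 : IsAlg 𝓑)
    (hcov : ∀ X ∈ 𝓑, ∃ i, (symmDiff X (B i)).Countable) :
    ∃ e : (PFin.mk '' Twin B A ψ 𝓑 : Set (PFin ℕ)) ≃o (PFin.mk '' 𝓑 : Set (PFin κ)),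
      ∀ K : Set κ, K.Countable → ∃ g : κ → ℕ, InjOn g K ∧ ∀ X ∈ 𝓑, X ⊆ K →
        ∃ h : PFin.mk (g '' X) ∈ PFin.mk '' Twin B A ψ 𝓑, (e ⟨_, h⟩).1 = PFin.mk X := by
  classical
  let ρ : (PFin.mk '' Twin B A ψ 𝓑 : Set (PFin ℕ)) → (PFin.mk '' 𝓑 : Set (PFin κ)) → Prop :=
    fun a b => ∃ Y X c, PFin.mk Y = a.1 ∧ PFin.mk X = b.1 ∧ MatchF B A (ψ c) X Y
  have hρ1 : ∀ a, ∃ b, ρ a b := by
    rintro ⟨_, Y, ⟨X, hX, c, hc⟩, rfl⟩
    exact ⟨⟨_, X, hX, rfl⟩, Y, X, c, rfl, rfl, hc⟩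
  have hρ2 : ∀ b, ∃ a, ρ a b := by
    rintro ⟨_, X, hX, rfl⟩
    obtain ⟨i, hi⟩ := hcov X hX
    obtain ⟨Y, c, hc⟩ := hg.exists_matchF hW hk hi
    exact ⟨⟨_, Y, ⟨X, hX, c, hc⟩, rfl⟩, Y, X, c, rfl, rfl, hc⟩
  have hρ3 : ∀ a b a' b', ρ a b → ρ a' b' → (a ≤ a' ↔ b ≤ b') := by
    rintro ⟨a, ha⟩ ⟨b, hb⟩ ⟨a', ha'⟩ ⟨b', hb'⟩ ⟨Y, X, c, hY, hX, hc⟩ ⟨Y', X', c', hY', hX', hc'⟩
    change a ≤ a' ↔ b ≤ b'
    rw [← show PFin.mk Y = a from hY, ← show PFin.mk Y' = a' from hY',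
      ← show PFin.mk X = b from hX, ← show PFin.mk X' = b' from hX', PFin.mk_le, PFin.mk_le]
    exact (hg.sdiff_finite hB hc hc').symm
  obtain ⟨e, he⟩ := orderIso_of_rel ρ hρ1 hρ2 hρ3
  refine ⟨e, fun K hK => ?_⟩
  obtain ⟨a, ha⟩ := exists_cover hW hk hK
  obtain ⟨i0, h0, h1⟩ := exists_empty_index hB hg (hcov ∅ h𝓑.1)
  have hKd : K ⊆ dm (ψ a) := by
    intro x hx
    obtain ⟨j, hj, rfl⟩ := ha x hx
    exact hg.dom a (mem_univ _) j hj.le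
  refine ⟨fn (ψ a), fn_injOn (hg.pb a (mem_univ _)) hKd, fun X hX hXK => ?_⟩
  have hm : MatchF B A (ψ a) X (fn (ψ a) '' X) := by
    refine ⟨?_, i0, ?_, ?_⟩
    · convert finite_empty
      ext ⟨x, m⟩
      constructor
      · rintro ⟨hp, hbad⟩
        exact absurd (mem_image_fn (hg.pb a (mem_univ _)) (hXK.trans hKd) hp) hbad
      · intro h
        exact absurd h (notMem_empty _)
    · refine finite_empty.subset ?_
      rintro x ⟨h | h, hd⟩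
      · exact absurd (hKd (hXK h.1)) hd
      · exact absurd h.1 (h0 x)
    · refine h1.subset ?_
      rintro m ⟨h | h, hd⟩
      · obtain ⟨⟨x, hx, rfl⟩, -⟩ := h
        exact absurd (mem_rn (fn_mem (hKd (hXK hx)))) hd
      · exact h.1
  refine ⟨⟨_, ⟨X, hX, a, hm⟩, rfl⟩, ?_⟩
  have h2 := eq_of_rel hρ3 (he ⟨_, ⟨_, ⟨X, hX, a, hm⟩, rfl⟩⟩)
    (q' := ⟨PFin.mk X, X, hX, rfl⟩) ⟨_, X, a, rfl, rfl, hm⟩
  exact congrArg Subtype.val h2

theorem Match.monoL {B : W → Set κ} {A : W → Set ℕ} {q q' : St κ ℕ W} {X : Set κ} {Y : Set ℕ}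
    (h : Match B A q X Y) (hq' : PB q'.R) (hle : q.Le B A q') : Match B A q' X Y := by
  obtain ⟨h1, i, hi, h2, h3⟩ := h
  refine ⟨fun k m hk => ?_, i, hle.idx hi, fun k hk => h2 k ?_, fun m hm => h3 m ?_⟩
  · by_cases hq : (k, m) ∈ q.R
    · exact h1 k m hq
    · have hk1 : k ∉ dm q.R := by
        rintro ⟨m', hm'⟩
        have := (hq' k m' k m (hle.sub hm') hk).1 rfl
        exact hq (this ▸ hm')
      have hm1 : m ∉ rn q.R := by
        rintro ⟨k', hk'⟩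
        have := (hq' k' m k m (hle.sub hk') hk).2 rfl
        exact hq (this ▸ hk')
      rw [h2 k hk1, h3 m hm1]
      exact hle.new k m hk hq i hi
  · rintro ⟨m, hm⟩
    exact hk ⟨m, hle.sub hm⟩
  · rintro ⟨k, hk⟩
    exact hm ⟨k, hle.sub hk⟩

theorem Match.subset_iffL {B : W → Set κ} {A : W → Set ℕ} (hB : NE univ B)
    {ψ : Set (κ × ℕ)} (hl : Lev B A ψ) {q : St κ ℕ W} (hq : OkL B A ψ q)
    {X X' : Set κ} {Y Y' : Set ℕ} (h1 : Match B A q X Y) (h2 : Match B A q X' Y') :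
    X ⊆ X' ↔ Y ⊆ Y' := by
  obtain ⟨h1, i, hi, hi1, hi2⟩ := h1
  obtain ⟨h2, j, hj, hj1, hj2⟩ := h2
  constructor
  · intro hX m hm
    by_cases hmr : m ∈ rn q.R
    · obtain ⟨k, hk⟩ := hmr
      exact (h2 k m hk).1 (hX ((h1 k m hk).2 hm))
    · rw [hj2 m hmr]
      by_contra hmj
      have hmi := (hi2 m hmr).1 hm
      obtain ⟨x0, hx0⟩ := hq.pre.exh m hmr
      have h4 : ¬ (atom B q.s {i | m ∈ A i}).Countable :=
        hB q.s (fun _ _ => mem_univ _) _ ⟨x0, hx0⟩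
      obtain ⟨x, hx, hx'⟩ : ∃ x ∈ atom B q.s {i | m ∈ A i}, x ∉ dm q.R := by
        by_contra hno
        push Not at hno
        exact h4 (hq.pre.pb.dm_countable.mono hno)
      have hkX : x ∈ X := (hi1 x hx').2 ((hx i hi).2 hmi)
      exact hmj ((hx j hj).1 ((hj1 x hx').1 (hX hkX)))
  · intro hY x hx
    by_cases hxd : x ∈ dm q.R
    · obtain ⟨m, hm⟩ := hxd
      exact (h2 x m hm).2 (hY ((h1 x m hm).1 hx))
    · rw [hj1 x hxd]
      by_contra hxj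
      have hxi := (hi1 x hxd).1 hx
      have h3 := hl.inf q.s {i | x ∈ B i} ⟨x, fun i _ => Iff.rfl⟩
      obtain ⟨m, hm, hm'⟩ := (infinite_of_mono hq.pre.d1 h3).nonempty
      have hmY : m ∈ Y := (hi2 m hm').2 ((hm i hi).2 hxi)
      exact hxj ((hm j hj).1 ((hj2 m hm').1 (hY hmY)))

theorem exists_matchL {B : W → Set κ} {A : W → Set ℕ} {q : St κ ℕ W}
    (hq : PB q.R) {X : Set κ} {i : W} (hi : i ∈ q.s) (hX : symmDiff X (B i) ⊆ dm q.R) :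
    ∃ Y : Set ℕ, Match B A q X Y := by
  refine ⟨{m | (∃ k, (k, m) ∈ q.R ∧ k ∈ X) ∨ (m ∉ rn q.R ∧ m ∈ A i)}, fun k m hk => ?_, i, hi,
    fun k hk => ?_, fun m hm => ?_⟩
  · constructor
    · intro h
      exact Or.inl ⟨k, hk, h⟩
    · rintro (⟨k', hk', h⟩ | ⟨h, -⟩)
      · have := (hq k' m k m hk' hk).2 rfl
        exact this ▸ h
      · exact absurd (mem_rn hk) h
  · by_contra hne
    refine hk (hX ?_)
    rw [mem_symmDiff]
    tauto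
  · constructor
    · rintro (⟨k', hk', -⟩ | ⟨-, h⟩)
      · exact absurd (mem_rn hk') hm
      · exact h
    · intro h
      exact Or.inr ⟨hm, h⟩

theorem exists_matchL' {B : W → Set κ} {A : W → Set ℕ} {q : St κ ℕ W}
    (hq : PB q.R) {Y : Set ℕ} {i : W} (hi : i ∈ q.s) (hY : symmDiff Y (A i) ⊆ rn q.R) :
    ∃ X : Set κ, Match B A q X Y := by
  refine ⟨{x | (∃ m, (x, m) ∈ q.R ∧ m ∈ Y) ∨ (x ∉ dm q.R ∧ x ∈ B i)}, fun k m hk => ?_, i, hi,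
    fun k hk => ?_, fun m hm => ?_⟩
  · constructor
    · rintro (⟨m', hm', h⟩ | ⟨h, -⟩)
      · have := (hq k m' k m hm' hk).1 rfl
        exact this ▸ h
      · exact absurd (mem_dm hk) h
    · intro h
      exact Or.inl ⟨m, hk, h⟩
  · constructor
    · rintro (⟨m', hm', -⟩ | ⟨-, h⟩)
      · exact absurd (mem_dm hm') hk
      · exact h
    · intro h
      exact Or.inr ⟨hk, h⟩
  · by_contra hne
    refine hm (hY ?_)
    rw [mem_symmDiff]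
    tauto

theorem Match.matchF {B : W → Set κ} {A : W → Set ℕ} {ψ : Set (κ × ℕ)} {q : St κ ℕ W}
    (hq : OkL B A ψ q) {X : Set κ} {Y : Set ℕ} (h : Match B A q X Y) : MatchF B A ψ X Y := by
  obtain ⟨h1, i, -, h2, h3⟩ := h
  refine ⟨hq.d2.subset ?_, i, (dm_diff_finite hq.pre.d1).subset ?_,
    (rn_diff_finite hq.pre.d1).subset ?_⟩
  · rintro ⟨x, m⟩ ⟨hp, hbad⟩
    exact ⟨hp, fun h => hbad (h1 x m h)⟩
  · rintro x ⟨hx, hd⟩
    refine ⟨?_, hd⟩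
    by_contra hno
    have := h2 x hno
    rw [mem_symmDiff] at hx
    tauto
  · rintro m ⟨hx, hd⟩
    refine ⟨?_, hd⟩
    by_contra hno
    have := h3 m hno
    rw [mem_symmDiff] at hx
    tauto

end Pool.Agent.Work.MP_16b18c_lc
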