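import Pool.Agent.Work.MP_16b18c_lc.LtCols
import Pool.Agent.Work.MP_16b18c_lc.ColMain

/-!
Assembly of the results on algebras with at most `ℵ₁` classes modulo countable sets.
-/

namespace Pool.Agent.Work.MP_16b18c_lc

open Set Filter Cardinal

theorem exists_lt_data {κ : Type} [Uncountable κ] (hκ : Cardinal.mk κ ≤ ℵ₁)
    {𝓑 : Set (Set κ)} (h𝓑 : IsAlg 𝓑)
    (hsm : ∃ 𝓒 : Set (Set κ), Cardinal.mk 𝓒 ≤ ℵ₁ ∧ ∀ X ∈ 𝓑, ∃ C ∈ 𝓒, (symmDiff X C).Countable) :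
    ∃ (W : Type) (_ : LinearOrder W) (_ : WellFoundedLT W), Cardinal.mk W = ℵ₁ ∧
      (∀ c : W, (Iio c).Countable) ∧
      ∃ (B : W → Set κ) (k : W → κ) (ψ : W → Set (κ × ℕ)) (A : W → Set ℕ),
        NE Set.univ B ∧ Function.Surjective k ∧ Good Set.univ B k ψ A ∧
          ∀ X ∈ 𝓑, ∃ i, (symmDiff X (B i)).Countable := by
  classical
  obtain ⟨W, i1, i2, hW, hWc⟩ := exists_W
  obtain ⟨𝓒, h𝓒, hcov⟩ := hsm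
  obtain ⟨k, hk⟩ := exists_surj (α := κ) (W := W) (hW ▸ hκ)
  have : Nonempty 𝓒 := by
    obtain ⟨C, hC, -⟩ := hcov ∅ h𝓑.1
    exact ⟨⟨C, hC⟩⟩
  obtain ⟨b, hb⟩ := exists_surj (α := 𝓒) (W := W) (hW ▸ h𝓒)
  obtain ⟨B, hB1, hB2⟩ := exists_lift hWc (fun w => (b w).1)
  obtain ⟨ψ, A, hg⟩ := exists_tower hWc hB2 k
  refine ⟨W, i1, i2, hW, hWc, B, k, ψ, A, hB2, hk, hg, fun X hX => ?_⟩
  obtain ⟨C, hC, hXC⟩ := hcov X hX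
  obtain ⟨i, hi⟩ := hb ⟨C, hC⟩
  refine ⟨i, (hXC.union ?_).mono (symmDiff_triangle X C (B i))⟩
  have h1 := hB1 i
  rw [hi] at h1
  rw [symmDiff_comm]
  exact h1

/-- Locally trivial twins in `P(ω)`, in ZFC. -/
theorem exists_lt_twin {κ : Type} [Uncountable κ] (hκ : Cardinal.mk κ ≤ ℵ₁)
    {𝓑 : Set (Set κ)} (h𝓑 : IsAlg 𝓑)
    (hsm : ∃ 𝓒 : Set (Set κ), Cardinal.mk 𝓒 ≤ ℵ₁ ∧ ∀ X ∈ 𝓑, ∃ C ∈ 𝓒, (symmDiff X C).Countable) :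
    ∃ 𝓐 : Set (Set ℕ), IsAlg 𝓐 ∧
      ∃ e : (PFin.mk '' 𝓐 : Set (PFin ℕ)) ≃o (PFin.mk '' 𝓑 : Set (PFin κ)),
        ∀ K : Set κ, K.Countable → ∃ g : κ → ℕ, InjOn g K ∧ ∀ X ∈ 𝓑, X ⊆ K →
          ∃ h : PFin.mk (g '' X) ∈ PFin.mk '' 𝓐, (e ⟨_, h⟩).1 = PFin.mk X := by
  obtain ⟨W, i1, i2, hW, hWc, B, k, ψ, A, hB, hk, hg, hcov⟩ := exists_lt_data hκ h𝓑 hsm
  have : Uncountable W := by
    rw [← aleph0_lt_mk_iff, hW]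
    exact aleph0_lt_aleph_one
  exact ⟨Twin B A ψ 𝓑, Twin.isAlg hB hg h𝓑 hcov, hg.exists_iso hWc hB hk h𝓑 hcov⟩

/-- Locally trivial twins for columns, under a dominating family of size `ℵ₁`. -/
theorem exists_lt_twin_cols {κ : Type} [Uncountable κ] (hκ : Cardinal.mk κ ≤ ℵ₁)
    (hd : ∃ F : Set (ℕ → ℕ), Cardinal.mk F ≤ ℵ₁ ∧ ∀ g : ℕ → ℕ, ∃ f ∈ F, ∀ᶠ n in atTop, g n ≤ f n)
    {𝓑 : Set (Set κ)} (h𝓑 : IsAlg 𝓑)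
    (hsm : ∃ 𝓒 : Set (Set κ), Cardinal.mk 𝓒 ≤ ℵ₁ ∧ ∀ X ∈ 𝓑, ∃ C ∈ 𝓒, (symmDiff X C).Countable) :
    ∃ 𝓐 : Set (Set ℕ), IsAlg 𝓐 ∧ ∃ e : Cols 𝓐 ≃o Cols 𝓑,
      (∀ a, a.1 ∈ Cols ({∅} : Set (Set ℕ)) ↔ (e a).1 ∈ Cols ({∅} : Set (Set κ))) ∧
      ∀ K : Set κ, K.Countable → ∃ g : ℕ → κ → ℕ, (∀ n, InjOn (g n) K) ∧
        ∀ x : ℕ → Set κ, (∀ n, x n ∈ 𝓑 ∧ x n ⊆ K) →
          ∃ h : PFin.mk (colSet fun n => g n '' x n) ∈ Cols 𝓐,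
            (e ⟨_, h⟩).1 = PFin.mk (colSet x) := by
  obtain ⟨W, i1, i2, hW, hWc, B, k, ψ, A, hB, hk, hg, hcov⟩ := exists_lt_data hκ h𝓑 hsm
  have : Uncountable W := by
    rw [← aleph0_lt_mk_iff, hW]
    exact aleph0_lt_aleph_one
  obtain ⟨F, hF, hdom⟩ := hd
  have : Nonempty F := by
    obtain ⟨f, hf, -⟩ := hdom fun _ => 0
    exact ⟨⟨f, hf⟩⟩
  obtain ⟨φ, hφ⟩ := exists_surj (α := F) (W := W) (hW ▸ hF)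
  exact ⟨Twin B A ψ 𝓑, Twin.isAlg hB hg h𝓑 hcov,
    hg.exists_colIso hWc hB hk h𝓑 hcov (F := fun w => (φ w).1) fun g => by
      obtain ⟨f, hf, hgf⟩ := hdom g
      obtain ⟨b, hb⟩ := hφ ⟨f, hf⟩
      exact ⟨b, by rw [hb]; exact hgf⟩⟩

end Pool.Agent.Work.MP_16b18c_lc
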