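import Pool.Agent.Work.MP_16b18c_lc.LtCol
import Pool.Agent.Work.MP_16b18c_lc.ColIso

/-!
Sets that correspond modulo finite sets at a level of a tower.
-/

namespace Pool.Agent.Work.MP_16b18c_lc

open Set Filter

variable {κ I : Type*}

/-- `X` and `Y` correspond at the level `ψ` modulo finite sets. -/
def MatchF (B : I → Set κ) (A : I → Set ℕ) (ψ : Set (κ × ℕ)) (X : Set κ) (Y : Set ℕ) : Prop :=
  {p | p ∈ ψ ∧ ¬ (p.1 ∈ X ↔ p.2 ∈ Y)}.Finite ∧
    ∃ i, (symmDiff X (B i) \ dm ψ).Finite ∧ (symmDiff Y (A i) \ rn ψ).Finite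

theorem not_mem_symmDiff_iff {α : Type*} {X Y : Set α} {x : α} (h : x ∉ symmDiff X Y) :
    x ∈ X ↔ x ∈ Y := by
  rw [mem_symmDiff] at h
  tauto

theorem MatchF.raise {B : I → Set κ} {A : I → Set ℕ} {ψ ψ' : Set (κ × ℕ)}
    (hl : Lev B A ψ') (hd : (ψ \ ψ').Finite) {X : Set κ} {Y : Set ℕ}
    (h : MatchF B A ψ X Y) : MatchF B A ψ' X Y := by
  obtain ⟨h1, i, h2, h3⟩ := h
  refine ⟨?_, i, ?_, ?_⟩
  · refine (((((h1.union (hl.pb.fst_finite (dm_finite hd))).union
      (hl.pb.snd_finite (rn_finite hd))).union (hl.pb.fst_finite h2)).union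
      (hl.pb.snd_finite h3)).union (hl.viol i)).subset ?_
    rintro ⟨x, m⟩ ⟨hp, hbad⟩
    by_contra hno
    have n1 : (x, m) ∉ ψ := fun h => hno (Or.inl (Or.inl (Or.inl (Or.inl (Or.inl ⟨h, hbad⟩)))))
    have n2 : x ∉ dm (ψ \ ψ') := fun h => hno (Or.inl (Or.inl (Or.inl (Or.inl (Or.inr ⟨hp, h⟩)))))
    have n3 : m ∉ rn (ψ \ ψ') := fun h => hno (Or.inl (Or.inl (Or.inl (Or.inr ⟨hp, h⟩))))
    have n4 : x ∉ symmDiff X (B i) \ dm ψ := fun h => hno (Or.inl (Or.inl (Or.inr ⟨hp, h⟩)))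
    have n5 : m ∉ symmDiff Y (A i) \ rn ψ := fun h => hno (Or.inl (Or.inr ⟨hp, h⟩))
    have n6 : (x, m) ∉ viol B A ψ' i := fun h => hno (Or.inr h)
    have m1 : x ∉ dm ψ := by
      rintro ⟨m', hm'⟩
      by_cases h : (x, m') ∈ ψ'
      · have := (hl.pb x m x m' hp h).1 rfl
        exact n1 (this ▸ hm')
      · exact n2 ⟨m', hm', h⟩
    have m2 : m ∉ rn ψ := by
      rintro ⟨x', hx'⟩
      by_cases h : (x', m) ∈ ψ'
      · have := (hl.pb x m x' m hp h).2 rfl
        exact n1 (this ▸ hx')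
      · exact n3 ⟨x', hx', h⟩
    have e1 : x ∈ X ↔ x ∈ B i := not_mem_symmDiff_iff fun h => n4 ⟨h, m1⟩
    have e2 : m ∈ Y ↔ m ∈ A i := not_mem_symmDiff_iff fun h => n5 ⟨h, m2⟩
    have e3 : x ∈ B i ↔ m ∈ A i := by
      by_contra h
      exact n6 ⟨hp, h⟩
    exact hbad (e1.trans (e3.trans e2.symm))
  · refine (h2.union (dm_diff_finite hd)).subset ?_
    rintro x ⟨hx, hx'⟩
    by_cases h : x ∈ dm ψ
    · exact Or.inr ⟨h, hx'⟩
    · exact Or.inl ⟨hx, h⟩
  · refine (h3.union (rn_diff_finite hd)).subset ?_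
    rintro x ⟨hx, hx'⟩
    by_cases h : x ∈ rn ψ
    · exact Or.inr ⟨h, hx'⟩
    · exact Or.inl ⟨hx, h⟩

theorem atom_pair {α : Type*} [DecidableEq I] (B : I → Set α) {i j : I} (hij : i ≠ j) :
    atom B {i, j} {i} = B i \ B j := by
  ext x
  constructor
  · intro h
    exact ⟨(h i (Finset.mem_insert_self _ _)).2 rfl, fun hx =>
      hij ((h j (Finset.mem_insert_of_mem (Finset.mem_singleton_self _))).1 hx).symm⟩
  · rintro ⟨h1, h2⟩ l hl
    rcases Finset.mem_insert.1 hl with rfl | hl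
    · exact ⟨fun _ => rfl, fun _ => h1⟩
    · rw [Finset.mem_singleton.1 hl]
      exact ⟨fun h => absurd h h2, fun h => absurd (show j = i from h).symm hij⟩

theorem Lev.pair {B : I → Set κ} {A : I → Set ℕ} {ψ : Set (κ × ℕ)} (hl : Lev B A ψ)
    (hB : NE univ B) (i j : I) :
    ((B i \ B j).Nonempty → ¬ (B i \ B j).Countable ∧ ((A i \ A j) \ rn ψ).Infinite) ∧
      (¬ (B i \ B j).Nonempty → (A i \ A j).Finite) := by
  classical
  rcases eq_or_ne i j with rfl | hij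
  · constructor
    · rintro ⟨x, hx, hx'⟩
      exact absurd hx hx'
    · intro _
      exact sdiff_self_finite _
  · rw [← atom_pair B hij, ← atom_pair A hij]
    exact ⟨fun h => ⟨hB _ (fun _ _ => mem_univ _) _ h, hl.inf _ _ h⟩, fun h => hl.emp _ _ h⟩

theorem countable_of_diff_dm {ψ : Set (κ × ℕ)} (hψ : PB ψ) {K : Set κ}
    (h : (K \ dm ψ).Finite) : K.Countable := by
  refine (h.countable.union hψ.dm_countable).mono fun x hx => ?_
  by_cases h' : x ∈ dm ψ
  · exact Or.inr h'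
  · exact Or.inl ⟨hx, h'⟩

theorem MatchF.sdiff_finite {B : I → Set κ} {A : I → Set ℕ} {ψ : Set (κ × ℕ)}
    (hl : Lev B A ψ) (hB : NE univ B) {X X' : Set κ} {Y Y' : Set ℕ} (h : MatchF B A ψ X Y)
    (h' : MatchF B A ψ X' Y') : (X \ X').Finite ↔ (Y \ Y').Finite := by
  obtain ⟨h1, i, h2, h3⟩ := h
  obtain ⟨h1', j, h2', h3'⟩ := h'
  obtain ⟨hp1, hp2⟩ := hl.pair hB i j
  constructor
  · intro hf
    have hne : ¬ (B i \ B j).Nonempty := by
      intro hne
      refine (hp1 hne).1 (((hf.countable.union (countable_of_diff_dm hl.pb h2)).union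
        (countable_of_diff_dm hl.pb h2')).mono ?_)
      rintro x ⟨hx, hx'⟩
      by_contra hno
      have n1 : x ∉ symmDiff X (B i) := fun h => hno (Or.inl (Or.inr h))
      have n2 : x ∉ symmDiff X' (B j) := fun h => hno (Or.inr h)
      exact hno (Or.inl (Or.inl ⟨(not_mem_symmDiff_iff n1).2 hx,
        fun h => hx' ((not_mem_symmDiff_iff n2).1 h)⟩))
    have hA := hp2 hne
    refine ((((rn_finite (hl.pb.fst_finite hf)).union (rn_finite h1)).union
      (rn_finite h1')).union ((hA.union h3).union h3')).subset ?_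
    rintro m ⟨hm, hm'⟩
    by_cases hr : m ∈ rn ψ
    · obtain ⟨x, hx⟩ := hr
      by_cases c1 : x ∈ X ↔ m ∈ Y
      · by_cases c2 : x ∈ X' ↔ m ∈ Y'
        · exact Or.inl (Or.inl (Or.inl ⟨x, hx, c1.2 hm, fun h => hm' (c2.1 h)⟩))
        · exact Or.inl (Or.inr ⟨x, hx, c2⟩)
      · exact Or.inl (Or.inl (Or.inr ⟨x, hx, c1⟩))
    · right
      by_contra hno
      have n1 : m ∉ symmDiff Y (A i) := fun h => hno (Or.inl (Or.inr ⟨h, hr⟩))
      have n2 : m ∉ symmDiff Y' (A j) := fun h => hno (Or.inr ⟨h, hr⟩)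
      exact hno (Or.inl (Or.inl ⟨(not_mem_symmDiff_iff n1).1 hm,
        fun h => hm' ((not_mem_symmDiff_iff n2).2 h)⟩))
  · intro hf
    have hne : ¬ (B i \ B j).Nonempty := by
      intro hne
      refine (hp1 hne).2 (((hf.union h3).union h3').subset ?_)
      rintro m ⟨⟨hm, hm'⟩, hr⟩
      by_contra hno
      have n1 : m ∉ symmDiff Y (A i) := fun h => hno (Or.inl (Or.inr ⟨h, hr⟩))
      have n2 : m ∉ symmDiff Y' (A j) := fun h => hno (Or.inr ⟨h, hr⟩)
      exact hno (Or.inl (Or.inl ⟨(not_mem_symmDiff_iff n1).2 hm,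
        fun h => hm' ((not_mem_symmDiff_iff n2).1 h)⟩))
    refine ((((dm_finite (hl.pb.snd_finite hf)).union (dm_finite h1)).union
      (dm_finite h1')).union (h2.union h2')).subset ?_
    rintro x ⟨hx, hx'⟩
    by_cases hr : x ∈ dm ψ
    · obtain ⟨m, hm⟩ := hr
      by_cases c1 : x ∈ X ↔ m ∈ Y
      · by_cases c2 : x ∈ X' ↔ m ∈ Y'
        · exact Or.inl (Or.inl (Or.inl ⟨m, hm, c1.1 hx, fun h => hx' (c2.2 h)⟩))
        · exact Or.inl (Or.inr ⟨m, hm, c2⟩)
      · exact Or.inl (Or.inl (Or.inr ⟨m, hm, c1⟩))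
    · right
      by_contra hno
      have n1 : x ∉ symmDiff X (B i) := fun h => hno (Or.inl ⟨h, hr⟩)
      have n2 : x ∉ symmDiff X' (B j) := fun h => hno (Or.inr ⟨h, hr⟩)
      exact hne ⟨x, (not_mem_symmDiff_iff n1).1 hx,
        fun h => hx' ((not_mem_symmDiff_iff n2).2 h)⟩

theorem exists_matchF {B : I → Set κ} {A : I → Set ℕ} {ψ : Set (κ × ℕ)} (hψ : PB ψ)
    {X : Set κ} {i : I} (hX : (symmDiff X (B i) \ dm ψ).Finite) : ∃ Y, MatchF B A ψ X Y := by
  refine ⟨{m | (∃ x, (x, m) ∈ ψ ∧ x ∈ X) ∨ (m ∉ rn ψ ∧ m ∈ A i)}, ?_, i, hX, ?_⟩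
  · convert finite_empty
    ext ⟨x, m⟩
    constructor
    · rintro ⟨hp, hno⟩
      refine absurd ?_ hno
      constructor
      · intro h
        exact Or.inl ⟨x, hp, h⟩
      · rintro (⟨x', hx', h⟩ | ⟨h, -⟩)
        · exact (hψ x' m x m hx' hp).2 rfl ▸ h
        · exact absurd (mem_rn hp) h
    · intro h
      exact absurd h (notMem_empty _)
  · convert finite_empty
    ext m
    constructor
    · rintro ⟨h, hr⟩
      rw [mem_symmDiff] at h
      rcases h with ⟨h | h, h'⟩ | ⟨h, h'⟩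
      · obtain ⟨x, hx, -⟩ := h
        exact absurd (mem_rn hx) hr
      · exact absurd h.2 h'
      · exact absurd (Or.inr ⟨hr, h⟩) h'
    · intro h
      exact absurd h (notMem_empty _)

theorem exists_matchF' {B : I → Set κ} {A : I → Set ℕ} {ψ : Set (κ × ℕ)} (hψ : PB ψ)
    {Y : Set ℕ} {i : I} (hY : (symmDiff Y (A i) \ rn ψ).Finite) : ∃ X, MatchF B A ψ X Y := by
  refine ⟨{x | (∃ m, (x, m) ∈ ψ ∧ m ∈ Y) ∨ (x ∉ dm ψ ∧ x ∈ B i)}, ?_, i, ?_, hY⟩
  · convert finite_empty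
    ext ⟨x, m⟩
    constructor
    · rintro ⟨hp, hno⟩
      refine absurd ?_ hno
      constructor
      · rintro (⟨m', hm', h⟩ | ⟨h, -⟩)
        · exact (hψ x m' x m hm' hp).1 rfl ▸ h
        · exact absurd (mem_dm hp) h
      · intro h
        exact Or.inl ⟨m, hp, h⟩
    · intro h
      exact absurd h (notMem_empty _)
  · convert finite_empty
    ext x
    constructor
    · rintro ⟨h, hr⟩
      rw [mem_symmDiff] at h
      rcases h with ⟨h | h, h'⟩ | ⟨h, h'⟩
      · obtain ⟨m, hm, -⟩ := h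
        exact absurd (mem_dm hm) hr
      · exact absurd h.2 h'
      · exact absurd (Or.inr ⟨hr, h⟩) h'
    · intro h
      exact absurd h (notMem_empty _)

/-- Changing the sets by finite sets. -/
theorem MatchF.congr {B : I → Set κ} {A : I → Set ℕ} {ψ : Set (κ × ℕ)} (hψ : PB ψ)
    {X X' : Set κ} {Y Y' : Set ℕ} (h : MatchF B A ψ X Y) (hX : (symmDiff X X').Finite)
    (hY : (symmDiff Y Y').Finite) : MatchF B A ψ X' Y' := by
  obtain ⟨h1, i, h2, h3⟩ := h
  refine ⟨?_, i, ?_, ?_⟩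
  · refine ((h1.union (hψ.fst_finite hX)).union (hψ.snd_finite hY)).subset ?_
    rintro ⟨x, m⟩ ⟨hp, hbad⟩
    by_contra hno
    have n1 : x ∈ X ↔ m ∈ Y := by
      by_contra h
      exact hno (Or.inl (Or.inl ⟨hp, h⟩))
    have n2 : x ∉ symmDiff X X' := fun h => hno (Or.inl (Or.inr ⟨hp, h⟩))
    have n3 : m ∉ symmDiff Y Y' := fun h => hno (Or.inr ⟨hp, h⟩)
    exact hbad ((not_mem_symmDiff_iff n2).symm.trans (n1.trans (not_mem_symmDiff_iff n3)))
  · refine (h2.union hX).subset ?_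
    rintro x ⟨hx, hr⟩
    by_contra hno
    have n2 : x ∉ symmDiff X X' := fun h => hno (Or.inr h)
    have n1 : x ∉ symmDiff X (B i) := fun h => hno (Or.inl ⟨h, hr⟩)
    have e1 := not_mem_symmDiff_iff n2
    have e2 := not_mem_symmDiff_iff n1
    rw [mem_symmDiff] at hx
    tauto
  · refine (h3.union hY).subset ?_
    rintro x ⟨hx, hr⟩
    by_contra hno
    have n2 : x ∉ symmDiff Y Y' := fun h => hno (Or.inr h)
    have n1 : x ∉ symmDiff Y (A i) := fun h => hno (Or.inl ⟨h, hr⟩)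
    have e1 := not_mem_symmDiff_iff n2
    have e2 := not_mem_symmDiff_iff n1
    rw [mem_symmDiff] at hx
    tauto

theorem Lev.simC {B : I → Set κ} {A : I → Set ℕ} {ψ : Set (κ × ℕ)} (hl : Lev B A ψ)
    (hB : NE univ B) : SimC univ B A := by
  intro s hs v
  constructor
  · intro h
    exact hl.emp s v fun hne => hB s hs v hne h
  · intro h
    by_contra hc
    have hne : (atom B s v).Nonempty := by
      by_contra hne
      rw [not_nonempty_iff_eq_empty.1 hne] at hc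
      exact hc countable_empty
    exact hl.inf s v hne (h.subset sdiff_subset)

theorem SimC.pred3 {B : I → Set κ} {A : I → Set ℕ} (h : SimC univ B A)
    (θ : Prop → Prop → Prop → Prop) (i j l : I)
    (hc : {k | θ (k ∈ B i) (k ∈ B j) (k ∈ B l)}.Countable) :
    {k | θ (k ∈ A i) (k ∈ A j) (k ∈ A l)}.Finite := by
  classical
  have key := h.transfer (u := {i, j, l}) (fun _ _ => mem_univ _)
    (fun w => θ (i ∈ w) (j ∈ w) (l ∈ w))
  simp only [Finset.mem_insert, Finset.mem_singleton, mem_ofPred_eq, true_or, or_true,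
    true_and] at key
  exact key.1 hc

theorem NE.pred3 {B : I → Set κ} (h : NE univ B) (θ : Prop → Prop → Prop → Prop) (i j l : I)
    (hc : {k | θ (k ∈ B i) (k ∈ B j) (k ∈ B l)}.Countable) (x : κ) :
    ¬ θ (x ∈ B i) (x ∈ B j) (x ∈ B l) := by
  classical
  intro hx
  refine h {i, j, l} (fun _ _ => mem_univ _) {a | x ∈ B a} ⟨x, fun a _ => Iff.rfl⟩
    (hc.mono fun y hy => ?_)
  have e1 : y ∈ B i ↔ x ∈ B i := hy i (by simp)
  have e2 : y ∈ B j ↔ x ∈ B j := hy j (by simp)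
  have e3 : y ∈ B l ↔ x ∈ B l := hy l (by simp)
  change θ (y ∈ B i) (y ∈ B j) (y ∈ B l)
  rwa [propext e1, propext e2, propext e3]

end Pool.Agent.Work.MP_16b18c_lc
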