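import Pool.Agent.Work.MP_16b18c_lc.LtBase

/-!
The next member of a tower exists.
-/

namespace Pool.Agent.Work.MP_16b18c_lc

open Set Filter

variable {κ I : Type*}

theorem sdiff_self_finite {α : Type*} (S : Set α) : (S \ S).Finite := by
  rw [Set.sdiff_self]
  exact finite_empty

theorem exists_exhaust {J : Set I} (hJ : J.Countable) :
    ∃ sn : ℕ → Finset I, (∀ n, ∀ i ∈ sn n, i ∈ J) ∧ ∀ i ∈ J, ∃ N, ∀ n, N ≤ n → i ∈ sn n := by
  classical
  rcases J.eq_empty_or_nonempty with rfl | hne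
  · exact ⟨fun _ => ∅, fun n i hi => absurd hi (Finset.notMem_empty i),
      fun i hi => absurd hi (notMem_empty i)⟩
  · obtain ⟨g, hg⟩ := hJ.exists_eq_range hne
    refine ⟨fun n => (Finset.range (n + 1)).image g, fun n i hi => ?_, fun i hi => ?_⟩
    · obtain ⟨j, -, rfl⟩ := Finset.mem_image.1 hi
      rw [hg]
      exact mem_range_self j
    · rw [hg] at hi
      obtain ⟨N, rfl⟩ := hi
      exact ⟨N, fun n hn => Finset.mem_image.2 ⟨N, Finset.mem_range.2 (by omega), rfl⟩⟩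

/-- A sequence of levels cofinal below `c`. -/
theorem exists_levels {W : Type*} [LinearOrder W] {c : W} (hc : (Iio c).Countable)
    {B : W → Set κ} {k : W → κ} {ψ : W → Set (κ × ℕ)} {A : W → Set ℕ}
    (hg : Good (Iio c) B k ψ A) :
    ∃ Ψ : ℕ → Set (κ × ℕ), (∀ n, PB (Ψ n)) ∧ (∀ n, (Ψ n \ Ψ (n + 1)).Finite) ∧
      (∀ i, i < c → ∃ n, (ψ i \ Ψ n).Finite) ∧ (∀ i, i < c → ∀ n, (viol B A (Ψ n) i).Finite) ∧
      ∀ n, ∀ s : Finset W, (∀ i ∈ s, i < c) → ∀ v : Set W, (atom B s v).Nonempty →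
        (atom A s v \ rn (Ψ n)).Infinite := by
  classical
  rcases (Iio c).eq_empty_or_nonempty with he | hne
  · have hno : ∀ i, ¬ i < c := fun i hi => by
      have : i ∈ Iio c := hi
      rw [he] at this
      exact this
    refine ⟨fun _ => ∅, fun n k m k' m' h => absurd h (notMem_empty _), fun n => ?_,
      fun i hi => absurd hi (hno i), fun i hi => absurd hi (hno i), fun n s hs v _ => ?_⟩
    · exact sdiff_self_finite _
    · have h1 : atom A s v \ rn (∅ : Set (κ × ℕ)) = univ := by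
        ext m
        refine ⟨fun _ => mem_univ m, fun _ => ⟨fun i hi => absurd (hs i hi) (hno i), ?_⟩⟩
        rintro ⟨k, hk⟩
        exact hk
      rw [h1]
      exact infinite_univ
  · obtain ⟨g, hgr⟩ := hc.exists_eq_range hne
    have hgc : ∀ j, g j < c := fun j => by
      have : g j ∈ Iio c := hgr ▸ mem_range_self j
      exact this
    let r : Set (κ × ℕ) → Set (κ × ℕ) → Prop := fun a b => (a \ b).Finite
    have hdir : Directed r (fun j => ψ (g j)) := by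
      intro a b
      rcases le_total (g a) (g b) with hab | hab
      · exact ⟨b, hg.mono _ (hgc a) _ (hgc b) hab, hg.mono _ (hgc b) _ (hgc b) le_rfl⟩
      · exact ⟨a, hg.mono _ (hgc a) _ (hgc a) le_rfl, hg.mono _ (hgc b) _ (hgc a) hab⟩
    refine ⟨fun n => ψ (g (hdir.sequence _ n)), fun n => hg.pb _ (hgc _),
      fun n => hdir.sequence_mono_nat n, fun i hi => ?_, fun i hi n => hg.viol _ (hgc _) i hi,
      fun n s hs v hne => hg.inf _ (hgc _) s hs v hne⟩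
    have hi' : i ∈ range g := hgr ▸ hi
    obtain ⟨j, rfl⟩ := hi'
    exact ⟨_, hdir.rel_sequence j⟩

theorem exists_next_top {W : Type*} [LinearOrder W] {c : W} (hc : (Iio c).Countable)
    {B : W → Set κ} {k : W → κ} {ψ : W → Set (κ × ℕ)} {A : W → Set ℕ}
    (hg : Good (Iio c) B k ψ A) :
    ∃ ψc : Set (κ × ℕ), PB ψc ∧ (∀ i < c, (ψ i \ ψc).Finite) ∧
      (∀ i < c, (viol B A ψc i).Finite) ∧ (∀ i ≤ c, k i ∈ dm ψc) ∧
      ∀ s : Finset W, (∀ i ∈ s, i < c) → ∀ v : Set W, (atom B s v).Nonempty →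
        (atom A s v \ rn ψc).Infinite := by
  classical
  obtain ⟨Ψ, hΨ1, hΨ2, hΨ3, hΨ4, hΨ5⟩ := exists_levels hc hg
  obtain ⟨sn, hsn1, hsn2⟩ := exists_exhaust hc
  obtain ⟨P, hP, hPinf, hPs⟩ := exists_enum_pairs hc
  have hic : (Iic c).Countable := by
    refine (hc.insert c).mono fun i hi => ?_
    rcases (mem_Iic.1 hi).eq_or_lt with h | h
    exacts [Or.inl h, Or.inr h]
  obtain ⟨pt, hpt⟩ := (hic.image k).exists_eq_range ⟨k c, c, le_rfl, rfl⟩
  let Inv : ℕ → Set (κ × ℕ) × Set ℕ → Prop := fun n T =>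
    PB T.1 ∧ (T.1 \ Ψ n).Finite ∧ (Ψ n \ T.1).Finite ∧ T.2.Finite ∧ ∀ m ∈ T.2, m ∉ rn T.1
  let Rl : ℕ → Set (κ × ℕ) × Set ℕ → Set (κ × ℕ) × Set ℕ → Prop := fun n T T' =>
    T.1 ⊆ T'.1 ∧ T.2 ⊆ T'.2 ∧
    (∀ k m, (k, m) ∈ T'.1 → (k, m) ∉ T.1 → ∀ i ∈ sn n, (k ∈ B i ↔ m ∈ A i)) ∧
    pt n ∈ dm T'.1 ∧ ((atom B (P n).1 ↑(P n).2).Nonempty →
      ∃ m ∈ T'.2, m ∉ T.2 ∧ m ∈ atom A (P n).1 ↑(P n).2)
  have step : ∀ n (T : {T // Inv n T}), ∃ T' : {T' // Inv (n + 1) T'}, Rl n T.1 T'.1 := by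
    rintro n ⟨⟨R, X⟩, hR, hR1, hR2, hX, hXR⟩
    have h1 : (R \ Ψ (n + 1)).Finite := by
      refine (hR1.union (hΨ2 n)).subset fun p hp => ?_
      by_cases hp' : p ∈ Ψ n
      · exact Or.inr ⟨hp', hp.2⟩
      · exact Or.inl ⟨hp.1, hp'⟩
    obtain ⟨R1, hR1pb, hR1sub, hR1a, hR1b, hR1new⟩ := raise hR (hΨ1 (n + 1)) h1 (sn n)
      (fun i hi => hΨ4 i (hsn1 n i hi) (n + 1)) hX
    -- add the point
    obtain ⟨R2, hR2pb, hR2sub, hR2a, hR2b, hR2new, hR2pt⟩ : ∃ R2 : Set (κ × ℕ), PB R2 ∧ R ⊆ R2 ∧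
        (R2 \ Ψ (n + 1)).Finite ∧ (Ψ (n + 1) \ R2).Finite ∧
        (∀ k m, (k, m) ∈ R2 → (k, m) ∉ R → (∀ i ∈ sn n, (k ∈ B i ↔ m ∈ A i)) ∧ m ∉ X) ∧
        pt n ∈ dm R2 := by
      by_cases hk : pt n ∈ dm R1
      · exact ⟨R1, hR1pb, hR1sub, hR1a, hR1b, hR1new, hk⟩
      · have h2 := hΨ5 (n + 1) (sn n) (hsn1 n) {i | pt n ∈ B i} ⟨pt n, fun i _ => Iff.rfl⟩
        have h3 := infinite_of_mono hR1a h2
        obtain ⟨m, hm, hm'⟩ := h3.exists_notMem_finite hX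
        refine ⟨insert (pt n, m) R1, hR1pb.insert hk hm.2, hR1sub.trans (subset_insert _ _),
          ?_, ?_, ?_, ⟨m, mem_insert _ _⟩⟩
        · refine (hR1a.insert (pt n, m)).subset ?_
          rintro p ⟨hp | hp, hp'⟩
          · exact Or.inl hp
          · exact Or.inr ⟨hp, hp'⟩
        · exact hR1b.subset fun p hp => ⟨hp.1, fun h => hp.2 (Or.inr h)⟩
        · rintro a b (h | h) h'
          · have e1 : a = pt n := (Prod.ext_iff.1 h).1
            have e2 : b = m := (Prod.ext_iff.1 h).2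
            rw [e1, e2]
            exact ⟨fun i hi => (hm.1 i hi).symm, hm'⟩
          · exact hR1new a b h h'
    have hXR2 : ∀ m ∈ X, m ∉ rn R2 := by
      rintro m hm ⟨a, ha⟩
      by_cases h : (a, m) ∈ R
      · exact hXR m hm ⟨a, h⟩
      · exact (hR2new a m ha h).2 hm
    by_cases hU : (atom B (P n).1 ↑(P n).2).Nonempty
    · have h2 := hΨ5 (n + 1) (P n).1 (hP n) _ hU
      have h3 := infinite_of_mono hR2a h2
      obtain ⟨m, hm, hm'⟩ := h3.exists_notMem_finite hX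
      refine ⟨⟨(R2, insert m X), hR2pb, hR2a, hR2b, hX.insert m, ?_⟩, hR2sub, subset_insert _ _,
        fun a b h h' => (hR2new a b h h').1, hR2pt, fun _ => ⟨m, mem_insert _ _, hm', hm.1⟩⟩
      rintro m' (rfl | h)
      · exact hm.2
      · exact hXR2 m' h
    · exact ⟨⟨(R2, X), hR2pb, hR2a, hR2b, hX, hXR2⟩, hR2sub, Subset.rfl,
        fun a b h h' => (hR2new a b h h').1, hR2pt, fun h => absurd h hU⟩
  choose F hF using step
  let T0 : {T // Inv 0 T} := ⟨(Ψ 0, ∅), hΨ1 0, sdiff_self_finite _, sdiff_self_finite _,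
    finite_empty, fun m hm => absurd hm (notMem_empty m)⟩
  let T : ∀ n, {T // Inv n T} := fun n => Nat.rec T0 (fun n T => F n T) n
  have hT : ∀ n, Rl n (T n).1 (T (n + 1)).1 := fun n => hF n (T n)
  have hmono1 : Monotone fun n => (T n).1.1 := monotone_nat_of_le_succ fun n => (hT n).1
  have hmono2 : Monotone fun n => (T n).1.2 := monotone_nat_of_le_succ fun n => (hT n).2.1
  have hdm : ∀ n x, x ∈ dm (T n).1.1 → x ∈ dm (⋃ n, (T n).1.1) := by
    rintro n x ⟨m, hm⟩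
    exact ⟨m, mem_iUnion.2 ⟨n, hm⟩⟩
  refine ⟨⋃ n, (T n).1.1, ?_, ?_, ?_, ?_, ?_⟩
  · intro a b a' b' h1 h2
    obtain ⟨n1, h1⟩ := mem_iUnion.1 h1
    obtain ⟨n2, h2⟩ := mem_iUnion.1 h2
    exact (T (max n1 n2)).2.1 a b a' b' (hmono1 (le_max_left _ _) h1)
      (hmono1 (le_max_right _ _) h2)
  · intro i hi
    obtain ⟨n, hn⟩ := hΨ3 i hi
    refine (hn.union (T n).2.2.2.1).subset fun p hp => ?_
    by_cases hp' : p ∈ Ψ n
    · exact Or.inr ⟨hp', fun h => hp.2 (mem_iUnion.2 ⟨n, h⟩)⟩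
    · exact Or.inl ⟨hp.1, hp'⟩
  · intro i hi
    obtain ⟨N, hN⟩ := hsn2 i hi
    have h1 : (viol B A (T N).1.1 i).Finite := viol_mono_finite (T N).2.2.1 (hΨ4 i hi N)
    refine h1.subset ?_
    rintro ⟨a, b⟩ ⟨hp, hp'⟩
    refine ⟨?_, hp'⟩
    obtain ⟨n, hn⟩ := mem_iUnion.1 hp
    by_contra hno
    have h2 : ∀ l, (a, b) ∉ (T (N + l)).1.1 := by
      intro l
      induction l with
      | zero => exact hno
      | succ l ih => exact fun h => hp' ((hT (N + l)).2.2.1 a b h ih i (hN _ (by omega)))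
    exact h2 n (hmono1 (by omega) hn)
  · intro i hi
    have h1 : k i ∈ range pt := hpt ▸ ⟨i, hi, rfl⟩
    obtain ⟨n, hn⟩ := h1
    rw [← hn]
    exact hdm (n + 1) _ (hT n).2.2.2.1
  · intro s hs v hne
    obtain ⟨n0, hn0⟩ := hPs (s, s.filter (· ∈ v)) hs
      (fun i hi => hs i (Finset.mem_filter.1 hi).1)
    have hU : atom B s v = atom B (P n0).1 ↑(P n0).2 := by
      rw [hn0]
      ext x
      refine forall_congr' fun i => forall_congr' fun hi => ?_
      simp [hi]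
    have hV : atom A s v = atom A (P n0).1 ↑(P n0).2 := by
      rw [hn0]
      ext x
      refine forall_congr' fun i => forall_congr' fun hi => ?_
      simp [hi]
    have hsel : ∀ n, P n = P n0 → ∃ m ∈ (T (n + 1)).1.2, m ∉ (T n).1.2 ∧ m ∈ atom A s v := by
      intro n hn
      have h1 := (hT n).2.2.2.2
      rw [hn, ← hU, ← hV] at h1
      exact h1 hne
    choose! m hm1 hm2 hm3 using hsel
    refine ((hPinf n0).image (f := m) ?_).mono ?_
    · intro a ha b hb hab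
      by_contra hne'
      rcases lt_or_gt_of_ne hne' with h | h
      · exact hm2 b hb (hab ▸ hmono2 (Nat.succ_le_of_lt h) (hm1 a ha))
      · exact hm2 a ha (hab.symm ▸ hmono2 (Nat.succ_le_of_lt h) (hm1 b hb))
    · rintro _ ⟨n, hn, rfl⟩
      refine ⟨hm3 n hn, ?_⟩
      rintro ⟨a, ha⟩
      obtain ⟨l, hl⟩ := mem_iUnion.1 ha
      have h1 : m n ∈ (T (max l (n + 1))).1.2 := hmono2 (le_max_right _ _) (hm1 n hn)
      exact (T (max l (n + 1))).2.2.2.2.2 _ h1 ⟨a, hmono1 (le_max_left _ _) hl⟩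

end Pool.Agent.Work.MP_16b18c_lc
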