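import Pool.Agent.Work.MP_16b18c_lc.LtNext

/-!
Towers of length `ω₁`.
-/

namespace Pool.Agent.Work.MP_16b18c_lc

open Set Filter

variable {κ I : Type*}

theorem exists_next {W : Type*} [LinearOrder W] {c : W} (hc : (Iio c).Countable)
    {B : W → Set κ} (hB : NE univ B) {k : W → κ} {ψ : W → Set (κ × ℕ)} {A : W → Set ℕ}
    [Nonempty κ] (hg : Good (Iio c) B k ψ A) :
    ∃ (ψc : Set (κ × ℕ)) (Ac : Set ℕ), Next B k c ψ A ψc Ac := by
  classical
  obtain ⟨ψc, h1, h2, h3, h4, h5⟩ := exists_next_top hc hg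
  have hM : ((rn ψc)ᶜ).Infinite := by
    have h6 := h5 ∅ (by simp) ∅ (by
      obtain ⟨x⟩ := ‹Nonempty κ›
      exact ⟨x, fun i hi => absurd hi (Finset.notMem_empty i)⟩)
    exact h6.mono fun m hm => hm.2
  have hs : ∀ s : Finset W, (∀ i ∈ s, i ∈ Iio c) → ∀ v : Set W,
      (atom B s v).Countable ↔ (atom A s v ∩ (rn ψc)ᶜ).Finite := by
    intro s hs v
    constructor
    · intro hcnt
      have hne : ¬ (atom B s v).Nonempty := fun hne => hB s (fun _ _ => mem_univ _) v hne hcnt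
      exact (hg.emp s hs v hne).subset inter_subset_left
    · intro hf
      by_contra hcnt
      have hne : (atom B s v).Nonempty := by
        by_contra hne
        rw [not_nonempty_iff_eq_empty.1 hne] at hcnt
        exact hcnt countable_empty
      exact h5 s hs v hne (hf.subset fun m hm => ⟨hm.1, hm.2⟩)
  obtain ⟨D, hDM, hD⟩ := exists_stepC_rel hc hM hs (B c)
  let Ac : Set ℕ := D ∪ {m | ∃ x, (x, m) ∈ ψc ∧ x ∈ B c}
  have hAc1 : ∀ x m, (x, m) ∈ ψc → (x ∈ B c ↔ m ∈ Ac) := by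
    intro x m hxm
    constructor
    · intro hx
      exact Or.inr ⟨x, hxm, hx⟩
    · rintro (hm | ⟨x', hx', hx''⟩)
      · exact absurd (mem_rn hxm) (hDM hm)
      · exact ((h1 x' m x m hx' hxm).2 rfl) ▸ hx''
  have hAc2 : ∀ m, m ∉ rn ψc → (m ∈ Ac ↔ m ∈ D) := by
    intro m hm
    constructor
    · rintro (h | ⟨x, hx, -⟩)
      · exact h
      · exact absurd (mem_rn hx) hm
    · exact Or.inl
  have hvs : ∀ s : Finset W, (∀ i ∈ s, i < c) →
      (⋃ i ∈ s, viol B A ψc i).Finite := fun s hs =>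
    s.finite_toSet.biUnion fun i hi => h3 i (hs i hi)
  refine ⟨ψc, Ac, h1, h2, h3, ?_, h4, fun s hs' v => ⟨fun hne => ?_, fun hne => ?_⟩,
    fun s hs' v => ⟨fun hne => ?_, fun hne => ?_⟩⟩
  · convert finite_empty
    ext ⟨x, m⟩
    constructor
    · rintro ⟨hp, hp'⟩
      exact absurd (hAc1 x m hp) hp'
    · intro h
      exact absurd h (notMem_empty _)
  · have h6 : ¬ (atom B s v ∩ B c).Countable := by
      obtain ⟨x, hx, hxc⟩ := hne
      intro hcnt
      have h7 : insert c s = insert c s := rfl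
      have h8 : atom B (insert c s) {i | x ∈ B i} ⊆ atom B s v ∩ B c := by
        intro y hy
        refine ⟨fun i hi => ?_, ?_⟩
        · exact (hy i (Finset.mem_insert_of_mem hi)).trans (hx i hi)
        · exact (hy c (Finset.mem_insert_self _ _)).2 hxc
      exact hB (insert c s) (fun _ _ => mem_univ _) {i | x ∈ B i} ⟨x, fun i _ => Iff.rfl⟩
        (hcnt.mono h8)
    have h9 : (atom A s v ∩ (rn ψc)ᶜ ∩ D).Infinite := fun hf => h6 ((hD s hs' v).1.2 hf)
    exact h9.mono fun m hm => ⟨⟨hm.1.1, Or.inl hm.2⟩, hm.1.2⟩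
  · have h6 : ¬ (atom B s v \ B c).Countable := by
      obtain ⟨x, hx, hxc⟩ := hne
      intro hcnt
      have h8 : atom B (insert c s) {i | x ∈ B i} ⊆ atom B s v \ B c := by
        intro y hy
        refine ⟨fun i hi => ?_, fun hyc => ?_⟩
        · exact (hy i (Finset.mem_insert_of_mem hi)).trans (hx i hi)
        · exact hxc ((hy c (Finset.mem_insert_self _ _)).1 hyc)
      exact hB (insert c s) (fun _ _ => mem_univ _) {i | x ∈ B i} ⟨x, fun i _ => Iff.rfl⟩
        (hcnt.mono h8)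
    have h9 : ((atom A s v ∩ (rn ψc)ᶜ) \ D).Infinite := fun hf => h6 ((hD s hs' v).2.2 hf)
    exact h9.mono fun m hm => ⟨⟨hm.1.1, fun h => hm.2 ((hAc2 m hm.1.2).1 h)⟩, hm.1.2⟩
  · have h6 : (atom B s v ∩ B c).Countable := by
      rw [not_nonempty_iff_eq_empty.1 hne]
      exact countable_empty
    have h9 := (hD s hs' v).1.1 h6
    refine (h9.union (rn_finite (hvs s hs'))).subset ?_
    rintro m ⟨hm, hmA⟩
    by_cases hmr : m ∈ rn ψc
    · obtain ⟨x, hx⟩ := hmr
      by_cases hno : ∃ i ∈ s, ¬ (x ∈ B i ↔ m ∈ A i)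
      · obtain ⟨i, hi, hxi⟩ := hno
        exact Or.inr ⟨x, mem_biUnion (x := i) hi ⟨hx, hxi⟩⟩
      · push Not at hno
        refine absurd ⟨x, fun i hi => ?_, (hAc1 x m hx).2 hmA⟩ hne
        exact (hno i hi).trans (hm i hi)
    · exact Or.inl ⟨⟨hm, hmr⟩, (hAc2 m hmr).1 hmA⟩
  · have h6 : (atom B s v \ B c).Countable := by
      rw [not_nonempty_iff_eq_empty.1 hne]
      exact countable_empty
    have h9 := (hD s hs' v).2.1 h6
    refine (h9.union (rn_finite (hvs s hs'))).subset ?_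
    rintro m ⟨hm, hmA⟩
    by_cases hmr : m ∈ rn ψc
    · obtain ⟨x, hx⟩ := hmr
      by_cases hno : ∃ i ∈ s, ¬ (x ∈ B i ↔ m ∈ A i)
      · obtain ⟨i, hi, hxi⟩ := hno
        exact Or.inr ⟨x, mem_biUnion (x := i) hi ⟨hx, hxi⟩⟩
      · push Not at hno
        refine absurd ⟨x, fun i hi => ?_, fun h => hmA ((hAc1 x m hx).1 h)⟩ hne
        exact (hno i hi).trans (hm i hi)
    · exact Or.inl ⟨⟨hm, hmr⟩, fun h => hmA ((hAc2 m hmr).2 h)⟩

theorem viol_congr {B : I → Set κ} {A A' : I → Set ℕ} {R : Set (κ × ℕ)} {i : I}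
    (h : A i = A' i) : viol B A R i = viol B A' R i := by
  ext p
  simp only [viol]
  change (p ∈ R ∧ ¬ (p.1 ∈ B i ↔ p.2 ∈ A i)) ↔ (p ∈ R ∧ ¬ (p.1 ∈ B i ↔ p.2 ∈ A' i))
  rw [h]

theorem Next.congr {W : Type*} [LinearOrder W] {B : W → Set κ} {k : W → κ} {c : W}
    {ψ ψ' : W → Set (κ × ℕ)} {A A' : W → Set ℕ} {ψc : Set (κ × ℕ)} {Ac : Set ℕ}
    (h1 : ∀ i < c, ψ i = ψ' i) (h2 : ∀ i < c, A i = A' i) (h : Next B k c ψ A ψc Ac) :
    Next B k c ψ' A' ψc Ac where
  pb := h.pb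
  mono := fun i hi => h1 i hi ▸ h.mono i hi
  viol := fun i hi => viol_congr (h2 i hi) ▸ h.viol i hi
  violc := h.violc
  dom := h.dom
  inf := fun s hs v => by
    rw [← atom_congr (fun i hi => h2 i (hs i hi)) v]
    exact h.inf s hs v
  emp := fun s hs v => by
    rw [← atom_congr (fun i hi => h2 i (hs i hi)) v]
    exact h.emp s hs v

theorem exists_tower {W : Type*} [LinearOrder W] [WellFoundedLT W]
    (hW : ∀ c : W, (Iio c).Countable) {B : W → Set κ} (hB : NE univ B) (k : W → κ)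
    [Nonempty κ] :
    ∃ (ψ : W → Set (κ × ℕ)) (A : W → Set ℕ), Good univ B k ψ A := by
  classical
  let Q : W → (W → Set (κ × ℕ) × Set ℕ) → Set (κ × ℕ) × Set ℕ → Prop := fun c f q =>
    Next B k c (fun i => (f i).1) (fun i => (f i).2) q.1 q.2
  obtain ⟨f, hf⟩ := exists_rec Q
    (fun c f g hfg q hq => hq.congr (fun i hi => congrArg Prod.fst (hfg i hi))
      (fun i hi => congrArg Prod.snd (hfg i hi)))
    (fun c f hf => by
      obtain ⟨ψc, Ac, h⟩ := exists_next (hW c) hB (good_of_next (J := Iio c)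
        (ψ := fun i => (f i).1) (A := fun i => (f i).2) fun i hi => hf i hi)
      exact ⟨(ψc, Ac), h⟩)
  exact ⟨fun i => (f i).1, fun i => (f i).2, good_of_next fun i _ => hf i⟩

end Pool.Agent.Work.MP_16b18c_lc
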