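import Pool.Agent.Work.MP_16b18c_lc.Parov

/-!
The step of the embedding theorem of Parovichenko with countable sets in place of finite sets on
one side, and the lifting of families of `ℵ₁` sets modulo countable sets.
-/

namespace Pool.Agent.Work.MP_16b18c_lc

open Set Filter

variable {κ lam I : Type*}

/-- Over the indices in `J`, a Boolean combination of the sets `B i` is countable if and only if
the same combination of the sets `A i` is finite. -/
def SimC (J : Set I) (B : I → Set κ) (A : I → Set lam) : Prop :=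
  ∀ s : Finset I, (∀ i ∈ s, i ∈ J) → ∀ v : Set I, (atom B s v).Countable ↔ (atom A s v).Finite

theorem setOf_tr_countable {B : I → Set κ} {u : Finset I} {θ : Set I → Prop} :
    {k | θ {i | i ∈ u ∧ k ∈ B i}}.Countable ↔
      ∀ v : Set I, v ⊆ ↑u → θ v → (atom B u v).Countable := by
  constructor
  · intro h v hv hθ
    refine h.mono fun k hk => ?_
    have hk' : {i | i ∈ u ∧ k ∈ B i} = v := by
      ext i
      constructor
      · rintro ⟨hi, hki⟩
        exact (hk i hi).1 hki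
      · intro hi
        exact ⟨hv hi, (hk i (hv hi)).2 hi⟩
    change θ {i | i ∈ u ∧ k ∈ B i}
    rwa [hk']
  · intro h
    refine ((u.finite_toSet.finite_subsets.subset (sep_subset _ θ)).countable.biUnion
      (t := fun v _ => atom B u v) (fun v hv => h v hv.1 hv.2)).mono ?_
    intro k hk
    exact mem_biUnion (x := {i | i ∈ u ∧ k ∈ B i}) ⟨fun i hi => hi.1, hk⟩
      fun i hi => ⟨fun h => ⟨hi, h⟩, fun h => h.2⟩

theorem SimC.transfer {J : Set I} {B : I → Set κ} {A : I → Set lam} (h : SimC J B A)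
    {u : Finset I} (hu : ∀ i ∈ u, i ∈ J) (θ : Set I → Prop) :
    {k | θ {i | i ∈ u ∧ k ∈ B i}}.Countable ↔ {k | θ {i | i ∈ u ∧ k ∈ A i}}.Finite := by
  rw [setOf_tr_finite, setOf_tr_countable]
  exact forall_congr' fun v => forall_congr' fun _ => forall_congr' fun _ => h u hu v

theorem SimC.inter_finite {J : Set I} {B : I → Set κ} {A : I → Set lam} (h : SimC J B A)
    {s s' : Finset I} (hs : ∀ i ∈ s, i ∈ J) (hs' : ∀ i ∈ s', i ∈ J) {v v' : Set I}
    (hf : (atom B s v ∩ atom B s' v').Countable) : (atom A s v ∩ atom A s' v').Finite := by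
  classical
  have hu : ∀ i ∈ s ∪ s', i ∈ J := by
    intro i hi
    rcases Finset.mem_union.1 hi with hi | hi
    exacts [hs i hi, hs' i hi]
  have key := h.transfer hu (fun w => (∀ i ∈ s, (i ∈ w ↔ i ∈ v)) ∧ ∀ i ∈ s', (i ∈ w ↔ i ∈ v'))
  refine (key.1 (hf.mono ?_)).subset ?_
  · rintro k ⟨h1, h2⟩
    exact ⟨(mem_atom_tr Finset.subset_union_left).2 h1,
      (mem_atom_tr Finset.subset_union_right).2 h2⟩
  · rintro k ⟨h1, h2⟩
    exact ⟨(mem_atom_tr Finset.subset_union_left).1 h1,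
      (mem_atom_tr Finset.subset_union_right).1 h2⟩

theorem SimC.diff_infinite {J : Set I} {B : I → Set κ} {A : I → Set lam} (h : SimC J B A)
    {P : ℕ → Finset I × Finset I} (hP : ∀ n, ∀ i ∈ (P n).1, i ∈ J) (C : Set κ) (n m : ℕ)
    (hn : ¬ (atom B (P n).1 ↑(P n).2 ∩ C).Countable) :
    {k | k ∈ atom A (P n).1 ↑(P n).2 ∧
      ∀ j ≤ m, (atom B (P j).1 ↑(P j).2 ∩ C).Countable → k ∉ atom A (P j).1 ↑(P j).2}.Infinite := by
  classical
  intro hfin
  let u : Finset I := (P n).1 ∪ (Finset.range (m + 1)).biUnion fun j => (P j).1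
  have hu : ∀ i ∈ u, i ∈ J := by
    intro i hi
    rcases Finset.mem_union.1 hi with hi | hi
    · exact hP n i hi
    · obtain ⟨j, _, hj⟩ := Finset.mem_biUnion.1 hi
      exact hP j i hj
  have hun : (P n).1 ⊆ u := Finset.subset_union_left
  have huj : ∀ j ≤ m, (P j).1 ⊆ u := fun j hj =>
    (Finset.subset_biUnion_of_mem (fun j => (P j).1)
      (Finset.mem_range.2 (Nat.lt_succ_of_le hj))).trans Finset.subset_union_right
  have key := h.transfer hu (fun w => (∀ i ∈ (P n).1, (i ∈ w ↔ i ∈ (↑(P n).2 : Set I))) ∧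
    ∀ j ≤ m, (atom B (P j).1 ↑(P j).2 ∩ C).Countable →
      ¬ ∀ i ∈ (P j).1, (i ∈ w ↔ i ∈ (↑(P j).2 : Set I)))
  have h1 := key.2 (hfin.subset (by
    rintro k ⟨h1, h2⟩
    exact ⟨(mem_atom_tr hun).2 h1, fun j hj hf hk => h2 j hj hf ((mem_atom_tr (huj j hj)).1 hk)⟩))
  refine hn ((h1.union ((finite_le_nat m).countable.biUnion (t := fun j _ =>
    {k | (atom B (P j).1 ↑(P j).2 ∩ C).Countable ∧ k ∈ atom B (P j).1 ↑(P j).2 ∩ C})
    (fun j _ => ?_))).mono ?_)
  · by_cases hj : (atom B (P j).1 ↑(P j).2 ∩ C).Countable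
    · exact hj.mono fun k hk => hk.2
    · convert countable_empty
      ext k
      simp [hj]
  · rintro k ⟨hk1, hk2⟩
    by_cases hk : ∃ j ≤ m, (atom B (P j).1 ↑(P j).2 ∩ C).Countable ∧ k ∈ atom B (P j).1 ↑(P j).2
    · obtain ⟨j, hj, hf, hkj⟩ := hk
      exact Or.inr (mem_biUnion (x := j) hj ⟨hf, hkj, hk2⟩)
    · refine Or.inl ⟨(mem_atom_tr hun).1 hk1, fun j hj hf hkj => hk ⟨j, hj, hf, ?_⟩⟩
      exact (mem_atom_tr (huj j hj)).2 hkj

/-- One step of the construction, with countable sets on the left. -/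
theorem exists_stepC {J : Set I} (hJ : J.Countable) {B : I → Set κ} {A : I → Set ℕ}
    (h : SimC J B A) (C : Set κ) :
    ∃ D : Set ℕ, ∀ s : Finset I, (∀ i ∈ s, i ∈ J) → ∀ v : Set I,
      ((atom B s v ∩ C).Countable ↔ (atom A s v ∩ D).Finite) ∧
      ((atom B s v \ C).Countable ↔ (atom A s v \ D).Finite) := by
  classical
  obtain ⟨P, hP, hPinf, hPs⟩ := exists_enum_pairs hJ
  let U : ℕ → Set κ := fun n => atom B (P n).1 ↑(P n).2
  let V : ℕ → Set ℕ := fun n => atom A (P n).1 ↑(P n).2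
  have hUV : ∀ n n', (U n ∩ U n').Countable → (V n ∩ V n').Finite := fun n n' hf =>
    h.inter_finite (hP n) (hP n') hf
  have hsel : ∀ m, ∃ᶠ k in atTop,
      (m % 2 = 0 → ¬ (U (m / 2) ∩ C).Countable →
        k ∈ V (m / 2) ∧ ∀ j ≤ m / 2, (U j ∩ C).Countable → k ∉ V j) ∧
      (m % 2 = 1 → ¬ (U (m / 2) ∩ Cᶜ).Countable →
        k ∈ V (m / 2) ∧ ∀ j ≤ m / 2, (U j ∩ Cᶜ).Countable → k ∉ V j) := by
    intro m
    rw [Nat.frequently_atTop_iff_infinite]
    rcases Nat.mod_two_eq_zero_or_one m with hm | hm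
    · by_cases hi : (U (m / 2) ∩ C).Countable
      · convert Set.infinite_univ (α := ℕ)
        ext k
        simp [hm, hi]
      · refine (h.diff_infinite hP C (m / 2) (m / 2) hi).mono fun k hk => ⟨fun _ _ => hk, ?_⟩
        intro hm'
        omega
    · by_cases hi : (U (m / 2) ∩ Cᶜ).Countable
      · convert Set.infinite_univ (α := ℕ)
        ext k
        simp [hm, hi]
      · refine (h.diff_infinite hP Cᶜ (m / 2) (m / 2) hi).mono fun k hk => ⟨?_, fun _ _ => hk⟩
        intro hm'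
        omega
  obtain ⟨w, hw, hwsel⟩ := extraction_forall_of_frequently hsel
  have hw0 : ∀ n, ¬ (U n ∩ C).Countable →
      w (2 * n) ∈ V n ∧ ∀ j ≤ n, (U j ∩ C).Countable → w (2 * n) ∉ V j := by
    intro n hn
    have e : 2 * n / 2 = n := by omega
    have h' := (hwsel (2 * n)).1 (by omega)
    rw [e] at h'
    exact h' hn
  have hw1 : ∀ n, ¬ (U n ∩ Cᶜ).Countable →
      w (2 * n + 1) ∈ V n ∧ ∀ j ≤ n, (U j ∩ Cᶜ).Countable → w (2 * n + 1) ∉ V j := by
    intro n hn
    have e : (2 * n + 1) / 2 = n := by omega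
    have h' := (hwsel (2 * n + 1)).2 (by omega)
    rw [e] at h'
    exact h' hn
  let D : Set ℕ := {m | ((∃ n, (U n ∩ Cᶜ).Countable ∧ m ∈ V n ∧
      ∀ j ≤ n, (U j ∩ C).Countable → m ∉ V j) ∨
    ∃ n, ¬ (U n ∩ C).Countable ∧ m = w (2 * n)) ∧
      ¬ ∃ n, ¬ (U n ∩ Cᶜ).Countable ∧ m = w (2 * n + 1)}
  have hcd : ∀ n j, (U n ∩ Cᶜ).Countable → (U j ∩ C).Countable → (V n ∩ V j).Finite := by
    intro n j hn hj
    refine hUV n j ((hn.union hj).mono ?_)
    rintro k ⟨h1, h2⟩
    by_cases hk : k ∈ C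
    · exact Or.inr ⟨h2, hk⟩
    · exact Or.inl ⟨h1, hk⟩
  have ha : ∀ n, (U n ∩ C).Countable → (V n ∩ D).Finite := by
    intro n hn
    refine (((finite_lt_nat n).biUnion (t := fun j => {k | (U j ∩ Cᶜ).Countable ∧ k ∈ V j ∩ V n})
      (fun j _ => ?_)).union ((finite_lt_nat n).image fun j => w (2 * j))).subset ?_
    · by_cases hj : (U j ∩ Cᶜ).Countable
      · exact (hcd j n hj hn).subset fun k hk => hk.2
      · convert finite_empty
        ext k
        simp [hj]
    · rintro m ⟨hmn, hm, -⟩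
      rcases hm with ⟨j, hj, hmj, hmj'⟩ | ⟨j, hj, rfl⟩
      · have hlt : j < n := by
          by_contra hlt
          exact hmj' n (not_lt.1 hlt) hn hmn
        exact Or.inl (mem_biUnion (x := j) hlt ⟨hj, hmj, hmn⟩)
      · have hlt : j < n := by
          by_contra hlt
          exact (hw0 j hj).2 n (not_lt.1 hlt) hn hmn
        exact Or.inr ⟨j, hlt, rfl⟩
  have hb : ∀ n, (U n ∩ Cᶜ).Countable → (V n \ D).Finite := by
    intro n hn
    refine (((finite_le_nat n).biUnion (t := fun j => {k | (U j ∩ C).Countable ∧ k ∈ V n ∩ V j})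
      (fun j _ => ?_)).union ((finite_lt_nat n).image fun j => w (2 * j + 1))).subset ?_
    · by_cases hj : (U j ∩ C).Countable
      · exact (hcd n j hn hj).subset fun k hk => hk.2
      · convert finite_empty
        ext k
        simp [hj]
    · rintro m ⟨hmn, hmD⟩
      by_cases h1 : ∃ j, ¬ (U j ∩ Cᶜ).Countable ∧ m = w (2 * j + 1)
      · obtain ⟨j, hj, rfl⟩ := h1
        have hlt : j < n := by
          by_contra hlt
          exact (hw1 j hj).2 n (not_lt.1 hlt) hn hmn
        exact Or.inr ⟨j, hlt, rfl⟩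
      · have h2 : ¬ ∀ j ≤ n, (U j ∩ C).Countable → m ∉ V j := fun h2 =>
          hmD ⟨Or.inl ⟨n, hn, hmn, h2⟩, h1⟩
        push Not at h2
        obtain ⟨j, hj, hj', hmj⟩ := h2
        exact Or.inl (mem_biUnion (x := j) hj ⟨hj', hmn, hmj⟩)
  have hc : ∀ n, ¬ (U n ∩ C).Countable → (V n ∩ D).Infinite := by
    intro n hn
    refine ((hPinf n).image (f := fun m => w (2 * m)) ?_).mono ?_
    · intro a _ b _ hab
      have := hw.injective hab
      omega
    · rintro _ ⟨m, hm, rfl⟩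
      have hUm : U m = U n := by
        change atom B (P m).1 ↑(P m).2 = atom B (P n).1 ↑(P n).2
        rw [show P m = P n from hm]
      have hVm : V m = V n := by
        change atom A (P m).1 ↑(P m).2 = atom A (P n).1 ↑(P n).2
        rw [show P m = P n from hm]
      have hm' : ¬ (U m ∩ C).Countable := hUm ▸ hn
      refine ⟨hVm ▸ (hw0 m hm').1, Or.inr ⟨m, hm', rfl⟩, ?_⟩
      rintro ⟨m', -, he⟩
      have := hw.injective he
      omega
  have hd : ∀ n, ¬ (U n ∩ Cᶜ).Countable → (V n \ D).Infinite := by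
    intro n hn
    refine ((hPinf n).image (f := fun m => w (2 * m + 1)) ?_).mono ?_
    · intro a _ b _ hab
      have := hw.injective hab
      omega
    · rintro _ ⟨m, hm, rfl⟩
      have hUm : U m = U n := by
        change atom B (P m).1 ↑(P m).2 = atom B (P n).1 ↑(P n).2
        rw [show P m = P n from hm]
      have hVm : V m = V n := by
        change atom A (P m).1 ↑(P m).2 = atom A (P n).1 ↑(P n).2
        rw [show P m = P n from hm]
      have hm' : ¬ (U m ∩ Cᶜ).Countable := hUm ▸ hn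
      exact ⟨hVm ▸ (hw1 m hm').1, fun hD => hD.2 ⟨m, hm', rfl⟩⟩
  refine ⟨D, fun s hs v => ?_⟩
  obtain ⟨n, hn⟩ := hPs (s, s.filter (· ∈ v)) hs
    (fun i hi => hs i (Finset.mem_filter.1 hi).1)
  have hUn : atom B s v = U n := by
    change atom B s v = atom B (P n).1 ↑(P n).2
    rw [hn]
    ext k
    refine forall_congr' fun i => forall_congr' fun hi => ?_
    simp [hi]
  have hVn : atom A s v = V n := by
    change atom A s v = atom A (P n).1 ↑(P n).2
    rw [hn]
    ext k
    refine forall_congr' fun i => forall_congr' fun hi => ?_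
    simp [hi]
  rw [hUn, hVn, sdiff_eq (x := U n)]
  exact ⟨⟨ha n, fun h => by_contra fun h' => hc n h' h⟩,
    ⟨hb n, fun h => by_contra fun h' => hd n h' h⟩⟩

/-- Relative form of the step: the sets on the right are considered inside `M`. -/
theorem exists_stepC_rel {J : Set I} (hJ : J.Countable) {B : I → Set κ} {A : I → Set ℕ}
    {M : Set ℕ} (hM : M.Infinite)
    (h : ∀ s : Finset I, (∀ i ∈ s, i ∈ J) → ∀ v : Set I,
      (atom B s v).Countable ↔ (atom A s v ∩ M).Finite) (C : Set κ) :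
    ∃ D : Set ℕ, D ⊆ M ∧ ∀ s : Finset I, (∀ i ∈ s, i ∈ J) → ∀ v : Set I,
      ((atom B s v ∩ C).Countable ↔ (atom A s v ∩ M ∩ D).Finite) ∧
      ((atom B s v \ C).Countable ↔ ((atom A s v ∩ M) \ D).Finite) := by
  classical
  have : Infinite M := hM.to_subtype
  let ν : ℕ ≃o M := Nat.Subtype.orderIsoOfNat M
  have hν : ∀ S : Set ℕ, {n | (ν n : ℕ) ∈ S}.Finite ↔ (S ∩ M).Finite := by
    intro S
    constructor
    · intro hf
      refine (hf.image fun n => (ν n : ℕ)).subset ?_
      rintro m ⟨hm, hmM⟩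
      exact ⟨ν.symm ⟨m, hmM⟩, by simpa using hm, by simp⟩
    · intro hf
      have h1 := hf.preimage (f := fun n => (ν n : ℕ)) (by
        intro a _ b _ hab
        exact ν.injective (Subtype.ext hab))
      exact h1.subset fun n hn => ⟨hn, (ν n).2⟩
  have hat : ∀ (s : Finset I) (v : Set I),
      atom (fun i => {n | (ν n : ℕ) ∈ A i}) s v = {n | (ν n : ℕ) ∈ atom A s v} := fun s v => rfl
  have h' : SimC J B (fun i => {n | (ν n : ℕ) ∈ A i}) := by
    intro s hs v
    rw [hat, hν]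
    exact h s hs v
  obtain ⟨D, hD⟩ := exists_stepC hJ h' C
  refine ⟨(fun n => (ν n : ℕ)) '' D, ?_, fun s hs v => ?_⟩
  · rintro _ ⟨n, -, rfl⟩
    exact (ν n).2
  · obtain ⟨h1, h2⟩ := hD s hs v
    have e1 : {n | (ν n : ℕ) ∈ atom A s v} ∩ D =
        {n | (ν n : ℕ) ∈ atom A s v ∩ (fun n => (ν n : ℕ)) '' D} := by
      ext n
      constructor
      · rintro ⟨h1, h2⟩
        exact ⟨h1, n, h2, rfl⟩
      · rintro ⟨h1, n', h2, h3⟩
        have h4 : n' = n := ν.injective (Subtype.ext h3)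
        exact ⟨h1, h4 ▸ h2⟩
    have e2 : {n | (ν n : ℕ) ∈ atom A s v} \ D =
        {n | (ν n : ℕ) ∈ atom A s v \ (fun n => (ν n : ℕ)) '' D} := by
      ext n
      constructor
      · rintro ⟨h1, h2⟩
        refine ⟨h1, ?_⟩
        rintro ⟨n', h3, h4⟩
        have h5 : n' = n := ν.injective (Subtype.ext h4)
        exact h2 (h5 ▸ h3)
      · rintro ⟨h1, h2⟩
        exact ⟨h1, fun h3 => h2 ⟨n, h3, rfl⟩⟩
    rw [hat, e1, hν] at h1
    rw [hat, e2, hν] at h2
    rw [h1, h2]
    constructor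
    · rw [inter_right_comm]
    · rw [show (atom A s v \ (fun n => (ν n : ℕ)) '' D) ∩ M =
        (atom A s v ∩ M) \ (fun n => (ν n : ℕ)) '' D by
          ext m
          constructor
          · rintro ⟨⟨h1, h2⟩, h3⟩
            exact ⟨⟨h1, h3⟩, h2⟩
          · rintro ⟨⟨h1, h3⟩, h2⟩
            exact ⟨⟨h1, h2⟩, h3⟩]

end Pool.Agent.Work.MP_16b18c_lc
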